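import Mathlib
import Pool.Agent.Work.MP_33c50c_an.Cyl1

namespace Pool.Agent.Work.MP_33c50c_an.K3

open MeasureTheory Set Filter Topology

/-! ### Functions on the plane -/

/-- the derivative in the direction of the first axis -/
noncomputable def dx (u : ℝ × ℝ → ℝ) (p : ℝ × ℝ) : ℝ := fderiv ℝ u p (1, 0)

/-- the derivative in the direction of the second axis -/
noncomputable def dy (u : ℝ × ℝ → ℝ) (p : ℝ × ℝ) : ℝ := fderiv ℝ u p (0, 1)

/-- continuously differentiable with compact support -/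
def Tst (u : ℝ × ℝ → ℝ) : Prop := ContDiff ℝ 1 u ∧ HasCompactSupport u

/-- the density of the quadratic form `∫ |∇u|² - u²` -/
noncomputable def den (u : ℝ × ℝ → ℝ) (p : ℝ × ℝ) : ℝ := dx u p ^ 2 + dy u p ^ 2 - u p ^ 2

/-- the half plane above (`κ = 1`) or below (`κ = -1`) the line `y = s` -/
def hp (κ s : ℝ) : Set (ℝ × ℝ) := {p | 0 < κ * (p.2 - s)}

/-- the part of the half plane at distance less than `T` from the line -/
def sp (κ s T : ℝ) : Set (ℝ × ℝ) := {p | 0 < κ * (p.2 - s) ∧ κ * (p.2 - s) < T}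

/-- the quadratic form on the half plane -/
noncomputable def EH (κ s : ℝ) (u : ℝ × ℝ → ℝ) : ℝ := ∫ p in hp κ s, den u p

/-- Dirichlet energy -/
noncomputable def gE (u : ℝ × ℝ → ℝ) : ℝ := ∫ p, (dx u p ^ 2 + dy u p ^ 2)

/-- square of the `L²` norm -/
noncomputable def gM (u : ℝ × ℝ → ℝ) : ℝ := ∫ p, u p ^ 2

/-- the area -/
noncomputable def area (S : Set (ℝ × ℝ)) : ℝ := (volume S).toReal

/-! ### Sections -/

/-- `∫ u² dx` at height `y` -/
noncomputable def mm (u : ℝ × ℝ → ℝ) (y : ℝ) : ℝ := ∫ x, u (x, y) ^ 2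

/-- its derivative -/
noncomputable def dm (u : ℝ × ℝ → ℝ) (y : ℝ) : ℝ := ∫ x, 2 * u (x, y) * dy u (x, y)

/-- `∫ (|∇u|² - u²) dx` at height `y` -/
noncomputable def ee (u : ℝ × ℝ → ℝ) (y : ℝ) : ℝ := ∫ x, den u (x, y)

/-- `G` is a continuous positive upper bound of (length of the section of `{u ≠ 0}`) / π, above the
line `y = 0` -/
def Adm (u : ℝ × ℝ → ℝ) (G : ℝ → ℝ) : Prop :=
  Continuous G ∧ (∀ y, 0 < G y) ∧
    ∀ y, 0 ≤ y → volume {x : ℝ | u (x, y) ≠ 0} ≤ ENNReal.ofReal (Real.pi * G y)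

/-- the lower right Dini derivative of `f` at `s` is at least `d` -/
def DL (f : ℝ → ℝ) (s d : ℝ) : Prop := ∀ ε > 0, ∀ᶠ s' in 𝓝[>] s, f s + (d - ε) * (s' - s) ≤ f s'

/-- cosine of the angle with sine `x` -/
noncomputable def cc (x : ℝ) : ℝ := Real.sqrt (1 - x ^ 2)

/-- tangent of the angle with sine `x` -/
noncomputable def TT (x : ℝ) : ℝ := x / Real.sqrt (1 - x ^ 2)

/-! ### The certificate -/

/-- the parameters `t` of the four lines -/
noncomputable def tv : Fin 4 → ℝ := ![1 / 2, 568 / 1000, 7 / 10, 866 / 1000]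

/-- `b = 4 t³` -/
noncomputable def bv (i : Fin 4) : ℝ := 4 * tv i ^ 3

/-- `Φ = 3 t - 4 t³` -/
noncomputable def pv (i : Fin 4) : ℝ := 3 * tv i - 4 * tv i ^ 3

/-- the threshold `Θ` -/
noncomputable def Th : ℝ := 238 / 100

/-- the upper bound for the area (over π) of a cell -/
noncomputable def AB : ℝ := 4247 / 1000

/-- weight of the far part of the area -/
noncomputable def rho : ℝ := 1925 / 10000

/-- time step -/
noncomputable def hh : ℝ := 885 / 10000

/-- `τ = 24 h` -/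
noncomputable def tau : ℝ := 2124 / 1000

/-- the constant of the upper left line -/
noncomputable def A0 : ℝ := bv 3 - (AB - Th)

/-- the barrier `σ` as a function of the four line parameters and of `C` -/
noncomputable def lat (a : Fin 4 → ℝ) (C : ℝ) : ℝ :=
  max ((A0 - C) / bv 3)
    (min (min ((a 0 - C) / bv 0) ((a 1 - C) / bv 1)) (min ((a 2 - C) / bv 2) ((a 3 - C) / bv 3)))

/-- numerators (over `10⁴`) of the line parameters at the times `k h`, `k = 0, ..., 24` -/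
def tabL : List (Fin 4 → ℕ) :=
  [![23870, 24059, 23850, 23800], ![22997, 23200, 23207, 23800], ![22161, 22342, 22566, 23800],
    ![21386, 21485, 21930, 23800], ![20693, 20631, 21300, 23800], ![20012, 19781, 20677, 23800],
    ![19308, 18936, 20064, 23800], ![18583, 18097, 19462, 23800], ![17837, 17266, 18873, 23800],
    ![17072, 16444, 18298, 23800], ![16289, 15633, 17739, 23800], ![15490, 14835, 17197, 23800],
    ![14676, 14052, 16673, 23800], ![13848, 13286, 16169, 23800], ![13008, 12539, 15687, 23800],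
    ![12157, 11813, 15227, 23800], ![11296, 11111, 14791, 23800], ![10428, 10435, 14379, 23800],
    ![9553, 9788, 13993, 23800], ![8688, 9173, 13634, 23800], ![7850, 8593, 13302, 23800],
    ![7051, 8050, 12998, 23800], ![6303, 7547, 12723, 23800], ![5617, 7086, 12477, 23800],
    ![5000, 6670, 12260, 23800]]

/-- the line parameters at time `k h` -/
noncomputable def tab (k : ℕ) (i : Fin 4) : ℝ := ((tabL.getD k 0 i : ℕ) : ℝ) / 10000

/-- The conditions on the line parameters at the beginning (`x`) and at the end (`y`) of a time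
step: whenever the line `i` is active its value `σ` satisfies `|σ| ≤ r i`, where the slope
satisfies `μ² ≤ Φ² (1 - r²)`. -/
def SlabOK (x y : Fin 4 → ℝ) : Prop :=
  x 3 = Th ∧ y 3 = Th ∧ ∃ r : Fin 4 → ℝ, ∀ i, 0 ≤ r i ∧ r i ≤ 1 ∧ y i ≤ x i ∧
    (x i - y i) ^ 2 ≤ (hh * pv i) ^ 2 * (1 - r i ^ 2) ∧
    ∀ t C : ℝ, 0 ≤ t → t ≤ 1 → 0 < C → C ≤ Th →
      (A0 - C) / bv 3 ≤ (x i + t * (y i - x i) - C) / bv i →
      (∀ j, (x i + t * (y i - x i) - C) / bv i ≤ (x j + t * (y j - x j) - C) / bv j) →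
      |x i + t * (y i - x i) - C| ≤ r i * bv i

/-! ### Three functions -/

/-- linear combinations of three functions -/
def lin (v : Fin 3 → ℝ × ℝ → ℝ) (c : Fin 3 → ℝ) : ℝ × ℝ → ℝ := fun p => ∑ i, c i * v i p

/-- the value of the quadratic form of the matrix `M` -/
def qf (M : Matrix (Fin 3) (Fin 3) ℝ) (c : Fin 3 → ℝ) : ℝ := ∑ i, ∑ j, c i * c j * M i j

/-- `M` is negative on the span of two vectors -/
def NegM (M : Matrix (Fin 3) (Fin 3) ℝ) : Prop :=
  ∃ a b : Fin 3 → ℝ, ∀ θ : ℝ, qf M (fun i => Real.cos θ * a i + Real.sin θ * b i) < 0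

/-- `M` is symmetric -/
def SymM (M : Matrix (Fin 3) (Fin 3) ℝ) : Prop := ∀ i j, M i j = M j i

/-- `M` is negative definite -/
def NegD (M : Matrix (Fin 3) (Fin 3) ℝ) : Prop := ∀ c : Fin 3 → ℝ, c ≠ 0 → qf M c < 0

/-- a regular truncation at height `ε` -/
def Bet (ε : ℝ) (β : ℝ → ℝ) : Prop :=
  ContDiff ℝ 1 β ∧ (∀ t, t ≤ ε → β t = 0) ∧ (∀ t, 0 ≤ deriv β t ∧ deriv β t ≤ 1) ∧
    ∀ t, 0 ≤ t → t - 3 * ε / 2 ≤ β t

/-! ### The cylinder -/

/-- the width of the cut -/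
noncomputable def wd : ℝ := 1 / 2000

/-- a cut-off function on the interval `(0, 2π)` -/
def Cut (χ : ℝ → ℝ) : Prop :=
  ContDiff ℝ 1 χ ∧ (∀ x, 0 ≤ χ x ∧ χ x ≤ 1) ∧ (∀ x, x ≤ wd → χ x = 0) ∧
    (∀ x, 2 * Real.pi - wd ≤ x → χ x = 0) ∧
    (∀ x, 2 * wd ≤ x → x ≤ 2 * Real.pi - 2 * wd → χ x = 1) ∧
    ∀ x, |deriv χ x| ≤ 2 / wd

/-- the function `u` on the cylinder, cut open near the segment `{a} × ℝ` -/
noncomputable def cutl (χ : ℝ → ℝ) (a : ℝ) (u : Cyl → ℝ) : ℝ × ℝ → ℝ :=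
  fun q => χ q.1 * u (pt (a + q.1) q.2)

/-- the set `Ω`, cut open along the segment `{a} × ℝ` -/
def cutS (a : ℝ) (Ω : Set Cyl) : Set (ℝ × ℝ) :=
  {q | 0 < q.1 ∧ q.1 < 2 * Real.pi ∧ pt (a + q.1) q.2 ∈ Ω}

/-- the integral of `u²` over the segment `{x} × ℝ` -/
noncomputable def ro (u : Cyl → ℝ) (x : ℝ) : ℝ := ∫ y, u (pt x y) ^ 2

/-- the integral of `f` over the window of width `4 wd` around `a` -/
noncomputable def win (f : ℝ → ℝ) (a : ℝ) : ℝ :=
  (∫ x in (0:ℝ)..(2 * wd), f (a + x)) + ∫ x in (2 * Real.pi - 2 * wd)..(2 * Real.pi), f (a + x)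

end Pool.Agent.Work.MP_33c50c_an.K3
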