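import Pool.Agent.Work.MP_33c50c_an.K3.Stmts

set_option autoImplicit false

namespace Pool.Agent.Work.MP_33c50c_an.K3

open MeasureTheory Set Filter Topology Asymptotics

namespace Beta

lemma hda (x : ℝ) : HasDerivAt (fun x : ℝ => (max 0 x) ^ 2) (2 * max 0 x) x := by
  rcases lt_trichotomy x 0 with h | h | h
  · have h1 : (fun x : ℝ => (max 0 x) ^ 2) =ᶠ[𝓝 x] fun _ => 0 := by
      filter_upwards [Iio_mem_nhds h] with y hy
      rw [max_eq_left (le_of_lt hy)]
      norm_num
    rw [max_eq_left h.le, mul_zero]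
    exact (hasDerivAt_const x (0 : ℝ)).congr_of_eventuallyEq h1
  · subst h
    rw [hasDerivAt_iff_isLittleO]
    simp only [max_self, ne_eq, OfNat.ofNat_ne_zero, not_false_eq_true, zero_pow, sub_zero,
      mul_zero, smul_eq_mul]
    have h1 : (fun x : ℝ => (max 0 x) ^ 2) =O[𝓝 0] fun x : ℝ => x ^ 2 := by
      refine IsBigO.of_bound 1 (Eventually.of_forall fun y => ?_)
      rw [Real.norm_eq_abs, Real.norm_eq_abs, abs_of_nonneg (sq_nonneg _),
        abs_of_nonneg (sq_nonneg _), one_mul]
      rcases le_total 0 y with hy | hy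
      · rw [max_eq_right hy]
      · rw [max_eq_left hy]
        nlinarith [sq_nonneg y]
    have h2 : (fun x : ℝ => x ^ 2) =o[𝓝 0] fun x : ℝ => x := by
      have := isLittleO_pow_pow (𝕜 := ℝ) (m := 1) (n := 2) (by norm_num)
      simpa using this
    exact h1.trans_isLittleO h2
  · have h1 : (fun x : ℝ => (max 0 x) ^ 2) =ᶠ[𝓝 x] fun x => x ^ 2 := by
      filter_upwards [Ioi_mem_nhds h] with y hy
      rw [max_eq_right (le_of_lt hy)]
    rw [max_eq_right h.le]
    have h2 : HasDerivAt (fun x : ℝ => x ^ 2) (2 * x) x := by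
      simpa using hasDerivAt_pow 2 x
    exact h2.congr_of_eventuallyEq h1

/-- the derivative of the truncation -/
lemma hdb (ε : ℝ) (hε : 0 < ε) (t : ℝ) :
    HasDerivAt (fun t : ℝ => (max 0 (t - ε)) ^ 2 / (2 * ε) - (max 0 (t - 2 * ε)) ^ 2 / (2 * ε))
      ((max 0 (t - ε) - max 0 (t - 2 * ε)) / ε) t := by
  have h1 : HasDerivAt (fun t : ℝ => (max 0 (t - ε)) ^ 2) (2 * max 0 (t - ε)) t := by
    have := (hda (t - ε)).comp_sub_const t ε
    exact this
  have h2 : HasDerivAt (fun t : ℝ => (max 0 (t - 2 * ε)) ^ 2) (2 * max 0 (t - 2 * ε)) t := by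
    have := (hda (t - 2 * ε)).comp_sub_const t (2 * ε)
    exact this
  have h3 := (h1.div_const (2 * ε)).sub (h2.div_const (2 * ε))
  have h4 : 2 * max 0 (t - ε) / (2 * ε) - 2 * max 0 (t - 2 * ε) / (2 * ε) =
      (max 0 (t - ε) - max 0 (t - 2 * ε)) / ε := by
    field_simp
  rw [h4] at h3
  exact h3

end Beta

open Beta

theorem prfBeta : S_Beta := by
  intro ε hε
  have hd : ∀ t, deriv (fun t : ℝ => (max 0 (t - ε)) ^ 2 / (2 * ε) -
      (max 0 (t - 2 * ε)) ^ 2 / (2 * ε)) t = (max 0 (t - ε) - max 0 (t - 2 * ε)) / ε :=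
    fun t => (hdb ε hε t).deriv
  refine ⟨fun t : ℝ => (max 0 (t - ε)) ^ 2 / (2 * ε) - (max 0 (t - 2 * ε)) ^ 2 / (2 * ε),
    ?_, ?_, ?_, ?_⟩
  · rw [contDiff_one_iff_deriv]
    refine ⟨fun t => (hdb ε hε t).differentiableAt, ?_⟩
    have h1 : deriv (fun t : ℝ => (max 0 (t - ε)) ^ 2 / (2 * ε) -
      (max 0 (t - 2 * ε)) ^ 2 / (2 * ε)) = fun t => (max 0 (t - ε) - max 0 (t - 2 * ε)) / ε :=
      funext hd
    rw [h1]
    fun_prop
  · intro t ht
    simp only
    rw [max_eq_left (by linarith), max_eq_left (by linarith)]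
    norm_num
  · intro t
    rw [hd t]
    constructor
    · apply div_nonneg _ hε.le
      have : max 0 (t - 2 * ε) ≤ max 0 (t - ε) := max_le_max le_rfl (by linarith)
      linarith
    · rw [div_le_one hε]
      have : max 0 (t - ε) ≤ max 0 (t - 2 * ε) + ε := by
        apply max_le
        · have := le_max_left 0 (t - 2 * ε)
          linarith
        · have := le_max_right 0 (t - 2 * ε)
          linarith
      linarith
  · intro t ht
    simp only
    rw [← sub_div, le_div_iff₀ (by linarith)]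
    rcases le_total t ε with h1 | h1
    · rw [max_eq_left (by linarith), max_eq_left (by linarith)]
      nlinarith
    · rcases le_total t (2 * ε) with h2 | h2
      · rw [max_eq_right (by linarith), max_eq_left (by linarith)]
        nlinarith [sq_nonneg (t - 2 * ε)]
      · rw [max_eq_right (by linarith), max_eq_right (by linarith)]
        nlinarith

end Pool.Agent.Work.MP_33c50c_an.K3
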