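import Mathlib
import Pool.Agent.Work.MP_33c50c_an.K3.Defs

namespace Pool.Agent.Work.MP_33c50c_an.K3

open MeasureTheory Set Filter Topology

/-! ### One cell -/

/-- Faber-Krahn on the line. -/
def S_FK1 : Prop := ∀ (f : ℝ → ℝ) (g : ℝ), ContDiff ℝ 1 f → HasCompactSupport f → 0 < g →
  volume {x | f x ≠ 0} ≤ ENNReal.ofReal (Real.pi * g) →
    (∫ x, f x ^ 2) ≤ g ^ 2 * ∫ x, deriv f x ^ 2

/-- Regularity of the section functions, and Fubini. -/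
def S_Reg : Prop := ∀ u : ℝ × ℝ → ℝ, Tst u →
  (∀ y, HasDerivAt (mm u) (dm u y) y) ∧ Continuous (dm u) ∧ Continuous (ee u) ∧
  HasCompactSupport (mm u) ∧ HasCompactSupport (ee u) ∧
  EH 1 0 u = ∫ y in Ioi (0:ℝ), ee u y

/-- The section inequality. -/
def S_Sec : Prop := ∀ (u : ℝ × ℝ → ℝ) (G : ℝ → ℝ), Tst u → Adm u G → ∀ R y : ℝ, 0 ≤ y →
  0 ≤ ee u y + (R ^ 2 + 1 - 1 / G y ^ 2) * mm u y + R * dm u y

/-- A continuous function with nonnegative lower right derivative is monotone. -/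
def S_Mono : Prop := ∀ (f : ℝ → ℝ) (p q : ℝ), p ≤ q → ContinuousOn f (Icc p q) →
  (∀ s ∈ Ico p q, DL f s 0) → f p ≤ f q

/-- The barrier lemma. -/
def S_Dini : Prop := ∀ (u : ℝ × ℝ → ℝ) (G σ : ℝ → ℝ) (p q : ℝ), Tst u → Adm u G → 0 ≤ p → p ≤ q →
  ContinuousOn σ (Icc p q) → (∀ s ∈ Icc p q, |σ s| < 1) →
  (∀ s ∈ Ico p q, DL σ s (cc (σ s) - cc (σ s) ^ 3 / G s ^ 2)) →
  TT (σ p) * mm u p ≤ (∫ s in p..q, ee u s) + TT (σ q) * mm u q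

/-- The arithmetic-geometric inequality behind the lines. -/
def S_Line : Prop := ∀ σ t μ g r : ℝ, |σ| ≤ r → r ≤ 1 → 0 < t → 0 ≤ 3 * t - 4 * t ^ 3 → 0 ≤ μ →
  μ ^ 2 ≤ (3 * t - 4 * t ^ 3) ^ 2 * (1 - r ^ 2) → 0 < g →
  cc σ - cc σ ^ 3 / g ^ 2 ≤ (g - μ) / (4 * t ^ 3)

/-- The size of the barrier. -/
def S_LatLt : Prop := ∀ (a : Fin 4 → ℝ) (C : ℝ), a 3 = Th → 0 < C → C ≤ Th → |lat a C| < 1

/-- The derivative of the barrier. -/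
def S_LatDL : Prop := ∀ (G : ℝ → ℝ) (x y : Fin 4 → ℝ) (p C s : ℝ), Continuous G →
  (∀ z, 0 < G z) → SlabOK x y → C ≤ Th → s ∈ Ico p (p + hh) → 0 < C - ∫ z in p..s, G z →
  DL (fun s => lat (fun i => x i + (s - p) / hh * (y i - x i)) (C - ∫ z in p..s, G z)) s
    (cc (lat (fun i => x i + (s - p) / hh * (y i - x i)) (C - ∫ z in p..s, G z)) -
      cc (lat (fun i => x i + (s - p) / hh * (y i - x i)) (C - ∫ z in p..s, G z)) ^ 3 / G s ^ 2)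

/-- One time step. -/
def S_Slab : Prop := ∀ (u : ℝ × ℝ → ℝ) (G : ℝ → ℝ), Tst u → Adm u G →
  ∀ x y : Fin 4 → ℝ, SlabOK x y → ∀ p C : ℝ, 0 ≤ p → C ≤ Th →
    0 < C - (∫ s in p..(p + hh), G s) →
    TT (lat x C) * mm u p ≤ (∫ s in p..(p + hh), ee u s) +
      TT (lat y (C - ∫ s in p..(p + hh), G s)) * mm u (p + hh)

/-- The strip `0 < y < τ`. -/
def S_Chain : Prop := ∀ (u : ℝ × ℝ → ℝ) (G : ℝ → ℝ), Tst u → Adm u G →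
  (∫ s in (0:ℝ)..tau, G s) < Th →
  0 ≤ (∫ s in (0:ℝ)..tau, ee u s) + TT (lat (tab 24) (Th - ∫ s in (0:ℝ)..tau, G s)) * mm u tau

/-- The half plane above a height `p`. -/
def S_Tail : Prop := ∀ (u : ℝ × ℝ → ℝ) (G : ℝ → ℝ), Tst u → Adm u G → IntegrableOn G (Ioi 0) →
  ∀ p σ : ℝ, 0 ≤ p → -1 < σ → σ + (∫ s in Ioi p, G s) / bv 3 < 1 →
    TT σ * mm u p ≤ ∫ s in Ioi p, ee u s

/-- One cell, in terms of an upper bound `G` of its sections. -/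
def S_Cell : Prop := ∀ (u : ℝ × ℝ → ℝ) (G : ℝ → ℝ), Tst u → Adm u G → IntegrableOn G (Ioi 0) →
  EH 1 0 u < 0 → bv 3 ≤ (∫ s in Ioi (0:ℝ), G s) ∧
    ((∫ s in Ioi (0:ℝ), G s) < AB →
      Th ≤ rho * (∫ s in Ioi (0:ℝ), G s) + (1 - rho) * ∫ s in (0:ℝ)..tau, G s)

/-- A continuous upper bound of the sections of a compact set. -/
def S_Maj : Prop := ∀ K : Set (ℝ × ℝ), IsCompact K → ∀ δ > 0, ∀ T > 0, ∃ G : ℝ → ℝ,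
  Continuous G ∧ (∀ y, 0 < G y) ∧ Integrable G ∧
  (∀ y, volume {x : ℝ | (x, y) ∈ K} ≤ ENNReal.ofReal (Real.pi * G y)) ∧
  Real.pi * (∫ y in Ioi (0:ℝ), G y) ≤ area (K ∩ hp 1 0) + δ ∧
  Real.pi * (∫ y in (0:ℝ)..T, G y) ≤ area (K ∩ sp 1 0 T) + δ

/-- One cell above the line `y = 0`. -/
def S_CellK : Prop := ∀ (u : ℝ × ℝ → ℝ) (K : Set (ℝ × ℝ)), Tst u → IsCompact K →
  (∀ p, u p ≠ 0 → p ∈ K) → EH 1 0 u < 0 →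
  Real.pi * bv 3 ≤ area (K ∩ hp 1 0) ∧
    (area (K ∩ hp 1 0) < Real.pi * AB →
      Real.pi * Th ≤ rho * area (K ∩ hp 1 0) + (1 - rho) * area (K ∩ sp 1 0 tau))

/-- Translations and reflections. -/
def S_Sym : Prop := ∀ (u : ℝ × ℝ → ℝ) (K : Set (ℝ × ℝ)) (κ s T : ℝ), (κ = 1 ∨ κ = -1) →
  Tst u → IsCompact K →
  Tst (fun p => u (p.1, s + κ * p.2)) ∧ EH 1 0 (fun p => u (p.1, s + κ * p.2)) = EH κ s u ∧
  IsCompact {p : ℝ × ℝ | (p.1, s + κ * p.2) ∈ K} ∧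
  area ({p : ℝ × ℝ | (p.1, s + κ * p.2) ∈ K} ∩ hp 1 0) = area (K ∩ hp κ s) ∧
  area ({p : ℝ × ℝ | (p.1, s + κ * p.2) ∈ K} ∩ sp 1 0 T) = area (K ∩ sp κ s T)

/-- One cell above or below a line. -/
def S_CellS : Prop := ∀ (u : ℝ × ℝ → ℝ) (K : Set (ℝ × ℝ)) (κ s : ℝ), (κ = 1 ∨ κ = -1) →
  Tst u → IsCompact K → (∀ p, u p ≠ 0 → p ∈ K) → EH κ s u < 0 →
  Real.pi * bv 3 ≤ area (K ∩ hp κ s) ∧
    (area (K ∩ hp κ s) < Real.pi * AB →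
      Real.pi * Th ≤ rho * area (K ∩ hp κ s) + (1 - rho) * area (K ∩ sp κ s tau))

/-! ### Four cells -/

/-- Truncation functions. -/
def S_Beta : Prop := ∀ ε > 0, ∃ β : ℝ → ℝ, Bet ε β

/-- The positive and the negative part. -/
def S_Trunc : Prop := ∀ (w : ℝ × ℝ → ℝ) (ε : ℝ) (β : ℝ → ℝ), 0 < ε → Bet ε β → Tst w →
  Tst (fun p => β (w p)) ∧ Tst (fun p => β (-w p)) ∧
  ∀ κ s : ℝ, EH κ s (fun p => β (w p)) + EH κ s (fun p => β (-w p)) ≤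
    EH κ s w + 3 * ε * ∫ p, |w p|

/-- Two cells in a half plane, from a plane of functions. -/
def S_Dir : Prop := ∀ (a b : ℝ × ℝ → ℝ) (κ s : ℝ), Tst a → Tst b →
  (∀ θ : ℝ, EH κ s (fun p => Real.cos θ * a p + Real.sin θ * b p) < 0) →
  ∃ (u₁ u₂ : ℝ × ℝ → ℝ) (K₁ K₂ : Set (ℝ × ℝ)), Tst u₁ ∧ Tst u₂ ∧ IsCompact K₁ ∧ IsCompact K₂ ∧
    Disjoint K₁ K₂ ∧ K₁ ∪ K₂ ⊆ tsupport a ∪ tsupport b ∧ (∀ p, u₁ p ≠ 0 → p ∈ K₁) ∧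
    (∀ p, u₂ p ≠ 0 → p ∈ K₂) ∧ EH κ s u₁ < 0 ∧ EH κ s u₂ < 0

/-- The matrices of the quadratic forms. -/
def S_Mat : Prop := ∀ v : Fin 3 → ℝ × ℝ → ℝ, (∀ i, Tst (v i)) →
  ∃ (P N : ℝ → Matrix (Fin 3) (Fin 3) ℝ) (D : Matrix (Fin 3) (Fin 3) ℝ) (S : ℝ),
    (∀ s c, EH 1 s (lin v c) = qf (P s) c) ∧ (∀ s c, EH (-1) s (lin v c) = qf (N s) c) ∧
    (∀ c, gE (lin v c) - gM (lin v c) = qf D c) ∧ (∀ s, P s + N s = D) ∧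
    (∀ i j, Continuous fun s => P s i j) ∧ (∀ i j, Continuous fun s => N s i j) ∧
    (∀ s, SymM (P s)) ∧ (∀ s, SymM (N s)) ∧ (∀ s, S ≤ s → P s = 0) ∧ (∀ s, s ≤ -S → N s = 0)

/-- Two symmetric matrices with negative definite sum. -/
def S_Sig : Prop := ∀ P N : Matrix (Fin 3) (Fin 3) ℝ, SymM P → SymM N → NegD (P + N) →
  NegM P ∨ NegM N

/-- Being negative on a plane is an open condition. -/
def S_Open : Prop := ∀ P : ℝ → Matrix (Fin 3) (Fin 3) ℝ, (∀ i j, Continuous fun s => P s i j) →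
  IsOpen {s | NegM (P s)}

/-- Hence some line is good. -/
def S_Conn : Prop := ∀ (P N : ℝ → Matrix (Fin 3) (Fin 3) ℝ) (D : Matrix (Fin 3) (Fin 3) ℝ) (S : ℝ),
  NegD D → (∀ s, P s + N s = D) → (∀ i j, Continuous fun s => P s i j) →
  (∀ i j, Continuous fun s => N s i j) → (∀ s, SymM (P s)) → (∀ s, SymM (N s)) →
  (∀ s, S ≤ s → P s = 0) → (∀ s, s ≤ -S → N s = 0) → ∃ s, NegM (P s) ∧ NegM (N s)

/-- Four cells. -/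
def S_Four : Prop := ∀ (v : Fin 3 → ℝ × ℝ → ℝ) (Ω : Set (ℝ × ℝ)),
  (∀ i, Tst (v i) ∧ tsupport (v i) ⊆ Ω) → (∀ c : Fin 3 → ℝ, c ≠ 0 → gE (lin v c) < gM (lin v c)) →
  ∃ s : ℝ, ∀ κ : ℝ, (κ = 1 ∨ κ = -1) →
    ∃ (u₁ u₂ : ℝ × ℝ → ℝ) (K₁ K₂ : Set (ℝ × ℝ)), Tst u₁ ∧ Tst u₂ ∧ IsCompact K₁ ∧ IsCompact K₂ ∧
      Disjoint K₁ K₂ ∧ K₁ ∪ K₂ ⊆ Ω ∧ (∀ p, u₁ p ≠ 0 → p ∈ K₁) ∧ (∀ p, u₂ p ≠ 0 → p ∈ K₂) ∧
      EH κ s u₁ < 0 ∧ EH κ s u₂ < 0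

/-! ### The plane -/

/-- The strip inequality. -/
def S_Strip : Prop := ∀ (v : Fin 3 → ℝ × ℝ → ℝ) (Ω : Set (ℝ × ℝ)), IsOpen Ω →
  volume Ω ≤ ENNReal.ofReal (1204 / 100 * Real.pi) →
  (∀ i, Tst (v i) ∧ tsupport (v i) ⊆ Ω) → (∀ c : Fin 3 → ℝ, c ≠ 0 → gE (lin v c) < gM (lin v c)) →
  ∃ s : ℝ, 4 * Real.pi * Th ≤ rho * area Ω + (1 - rho) * area (Ω ∩ {p | |p.2 - s| < tau})

/-- Exchange of the axes. -/
def S_Swap : Prop := ∀ u : ℝ × ℝ → ℝ, Tst u → Tst (fun p => u p.swap) ∧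
  gE (fun p => u p.swap) = gE u ∧ gM (fun p => u p.swap) = gM u ∧
  tsupport (fun p => u p.swap) = Prod.swap ⁻¹' tsupport u

/-- Two crossing strips. -/
def S_Cross : Prop := ∀ (Ω : Set (ℝ × ℝ)) (s s' T : ℝ), MeasurableSet Ω → volume Ω ≠ ⊤ → 0 < T →
  area (Ω ∩ {p | |p.2 - s| < T}) + area (Ω ∩ {p | |p.1 - s'| < T}) ≤ area Ω + 4 * T ^ 2

/-- The theorem in the plane, `λ = 1`. -/
def S_Plane1 : Prop := ∀ (v : Fin 3 → ℝ × ℝ → ℝ) (Ω : Set (ℝ × ℝ)), IsOpen Ω →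
  volume Ω ≤ ENNReal.ofReal (1204 / 100 * Real.pi) →
  (∀ i, Tst (v i) ∧ tsupport (v i) ⊆ Ω) →
  ¬ ∀ c : Fin 3 → ℝ, c ≠ 0 → gE (lin v c) < gM (lin v c)

/-- Homotheties. -/
def S_Hom : Prop := ∀ (u : ℝ × ℝ → ℝ) (l : ℝ), Tst u → 0 < l →
  Tst (fun p => u (l⁻¹ • p)) ∧ gE (fun p => u (l⁻¹ • p)) = gE u ∧
  gM (fun p => u (l⁻¹ • p)) = l ^ 2 * gM u ∧
  tsupport (fun p => u (l⁻¹ • p)) = (fun p => l⁻¹ • p) ⁻¹' tsupport u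

/-- The theorem in the plane. -/
def S_Plane : Prop := ∀ (v : Fin 3 → ℝ × ℝ → ℝ) (Ω : Set (ℝ × ℝ)) (lam : ℝ), IsOpen Ω → 0 < lam →
  volume Ω ≤ ENNReal.ofReal (1204 / 100 * Real.pi / lam) →
  (∀ i, Tst (v i) ∧ tsupport (v i) ⊆ Ω) →
  ¬ ∀ c : Fin 3 → ℝ, c ≠ 0 → gE (lin v c) < lam * gM (lin v c)

/-! ### The cylinder -/

/-- Existence of the cut-off function. -/
def S_Chi : Prop := ∃ χ : ℝ → ℝ, Cut χ

/-- An orthonormal basis. -/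
def S_Orth : Prop := ∀ (Ω : Set Cyl) (L : Submodule ℝ (Cyl → ℝ)), (∀ u ∈ L, IsTest Ω u) →
  Module.finrank ℝ L = 3 → ∃ w : Fin 3 → Cyl → ℝ, (∀ i, w i ∈ L) ∧
    ∀ i j, ∫ p, w i p * w j p = if i = j then 1 else 0

/-- Properties of `ro`. -/
def S_Ro : Prop := ∀ (Ω : Set Cyl) (u : Cyl → ℝ), IsTest Ω u → Continuous (ro u) ∧
  (∀ x, 0 ≤ ro u x) ∧ (∀ x, ro u (x + 2 * Real.pi) = ro u x) ∧
  ∫ x in (0:ℝ)..(2 * Real.pi), ro u x = mass u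

/-- A window with small mass. -/
def S_Win : Prop := ∀ f : ℝ → ℝ, Continuous f → (∀ x, 0 ≤ f x) →
  (∀ x, f (x + 2 * Real.pi) = f x) →
  ∃ a : ℝ, win f a ≤ 2 * wd / Real.pi * ∫ x in (0:ℝ)..(2 * Real.pi), f x

/-- The cut functions are test functions. -/
def S_CTst : Prop := ∀ (Ω : Set Cyl) (u : Cyl → ℝ) (χ : ℝ → ℝ) (a : ℝ), IsOpen Ω → IsTest Ω u →
  Cut χ → Tst (cutl χ a u) ∧ tsupport (cutl χ a u) ⊆ cutS a Ω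

/-- Area of the cut domain. -/
def S_CVol : Prop := ∀ (Ω : Set Cyl) (a : ℝ), IsOpen Ω → IsOpen (cutS a Ω) ∧
  volume (cutS a Ω) ≤ volume Ω

/-- The mass of the cut functions. -/
def S_CMas : Prop := ∀ (Ω : Set Cyl) (u : Cyl → ℝ) (χ : ℝ → ℝ) (a : ℝ), IsTest Ω u → Cut χ →
  mass u - win (ro u) a ≤ gM (cutl χ a u)

/-- The energy of the cut functions. -/
def S_CEn : Prop := ∀ (Ω : Set Cyl) (u : Cyl → ℝ) (χ : ℝ → ℝ) (a : ℝ), IsTest Ω u → Cut χ →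
  gE (cutl χ a u) ≤ 1001 / 1000 * energy u + 1001 * (2 / wd) ^ 2 * win (ro u) a

/-- The theorem on the cylinder. -/
def S_Cyl : Prop := ∀ Ω : Set Cyl, IsOpen Ω → volume Ω ≤ ENNReal.ofReal (1 / 10 ^ 9) →
  ENNReal.ofReal (12 * Real.pi) / volume Ω ≤ eigenvalue Ω 3

end Pool.Agent.Work.MP_33c50c_an.K3
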