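import Mathlib
import Pool.Agent.Work.MP_33c50c_an.K3.Stmts
import Pool.Agent.Work.MP_33c50c_an.Cyl2

namespace Pool.Agent.Work.MP_33c50c_an.K3

open MeasureTheory Set Filter Topology

namespace CEn

/-- compactly supported functions vanish far away -/
lemma far (h : Cyl → ℝ) (hs : HasCompactSupport h) : ∃ R : ℝ, ∀ p : Cyl, R < |p.2| → h p = 0 := by
  obtain ⟨R, hR⟩ := (hs.isCompact.image continuous_snd).isBounded.exists_norm_le
  refine ⟨R, fun p hp => ?_⟩
  by_contra hne
  have h1 := hR p.2 ⟨p, subset_tsupport _ hne, rfl⟩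
  rw [Real.norm_eq_abs] at h1
  linarith

/-- integrability in a strip -/
lemma intOn (h : Cyl → ℝ) (hc : Continuous h) (hs : HasCompactSupport h) (a α β : ℝ) :
    IntegrableOn (fun q : ℝ × ℝ => h (pt (a + q.1) q.2)) (Ioc α β ×ˢ univ) := by
  obtain ⟨R, hR⟩ := far h hs
  have h1 : Continuous fun q : ℝ × ℝ => h (pt (a + q.1) q.2) := by
    have : Continuous fun q : ℝ × ℝ => (a + q.1, q.2) := by fun_prop
    exact hc.comp (pt_continuous.comp this)
  have h2 : IntegrableOn (fun q : ℝ × ℝ => h (pt (a + q.1) q.2)) (Icc α β ×ˢ Icc (-R) R) :=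
    h1.continuousOn.integrableOn_compact (isCompact_Icc.prod isCompact_Icc)
  have h3 : IntegrableOn (fun q : ℝ × ℝ => h (pt (a + q.1) q.2)) (Icc α β ×ˢ univ) := by
    refine h2.of_forall_sdiff_eq_zero (measurableSet_Icc.prod MeasurableSet.univ) ?_
    rintro q ⟨⟨q1, -⟩, q2⟩
    apply hR
    by_contra hq
    exact q2 ⟨q1, abs_le.1 (not_lt.1 hq)⟩
  exact h3.mono_set (prod_mono Ioc_subset_Icc_self Subset.rfl)

/-- integral over a strip -/
lemma intStrip (h : Cyl → ℝ) (hc : Continuous h) (hs : HasCompactSupport h) (a α β : ℝ)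
    (hab : α ≤ β) :
    ∫ q in Ioc α β ×ˢ (univ : Set ℝ), h (pt (a + q.1) q.2) =
      ∫ x in α..β, ∫ y, h (pt (a + x) y) := by
  rw [intervalIntegral.integral_of_le hab]
  have h1 := intOn h hc hs a α β
  rw [Measure.volume_eq_prod] at h1 ⊢
  rw [setIntegral_prod _ h1]
  simp only [Measure.restrict_univ]

/-- the cylinder and a strip of width `2π` -/
lemma intCyl (h : Cyl → ℝ) (hc : Continuous h) (hs : HasCompactSupport h) (a : ℝ) :
    ∫ x in (0:ℝ)..(2 * Real.pi), ∫ y, h (pt (a + x) y) = ∫ p, h p := by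
  have hi : Integrable h (volume : Measure Cyl) := hc.integrable_of_hasCompactSupport hs
  rw [Measure.volume_eq_prod] at hi ⊢
  rw [integral_prod h hi]
  have h1 := AddCircle.intervalIntegral_preimage (2 * Real.pi) a (fun θ => ∫ y, h (θ, y))
  have h2 := intervalIntegral.integral_comp_add_left (fun x => ∫ y, h (pt x y)) a
    (a := 0) (b := 2 * Real.pi)
  rw [h2, add_zero]
  exact h1

/-- the derivative of a cut-off function vanishes outside the two windows -/
lemma chi_deriv {χ : ℝ → ℝ} (h : Cut χ) (x : ℝ) : deriv χ x ^ 2 ≤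
    (2 / wd) ^ 2 * ((Ioc 0 (2 * wd)).indicator (fun _ => (1:ℝ)) x +
      (Ioc (2 * Real.pi - 2 * wd) (2 * Real.pi)).indicator (fun _ => (1:ℝ)) x) := by
  obtain ⟨-, h01, hl, hr, hm, hd⟩ := h
  have hwd : 0 < wd := by unfold wd; norm_num
  have hmax : χ x = 1 → deriv χ x = 0 := by
    intro hx
    have : IsLocalMax χ x := Eventually.of_forall fun y => by rw [hx]; exact (h01 y).2
    exact this.deriv_eq_zero
  have hmin : χ x = 0 → deriv χ x = 0 := by
    intro hx
    have : IsLocalMin χ x := Eventually.of_forall fun y => by rw [hx]; exact (h01 y).1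
    exact this.deriv_eq_zero
  have hnn1 : 0 ≤ (Ioc 0 (2 * wd)).indicator (fun _ => (1:ℝ)) x :=
    indicator_nonneg (fun _ _ => zero_le_one) x
  have hnn2 : 0 ≤ (Ioc (2 * Real.pi - 2 * wd) (2 * Real.pi)).indicator (fun _ => (1:ℝ)) x :=
    indicator_nonneg (fun _ _ => zero_le_one) x
  by_cases h1 : deriv χ x = 0
  · rw [h1]
    have : 0 ≤ (2 / wd) ^ 2 * ((Ioc 0 (2 * wd)).indicator (fun _ => (1:ℝ)) x +
      (Ioc (2 * Real.pi - 2 * wd) (2 * Real.pi)).indicator (fun _ => (1:ℝ)) x) := by positivity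
    simpa using this
  have hx1 : wd < x := by
    by_contra hc
    exact h1 (hmin (hl x (not_lt.1 hc)))
  have hx2 : x < 2 * Real.pi - wd := by
    by_contra hc
    exact h1 (hmin (hr x (not_lt.1 hc)))
  have hge : 1 ≤ (Ioc 0 (2 * wd)).indicator (fun _ => (1:ℝ)) x +
      (Ioc (2 * Real.pi - 2 * wd) (2 * Real.pi)).indicator (fun _ => (1:ℝ)) x := by
    by_cases hx3 : x ≤ 2 * wd
    · rw [indicator_of_mem (show x ∈ Ioc 0 (2 * wd) from ⟨by linarith, hx3⟩)]
      linarith
    · have hx4 : 2 * Real.pi - 2 * wd < x := by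
        by_contra hc
        exact h1 (hmax (hm x (not_le.1 hx3).le (not_lt.1 hc)))
      rw [indicator_of_mem (show x ∈ Ioc (2 * Real.pi - 2 * wd) (2 * Real.pi) from
        ⟨hx4, by linarith⟩)]
      linarith
  have h2 : deriv χ x ^ 2 ≤ (2 / wd) ^ 2 := by
    rw [← sq_abs (deriv χ x)]
    have := hd x
    gcongr
  calc deriv χ x ^ 2 ≤ (2 / wd) ^ 2 * 1 := by rw [mul_one]; exact h2
    _ ≤ _ := by gcongr

/-- a cut-off function is supported in `(0, 2π)` -/
lemma chi_sq {χ : ℝ → ℝ} (h : Cut χ) (x : ℝ) :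
    χ x ^ 2 ≤ (Ioc 0 (2 * Real.pi)).indicator (fun _ => (1:ℝ)) x := by
  obtain ⟨-, h01, hl, hr, -, -⟩ := h
  have hwd : 0 < wd := by unfold wd; norm_num
  by_cases hx : x ∈ Ioc 0 (2 * Real.pi)
  · rw [indicator_of_mem hx]
    obtain ⟨h1, h2⟩ := h01 x
    nlinarith
  · rw [indicator_of_notMem hx]
    have : χ x = 0 := by
      rcases le_or_gt x 0 with h1 | h1
      · exact hl x (by linarith)
      · have : 2 * Real.pi < x := by
          by_contra hc
          exact hx ⟨h1, not_lt.1 hc⟩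
        exact hr x (by linarith)
    rw [this]; norm_num

/-- the derivatives of the cut function -/
lemma derivs {χ : ℝ → ℝ} (h : Cut χ) (a : ℝ) (u : Cyl → ℝ) (hu : ContDiff ℝ 1 (lft u))
    (q : ℝ × ℝ) :
    dx (cutl χ a u) q = deriv χ q.1 * u (pt (a + q.1) q.2) + χ q.1 * dX u (pt (a + q.1) q.2) ∧
    dy (cutl χ a u) q = χ q.1 * dY u (pt (a + q.1) q.2) := by
  obtain ⟨hχ, -⟩ := h
  have hU : ContDiff ℝ 1 (cutl χ a u) := by
    have e : cutl χ a u = fun q : ℝ × ℝ => χ q.1 * lft u (a + q.1, q.2) := rfl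
    rw [e]
    have h1 : ContDiff ℝ 1 fun q : ℝ × ℝ => (a + q.1, q.2) := by fun_prop
    exact (hχ.comp contDiff_fst).mul (hu.comp h1)
  have hF : HasFDerivAt (cutl χ a u) (fderiv ℝ (cutl χ a u) q) q :=
    (hU.differentiable one_ne_zero q).hasFDerivAt
  constructor
  · have h2 : HasDerivAt (fun t : ℝ => (t, q.2)) ((1:ℝ), (0:ℝ)) q.1 :=
      (hasDerivAt_id q.1).prodMk (hasDerivAt_const q.1 q.2)
    have h3 : HasDerivAt (fun t : ℝ => cutl χ a u (t, q.2)) (dx (cutl χ a u) q) q.1 :=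
      HasFDerivAt.comp_hasDerivAt (f := fun t : ℝ => (t, q.2)) q.1 hF h2
    have h4 : HasDerivAt χ (deriv χ q.1) q.1 := (hχ.differentiable one_ne_zero q.1).hasDerivAt
    have h5 : HasDerivAt (fun t => u (pt (a + t) q.2)) (dX u (pt (a + q.1) q.2)) q.1 := by
      have := (hasDeriv_x u hu (a + q.1) q.2).comp_const_add a q.1
      exact this
    have h6 := h4.mul h5
    exact h3.unique h6
  · have h2 : HasDerivAt (fun t : ℝ => (q.1, t)) ((0:ℝ), (1:ℝ)) q.2 :=
      (hasDerivAt_const q.2 q.1).prodMk (hasDerivAt_id q.2)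
    have h3 : HasDerivAt (fun t : ℝ => cutl χ a u (q.1, t)) (dy (cutl χ a u) q) q.2 :=
      HasFDerivAt.comp_hasDerivAt (f := fun t : ℝ => (q.1, t)) q.2 hF h2
    have h5 := (hasDeriv_y u hu (a + q.1) q.2).const_mul (χ q.1)
    exact h3.unique h5

end CEn

/-- The energy of the cut functions. -/
theorem prfCEn : S_Ro → S_CEn := by
  intro _ Ω u χ a hu hχ
  have hl := test_lft hu
  have hwd : 0 < wd := by unfold wd; norm_num
  have hpi : 3 < Real.pi := Real.pi_gt_three
  -- the two functions on the cylinder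
  set h1 : Cyl → ℝ := fun p => dX u p ^ 2 + dY u p ^ 2 with hh1
  set h2 : Cyl → ℝ := fun p => u p ^ 2 with hh2
  have c1 : Continuous h1 := ((cont_dX u hl).pow 2).add ((cont_dY u hl).pow 2)
  have c2 : Continuous h2 := (cont_f u hl).pow 2
  have s1 : HasCompactSupport h1 := by
    refine HasCompactSupport.of_support_subset_isCompact hu.2.1 ?_
    intro p hp
    by_contra hc
    apply hp
    have e1 : dX u p = 0 := by
      by_contra h0
      exact hc (dX_ne u p h0)
    have e2 : dY u p = 0 := by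
      by_contra h0
      exact hc (dY_ne u p h0)
    rw [hh1]
    simp only [e1, e2]
    norm_num
  have s2 : HasCompactSupport h2 := by
    refine HasCompactSupport.of_support_subset_isCompact hu.2.1 ?_
    intro p hp
    by_contra hc
    apply hp
    rw [hh2]
    simp only [image_eq_zero_of_notMem_tsupport hc]
    norm_num
  -- the majorant
  set W1 : Set (ℝ × ℝ) := Ioc 0 (2 * Real.pi) ×ˢ univ with hW1
  set W2 : Set (ℝ × ℝ) := Ioc 0 (2 * wd) ×ˢ univ with hW2
  set W3 : Set (ℝ × ℝ) := Ioc (2 * Real.pi - 2 * wd) (2 * Real.pi) ×ˢ univ with hW3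
  set F1 : ℝ × ℝ → ℝ := fun q => h1 (pt (a + q.1) q.2) with hF1
  set F2 : ℝ × ℝ → ℝ := fun q => h2 (pt (a + q.1) q.2) with hF2
  have m1 : MeasurableSet W1 := measurableSet_Ioc.prod MeasurableSet.univ
  have m2 : MeasurableSet W2 := measurableSet_Ioc.prod MeasurableSet.univ
  have m3 : MeasurableSet W3 := measurableSet_Ioc.prod MeasurableSet.univ
  have i1 : Integrable (W1.indicator F1) := (CEn.intOn h1 c1 s1 a _ _).integrable_indicator m1
  have i2 : Integrable (W2.indicator F2) := (CEn.intOn h2 c2 s2 a _ _).integrable_indicator m2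
  have i3 : Integrable (W3.indicator F2) := (CEn.intOn h2 c2 s2 a _ _).integrable_indicator m3
  have v1 : ∫ q, W1.indicator F1 q = energy u := by
    rw [integral_indicator m1]
    exact (CEn.intStrip h1 c1 s1 a _ _ (by linarith)).trans (CEn.intCyl h1 c1 s1 a)
  have v2 : ∫ q, W2.indicator F2 q = ∫ x in (0:ℝ)..(2 * wd), ro u (a + x) := by
    rw [integral_indicator m2]
    exact CEn.intStrip h2 c2 s2 a _ _ (by linarith)
  have v3 : ∫ q, W3.indicator F2 q =
      ∫ x in (2 * Real.pi - 2 * wd)..(2 * Real.pi), ro u (a + x) := by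
    rw [integral_indicator m3]
    exact CEn.intStrip h2 c2 s2 a _ _ (by linarith)
  have key : gE (cutl χ a u) ≤ ∫ q, (1001 / 1000 * W1.indicator F1 q +
      1001 * (2 / wd) ^ 2 * (W2.indicator F2 q + W3.indicator F2 q)) := by
    unfold gE
    refine integral_mono_of_nonneg (Eventually.of_forall fun q => by positivity)
      ((i1.const_mul _).add ((i2.add i3).const_mul _)) (Eventually.of_forall fun q => ?_)
    obtain ⟨d1, d2⟩ := CEn.derivs hχ a u hl q
    have e1 : W1.indicator F1 q = (Ioc 0 (2 * Real.pi)).indicator (fun _ => (1:ℝ)) q.1 * F1 q := by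
      by_cases hq : q.1 ∈ Ioc 0 (2 * Real.pi)
      · rw [indicator_of_mem (show q ∈ W1 from ⟨hq, mem_univ _⟩), indicator_of_mem hq, one_mul]
      · rw [indicator_of_notMem (fun h : q ∈ W1 => hq h.1), indicator_of_notMem hq, zero_mul]
    have e2 : W2.indicator F2 q = (Ioc 0 (2 * wd)).indicator (fun _ => (1:ℝ)) q.1 * F2 q := by
      by_cases hq : q.1 ∈ Ioc 0 (2 * wd)
      · rw [indicator_of_mem (show q ∈ W2 from ⟨hq, mem_univ _⟩), indicator_of_mem hq, one_mul]
      · rw [indicator_of_notMem (fun h : q ∈ W2 => hq h.1), indicator_of_notMem hq, zero_mul]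
    have e3 : W3.indicator F2 q =
        (Ioc (2 * Real.pi - 2 * wd) (2 * Real.pi)).indicator (fun _ => (1:ℝ)) q.1 * F2 q := by
      by_cases hq : q.1 ∈ Ioc (2 * Real.pi - 2 * wd) (2 * Real.pi)
      · rw [indicator_of_mem (show q ∈ W3 from ⟨hq, mem_univ _⟩), indicator_of_mem hq, one_mul]
      · rw [indicator_of_notMem (fun h : q ∈ W3 => hq h.1), indicator_of_notMem hq, zero_mul]
    have hc := CEn.chi_sq hχ q.1
    have hd := CEn.chi_deriv hχ q.1
    have f1 : 0 ≤ F1 q := by simp only [hF1, hh1]; positivity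
    have f2 : 0 ≤ F2 q := by simp only [hF2, hh2]; positivity
    have b1 := mul_le_mul_of_nonneg_right hc f1
    have b2 := mul_le_mul_of_nonneg_right hd f2
    show dx (cutl χ a u) q ^ 2 + dy (cutl χ a u) q ^ 2 ≤ 1001 / 1000 * W1.indicator F1 q +
      1001 * (2 / wd) ^ 2 * (W2.indicator F2 q + W3.indicator F2 q)
    rw [d1, d2, e1, e2, e3]
    have e4 : F1 q = dX u (pt (a + q.1) q.2) ^ 2 + dY u (pt (a + q.1) q.2) ^ 2 := rfl
    have e5 : F2 q = u (pt (a + q.1) q.2) ^ 2 := rfl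
    have b3 : (deriv χ q.1 * u (pt (a + q.1) q.2) + χ q.1 * dX u (pt (a + q.1) q.2)) ^ 2 +
        (χ q.1 * dY u (pt (a + q.1) q.2)) ^ 2 ≤
        1001 * (deriv χ q.1 ^ 2 * F2 q) + 1001 / 1000 * (χ q.1 ^ 2 * F1 q) := by
      rw [e4, e5]
      nlinarith [sq_nonneg (1000 * (deriv χ q.1 * u (pt (a + q.1) q.2)) -
        χ q.1 * dX u (pt (a + q.1) q.2)), sq_nonneg (χ q.1 * dY u (pt (a + q.1) q.2))]
    refine b3.trans ?_
    linarith
  have hval : ∫ q, (1001 / 1000 * W1.indicator F1 q +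
      1001 * (2 / wd) ^ 2 * (W2.indicator F2 q + W3.indicator F2 q)) =
      1001 / 1000 * energy u + 1001 * (2 / wd) ^ 2 * win (ro u) a := by
    have j1 := i1.const_mul (1001 / 1000)
    have j2 := (i2.add i3).const_mul (1001 * (2 / wd) ^ 2)
    have := integral_add j1 j2
    simp only [Pi.add_apply] at this
    rw [this, integral_const_mul, integral_const_mul, integral_add i2 i3, v1, v2, v3]
    rfl
  rw [hval] at key
  exact key

end Pool.Agent.Work.MP_33c50c_an.K3
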