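import Mathlib
import Pool.Agent.Work.MP_33c50c_an.K3.Stmts

namespace Pool.Agent.Work.MP_33c50c_an.K3

open MeasureTheory Set Filter Topology

namespace CMas

/-- a bound for the height of the support -/
lemma bound {u : Cyl → ℝ} (hu : HasCompactSupport u) :
    ∃ R : ℝ, 0 ≤ R ∧ ∀ p : Cyl, R ≤ |p.2| → u p = 0 := by
  have hc : IsCompact (Prod.snd '' tsupport u) := hu.isCompact.image continuous_snd
  obtain ⟨R, hR⟩ := hc.isBounded.exists_norm_le
  refine ⟨max R 0 + 1, by positivity, ?_⟩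
  intro p hp
  by_contra h
  have h1 := hR p.2 ⟨p, subset_tsupport _ h, rfl⟩
  rw [Real.norm_eq_abs] at h1
  have := le_max_left R 0
  linarith

lemma wd_pos : 0 < wd := by unfold wd; norm_num

lemma wd_le : wd ≤ 1 / 2000 := le_rfl

/-- the cut off functions are continuous -/
lemma cont {Ω : Set Cyl} {u : Cyl → ℝ} {χ : ℝ → ℝ} (a : ℝ) (hu : IsTest Ω u) (hχ : Cut χ) :
    Continuous (cutl χ a u) := by
  have hlc : Continuous (lft u) := hu.1.continuous
  have hχc : Continuous χ := hχ.1.continuous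
  have h1 : Continuous fun q : ℝ × ℝ => lft u (a + q.1, q.2) := hlc.comp (by fun_prop)
  exact (hχc.comp continuous_fst).mul h1

/-- the cut off functions have compact support -/
lemma comp {Ω : Set Cyl} {u : Cyl → ℝ} {χ : ℝ → ℝ} (a : ℝ) (hu : IsTest Ω u) (hχ : Cut χ) :
    HasCompactSupport (cutl χ a u) := by
  obtain ⟨R, hR0, hR⟩ := bound hu.2.1
  apply HasCompactSupport.of_support_subset_isCompact
    (isCompact_Icc (a := (0:ℝ)) (b := 2 * Real.pi) |>.prod (isCompact_Icc (a := -R) (b := R)))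
  intro p hp
  have hp' : χ p.1 * u (pt (a + p.1) p.2) ≠ 0 := hp
  have h1 : χ p.1 ≠ 0 := left_ne_zero_of_mul hp'
  have h2 : u (pt (a + p.1) p.2) ≠ 0 := right_ne_zero_of_mul hp'
  have hw := wd_pos
  refine ⟨⟨?_, ?_⟩, ?_⟩
  · by_contra h
    exact h1 (hχ.2.2.1 _ (by linarith [not_le.mp h]))
  · by_contra h
    exact h1 (hχ.2.2.2.1 _ (by linarith [not_le.mp h]))
  · have h3 : ¬ R ≤ |p.2| := fun h => h2 (hR (pt (a + p.1) p.2) h)
    rw [not_le, abs_lt] at h3
    exact ⟨h3.1.le, h3.2.le⟩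


lemma split {f : ℝ → ℝ} (a : ℝ) (hc : Continuous f) :
    ∫ x in (0:ℝ)..(2 * Real.pi), f (a + x) = win f a +
      ∫ x in (2 * wd)..(2 * Real.pi - 2 * wd), f (a + x) := by
  have hi : ∀ b c : ℝ, IntervalIntegrable (fun x => f (a + x)) volume b c := fun b c =>
    (hc.comp (continuous_const.add continuous_id)).intervalIntegrable b c
  have e1 := intervalIntegral.integral_add_adjacent_intervals (hi 0 (2 * wd))
    (hi (2 * wd) (2 * Real.pi - 2 * wd))
  have e2 := intervalIntegral.integral_add_adjacent_intervals (hi 0 (2 * Real.pi - 2 * wd))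
    (hi (2 * Real.pi - 2 * wd) (2 * Real.pi))
  unfold win
  rw [← e2, ← e1]
  ring

lemma int_sq {U : ℝ × ℝ → ℝ} (hc : Continuous U) (hs : HasCompactSupport U) :
    Integrable (fun p => U p ^ 2) (volume : Measure (ℝ × ℝ)) := by
  have h1 : HasCompactSupport (fun p => U p ^ 2) :=
    hs.comp_left (g := fun t : ℝ => t ^ 2) (by simp)
  exact (hc.pow 2).integrable_of_hasCompactSupport h1

lemma gM_fub {U : ℝ × ℝ → ℝ} (hc : Continuous U) (hs : HasCompactSupport U) :
    gM U = ∫ x : ℝ, ∫ y : ℝ, U (x, y) ^ 2 := by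
  have hint := int_sq hc hs
  unfold gM
  rw [Measure.volume_eq_prod] at hint ⊢
  exact integral_prod _ hint

/-- Fubini -/
lemma gM_eq {Ω : Set Cyl} {u : Cyl → ℝ} {χ : ℝ → ℝ} (a : ℝ) (hu : IsTest Ω u) (hχ : Cut χ) :
    gM (cutl χ a u) = ∫ x : ℝ, χ x ^ 2 * ro u (a + x) := by
  rw [gM_fub (cont a hu hχ) (comp a hu hχ)]
  refine integral_congr_ae (Eventually.of_forall fun x => ?_)
  show ∫ y : ℝ, (χ x * u (pt (a + x) y)) ^ 2 = χ x ^ 2 * ∫ y, u (pt (a + x) y) ^ 2
  rw [← integral_const_mul]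
  refine integral_congr_ae (Eventually.of_forall fun y => ?_)
  show (χ x * u (pt (a + x) y)) ^ 2 = χ x ^ 2 * u (pt (a + x) y) ^ 2
  exact mul_pow _ _ _

lemma ge {f χ : ℝ → ℝ} (a : ℝ) (hf : Continuous f) (h0 : ∀ x, 0 ≤ f x) (hχ : Cut χ) :
    ∫ x in (2 * wd)..(2 * Real.pi - 2 * wd), f (a + x) ≤
      ∫ x : ℝ, χ x ^ 2 * f (a + x) := by
  have hw := wd_pos
  have hw2 := wd_le
  have hpi := Real.pi_gt_three
  have hχc : Continuous χ := hχ.1.continuous
  have hg0 : ∀ x, 0 ≤ χ x ^ 2 * f (a + x) := fun x => mul_nonneg (sq_nonneg _) (h0 _)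
  have hgc : Continuous fun x => χ x ^ 2 * f (a + x) :=
    (hχc.pow 2).mul (hf.comp (continuous_const.add continuous_id))
  have hgs : HasCompactSupport fun x => χ x ^ 2 * f (a + x) := by
    apply HasCompactSupport.of_support_subset_isCompact (isCompact_Icc (a := (0:ℝ))
      (b := 2 * Real.pi))
    intro x hx
    have hx' : χ x ^ 2 * f (a + x) ≠ 0 := hx
    have h4 : χ x ≠ 0 := fun h => hx' (by rw [h]; simp)
    constructor
    · by_contra h
      exact h4 (hχ.2.2.1 _ (by linarith [not_le.mp h]))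
    · by_contra h
      exact h4 (hχ.2.2.2.1 _ (by linarith [not_le.mp h]))
  have hgi := hgc.integrable_of_hasCompactSupport hgs (μ := volume)
  rw [intervalIntegral.integral_of_le (by linarith)]
  have h6 : ∫ x in Ioc (2 * wd) (2 * Real.pi - 2 * wd), f (a + x) =
      ∫ x in Ioc (2 * wd) (2 * Real.pi - 2 * wd), χ x ^ 2 * f (a + x) := by
    apply setIntegral_congr_fun measurableSet_Ioc
    intro x hx
    show f (a + x) = χ x ^ 2 * f (a + x)
    rw [hχ.2.2.2.2.1 x hx.1.le hx.2]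
    ring
  rw [h6]
  exact setIntegral_le_integral hgi (Eventually.of_forall hg0)

end CMas

theorem prfCMas : S_Ro → S_CMas := by
  intro hRo Ω u χ a hu hχ
  obtain ⟨hc, h0, hper, hmass⟩ := hRo Ω u hu
  have h1 : ∫ x in (0:ℝ)..(2 * Real.pi), ro u (a + x) = mass u := by
    rw [← hmass, ← integral_shift_period (ro u) hper a]
    simp_rw [add_comm]
  have h2 := CMas.split a hc
  have h3 := CMas.gM_eq a hu hχ
  have h4 := CMas.ge a hc h0 hχ
  rw [← h3] at h4
  rw [h1] at h2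
  rw [h2]
  linarith

end Pool.Agent.Work.MP_33c50c_an.K3
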