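import Mathlib
import Pool.Agent.Work.MP_33c50c_an.K3.Stmts

namespace Pool.Agent.Work.MP_33c50c_an.K3

open MeasureTheory Set Filter Topology

namespace CTst

/-- the closed set containing the support. -/
noncomputable def box (u : Cyl → ℝ) (a : ℝ) : Set (ℝ × ℝ) :=
  {q | wd ≤ q.1 ∧ q.1 ≤ 2 * Real.pi - wd ∧ pt (a + q.1) q.2 ∈ tsupport u}

lemma box_closed (u : Cyl → ℝ) (a : ℝ) : IsClosed (box u a) := by
  have h1 : IsClosed {q : ℝ × ℝ | wd ≤ q.1} := isClosed_le continuous_const continuous_fst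
  have h2 : IsClosed {q : ℝ × ℝ | q.1 ≤ 2 * Real.pi - wd} :=
    isClosed_le continuous_fst continuous_const
  have h3 : IsClosed {q : ℝ × ℝ | pt (a + q.1) q.2 ∈ tsupport u} := by
    have hc : Continuous (fun q : ℝ × ℝ => pt (a + q.1) q.2) :=
      pt_continuous.comp ((continuous_const.add continuous_fst).prodMk continuous_snd)
    exact (isClosed_tsupport u).preimage hc
  have : box u a = {q : ℝ × ℝ | wd ≤ q.1} ∩ {q : ℝ × ℝ | q.1 ≤ 2 * Real.pi - wd} ∩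
      {q : ℝ × ℝ | pt (a + q.1) q.2 ∈ tsupport u} := by
    ext q; simp [box, and_assoc]
  rw [this]
  exact (h1.inter h2).inter h3

lemma box_compact (u : Cyl → ℝ) (a : ℝ) (hu : HasCompactSupport u) : IsCompact (box u a) := by
  have hc : IsCompact (Prod.snd '' tsupport u) := hu.isCompact.image continuous_snd
  refine IsCompact.of_isClosed_subset ((isCompact_Icc (a := wd) (b := 2 * Real.pi - wd)).prod hc)
    (box_closed u a) ?_
  rintro ⟨x, y⟩ ⟨h1, h2, h3⟩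
  exact ⟨⟨h1, h2⟩, ⟨pt (a + x) y, h3, rfl⟩⟩

lemma supp (u : Cyl → ℝ) (χ : ℝ → ℝ) (a : ℝ) (hχ : Cut χ) :
    tsupport (cutl χ a u) ⊆ box u a := by
  refine closure_minimal ?_ (box_closed u a)
  intro q hq
  have hne : χ q.1 * u (pt (a + q.1) q.2) ≠ 0 := hq
  have h1 : χ q.1 ≠ 0 := left_ne_zero_of_mul hne
  have h2 : u (pt (a + q.1) q.2) ≠ 0 := right_ne_zero_of_mul hne
  refine ⟨?_, ?_, subset_tsupport _ h2⟩
  · by_contra h; exact h1 (hχ.2.2.1 _ (not_le.mp h).le)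
  · by_contra h; exact h1 (hχ.2.2.2.1 _ (not_le.mp h).le)

lemma smooth (Ω : Set Cyl) (u : Cyl → ℝ) (χ : ℝ → ℝ) (a : ℝ) (hu : IsTest Ω u) (hχ : Cut χ) :
    ContDiff ℝ 1 (cutl χ a u) := by
  have h1 : ContDiff ℝ 1 (fun q : ℝ × ℝ => u (pt q.1 q.2)) := hu.1.of_le (by exact_mod_cast le_top)
  have h2 : ContDiff ℝ 1 (fun q : ℝ × ℝ => ((a + q.1, q.2) : ℝ × ℝ)) :=
    (contDiff_const.add contDiff_fst).prodMk contDiff_snd
  have h3 : ContDiff ℝ 1 (fun q : ℝ × ℝ => u (pt (a + q.1) q.2)) := h1.comp h2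
  exact (hχ.1.comp contDiff_fst).mul h3

end CTst

theorem prfCTst : S_CTst := by
  intro Ω u χ a _ hu hχ
  refine ⟨⟨CTst.smooth Ω u χ a hu hχ, ?_⟩, ?_⟩
  · exact IsCompact.of_isClosed_subset (CTst.box_compact u a hu.2.1) (isClosed_tsupport _)
      (CTst.supp u χ a hχ)
  · intro q hq
    obtain ⟨h1, h2, h3⟩ := CTst.supp u χ a hχ hq
    have hw : (0:ℝ) < wd := by unfold wd; norm_num
    exact ⟨by linarith, by linarith, hu.2.2 h3⟩

end Pool.Agent.Work.MP_33c50c_an.K3
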