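import Pool.Agent.Work.MP_33c50c_an.K3.Stmts

set_option autoImplicit false

/-! Item CVol: the area of the cut domain. -/

namespace Pool.Agent.Work.MP_33c50c_an.K3

open MeasureTheory Set Filter Topology

namespace CVol

lemma cont_pt (a : ℝ) : Continuous (fun q : ℝ × ℝ => pt (a + q.1) q.2) := by
  unfold pt
  exact ((AddCircle.continuous_mk' _).comp (continuous_const.add continuous_fst)).prodMk
    continuous_snd

lemma mp_one (a : ℝ) : MeasurePreserving (fun x : ℝ => ((a + x : ℝ) : AddCircle (2 * Real.pi)))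
    (volume.restrict (Ioc 0 (2 * Real.pi))) volume := by
  have : Fact (0 < 2 * Real.pi) := ⟨by positivity⟩
  have h1 := AddCircle.measurePreserving_mk (2 * Real.pi) a
  have h2 := (measurePreserving_add_left (volume : Measure ℝ) a).restrict_preimage
    (measurableSet_Ioc (a := a) (b := a + 2 * Real.pi))
  have h3 : (fun x : ℝ => a + x) ⁻¹' (Ioc a (a + 2 * Real.pi)) = Ioc 0 (2 * Real.pi) := by
    ext x
    simp
  rw [h3] at h2
  exact h1.comp h2

end CVol

open CVol in
theorem prfCVol : S_CVol := by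
  intro Ω a hΩ
  have hc := cont_pt a
  constructor
  · have e : cutS a Ω = {q : ℝ × ℝ | 0 < q.1} ∩ ({q : ℝ × ℝ | q.1 < 2 * Real.pi} ∩
        (fun q : ℝ × ℝ => pt (a + q.1) q.2) ⁻¹' Ω) := rfl
    rw [e]
    exact (isOpen_lt continuous_const continuous_fst).inter
      ((isOpen_lt continuous_fst continuous_const).inter (hΩ.preimage hc))
  · have h1 := (mp_one a).prod (MeasurePreserving.id (volume : Measure ℝ))
    have h2 : (Prod.map (fun x : ℝ => ((a + x : ℝ) : AddCircle (2 * Real.pi))) id :
        ℝ × ℝ → Cyl) = fun q => pt (a + q.1) q.2 := rfl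
    have h3 : ((volume.restrict (Ioc 0 (2 * Real.pi))).prod (volume : Measure ℝ)) =
        (volume : Measure (ℝ × ℝ)).restrict (Ioc 0 (2 * Real.pi) ×ˢ univ) := by
      rw [Measure.volume_eq_prod, ← Measure.prod_restrict, Measure.restrict_univ]
    rw [h2, h3, ← Measure.volume_eq_prod] at h1
    have hm : MeasurableSet ((fun q : ℝ × ℝ => pt (a + q.1) q.2) ⁻¹' Ω) :=
      (hΩ.preimage hc).measurableSet
    have h4 := h1.measure_preimage hΩ.measurableSet.nullMeasurableSet
    rw [Measure.restrict_apply hm] at h4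
    rw [← h4]
    refine measure_mono ?_
    rintro q ⟨hq1, hq2, hq3⟩
    exact ⟨hq3, ⟨hq1, hq2.le⟩, mem_univ _⟩

end Pool.Agent.Work.MP_33c50c_an.K3
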