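import Mathlib
import Pool.Agent.Work.MP_33c50c_an.K3.Defs

namespace Pool.Agent.Work.MP_33c50c_an.K3.Num

open Pool.Agent.Work.MP_33c50c_an.K3

lemma upL (b bj z w C r : ℝ) (hb : 0 < b) (hbj : b < bj) (h : w - z ≤ r * (bj - b))
    (hact : (z - C) / b ≤ (w - C) / bj) : z - C ≤ r * b := by
  have hbj0 : 0 < bj := hb.trans hbj
  set X := (z - C) / b with hX
  have h1 : z - C = X * b := by rw [hX]; field_simp
  have h2 : X * bj ≤ w - C := by rwa [le_div_iff₀ hbj0] at hact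
  have h3 : X * (bj - b) ≤ r * (bj - b) := by nlinarith
  have h4 : X ≤ r := le_of_mul_le_mul_right h3 (by linarith)
  rw [h1]; exact mul_le_mul_of_nonneg_right h4 hb.le

lemma loA (b B A z C r : ℝ) (hb : 0 < b) (hbj : b < B) (h : z - A ≤ r * (B - b))
    (hact : (A - C) / B ≤ (z - C) / b) : -(z - C) ≤ r * b := by
  have hbj0 : 0 < B := hb.trans hbj
  set X := (z - C) / b with hX
  have h1 : z - C = X * b := by rw [hX]; field_simp
  have h2 : A - C ≤ X * B := by rwa [div_le_iff₀ hbj0] at hact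
  have h3 : -r * (B - b) ≤ X * (B - b) := by nlinarith
  have h4 : -r ≤ X := le_of_mul_le_mul_right h3 (by linarith)
  rw [h1]; nlinarith

lemma loC (b bj z w C r : ℝ) (hb : 0 < bj) (hbj : bj < b) (h : -(z - w) ≤ r * (b - bj))
    (hact : (z - C) / b ≤ (w - C) / bj) : -(z - C) ≤ r * b := by
  have hb0 : 0 < b := hb.trans hbj
  set X := (z - C) / b with hX
  have h1 : z - C = X * b := by rw [hX]; field_simp
  have h2 : X * bj ≤ w - C := by rwa [le_div_iff₀ hb] at hact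
  have h3 : -r * (b - bj) ≤ X * (b - bj) := by nlinarith
  have h4 : -r ≤ X := le_of_mul_le_mul_right h3 (by linarith)
  rw [h1]; nlinarith

lemma aff (x y t K : ℝ) (h0 : 0 ≤ t) (h1 : t ≤ 1) (hx : x ≤ K) (hy : y ≤ K) :
    x + t * (y - x) ≤ K := by nlinarith

lemma bv0 : bv 0 = 1 / 2 := by show 4 * (1 / 2 : ℝ) ^ 3 = _; norm_num
lemma bv1 : bv 1 = 733001728 / 1000000000 := by show 4 * (568 / 1000 : ℝ) ^ 3 = _; norm_num
lemma bv2 : bv 2 = 1372 / 1000 := by show 4 * (7 / 10 : ℝ) ^ 3 = _; norm_num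
lemma bv3 : bv 3 = 2597847584 / 1000000000 := by show 4 * (866 / 1000 : ℝ) ^ 3 = _; norm_num
lemma pv0 : pv 0 = 1 := by show 3 * (1 / 2 : ℝ) - 4 * (1 / 2 : ℝ) ^ 3 = _; norm_num
lemma pv1 : pv 1 = 970998272 / 1000000000 := by
  show 3 * (568 / 1000 : ℝ) - 4 * (568 / 1000 : ℝ) ^ 3 = _; norm_num
lemma pv2 : pv 2 = 728 / 1000 := by show 3 * (7 / 10 : ℝ) - 4 * (7 / 10 : ℝ) ^ 3 = _; norm_num
lemma pv3 : pv 3 = 152416 / 1000000000 := by
  show 3 * (866 / 1000 : ℝ) - 4 * (866 / 1000 : ℝ) ^ 3 = _; norm_num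
lemma A0v : A0 = 730847584 / 1000000000 := by rw [A0, bv3]; norm_num [AB, Th]


/-- one line, all conditions at the two ends -/
lemma line_of (b B bu x y xu yu r : ℝ) (hb : 0 < b) (hbB : b < B) (hbu : b < bu)
    (hu1 : xu - x ≤ r * (bu - b)) (hu2 : yu - y ≤ r * (bu - b))
    (hlo : (x - A0 ≤ r * (B - b) ∧ y - A0 ≤ r * (B - b)) ∨ (Th - x ≤ r * b ∧ Th - y ≤ r * b))
    (t C : ℝ) (h0 : 0 ≤ t) (h1 : t ≤ 1) (hC : C ≤ Th)
    (hA : (A0 - C) / B ≤ (x + t * (y - x) - C) / b)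
    (hU : (x + t * (y - x) - C) / b ≤ (xu + t * (yu - xu) - C) / bu) :
    |x + t * (y - x) - C| ≤ r * b := by
  rw [abs_le]
  constructor
  · rcases hlo with ⟨h2, h3⟩ | ⟨h2, h3⟩
    · have := loA b B A0 _ C r hb hbB (by nlinarith) hA
      linarith
    · nlinarith
  · exact upL b bu _ _ C r hb hbu (by nlinarith) hU

/-- one line, with the lower witness given by another line -/
lemma line_of' (b bl bu x y xl yl xu yu r : ℝ) (hbl : 0 < bl) (hlb : bl < b) (hbu : b < bu)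
    (hu1 : xu - x ≤ r * (bu - b)) (hu2 : yu - y ≤ r * (bu - b))
    (hl1 : -(x - xl) ≤ r * (b - bl)) (hl2 : -(y - yl) ≤ r * (b - bl))
    (t C : ℝ) (h0 : 0 ≤ t) (h1 : t ≤ 1)
    (hL : (x + t * (y - x) - C) / b ≤ (xl + t * (yl - xl) - C) / bl)
    (hU : (x + t * (y - x) - C) / b ≤ (xu + t * (yu - xu) - C) / bu) :
    |x + t * (y - x) - C| ≤ r * b := by
  rw [abs_le]
  constructor
  · have := loC b bl _ _ C r hbl hlb (by nlinarith) hL
    linarith
  · exact upL b bu _ _ C r (hbl.trans hlb) hbu (by nlinarith) hU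

lemma slab_of (x y : Fin 4 → ℝ) (x0 x1 x2 y0 y1 y2 r0 r1 r2 : ℝ)
    (hx0 : x 0 = x0) (hx1 : x 1 = x1) (hx2 : x 2 = x2) (hx3 : x 3 = Th)
    (hy0 : y 0 = y0) (hy1 : y 1 = y1) (hy2 : y 2 = y2) (hy3 : y 3 = Th)
    (hr : (0 ≤ r0 ∧ r0 ≤ 1) ∧ (0 ≤ r1 ∧ r1 ≤ 1) ∧ (0 ≤ r2 ∧ r2 ≤ 1))
    (hyx : y0 ≤ x0 ∧ y1 ≤ x1 ∧ y2 ≤ x2)
    (hsq : (x0 - y0) ^ 2 ≤ (885 / 10000) ^ 2 * (1 - r0 ^ 2) ∧
      (x1 - y1) ^ 2 ≤ (885 / 10000 * (970998272 / 1000000000)) ^ 2 * (1 - r1 ^ 2) ∧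
      (x2 - y2) ^ 2 ≤ (885 / 10000 * (728 / 1000)) ^ 2 * (1 - r2 ^ 2))
    (h0 : x1 - x0 ≤ r0 * (733001728 / 1000000000 - 1 / 2) ∧
      y1 - y0 ≤ r0 * (733001728 / 1000000000 - 1 / 2) ∧
      ((x0 - 730847584 / 1000000000 ≤ r0 * (2597847584 / 1000000000 - 1 / 2) ∧
        y0 - 730847584 / 1000000000 ≤ r0 * (2597847584 / 1000000000 - 1 / 2)) ∨
       (238 / 100 - x0 ≤ r0 * (1 / 2) ∧ 238 / 100 - y0 ≤ r0 * (1 / 2))))
    (h1 : x2 - x1 ≤ r1 * (1372 / 1000 - 733001728 / 1000000000) ∧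
      y2 - y1 ≤ r1 * (1372 / 1000 - 733001728 / 1000000000) ∧
      ((x1 - 730847584 / 1000000000 ≤ r1 * (2597847584 / 1000000000 - 733001728 / 1000000000) ∧
        y1 - 730847584 / 1000000000 ≤ r1 * (2597847584 / 1000000000 - 733001728 / 1000000000)) ∨
       (-(x1 - x0) ≤ r1 * (733001728 / 1000000000 - 1 / 2) ∧
        -(y1 - y0) ≤ r1 * (733001728 / 1000000000 - 1 / 2))))
    (h2 : 238 / 100 - x2 ≤ r2 * (2597847584 / 1000000000 - 1372 / 1000) ∧
      238 / 100 - y2 ≤ r2 * (2597847584 / 1000000000 - 1372 / 1000) ∧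
      238 / 100 - x2 ≤ r2 * (1372 / 1000) ∧ 238 / 100 - y2 ≤ r2 * (1372 / 1000)) :
    SlabOK x y := by
  have hTh : Th = 238 / 100 := rfl
  have hhh : hh = 885 / 10000 := rfl
  refine ⟨hx3, hy3, ![r0, r1, r2, 1], ?_⟩
  intro i
  fin_cases i
  · refine ⟨hr.1.1, hr.1.2, ?_, ?_, ?_⟩
    · show y 0 ≤ x 0
      rw [hx0, hy0]; exact hyx.1
    · show (x 0 - y 0) ^ 2 ≤ (hh * pv 0) ^ 2 * (1 - r0 ^ 2)
      rw [hx0, hy0, pv0, hhh]; simpa using hsq.1
    · intro t C ht0 ht1 hC0 hCT hA hj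
      have hU := hj 1
      show |x 0 + t * (y 0 - x 0) - C| ≤ r0 * bv 0
      change (x 0 + t * (y 0 - x 0) - C) / bv 0 ≤ (x 1 + t * (y 1 - x 1) - C) / bv 1 at hU
      change (A0 - C) / bv 3 ≤ (x 0 + t * (y 0 - x 0) - C) / bv 0 at hA
      refine line_of (bv 0) (bv 3) (bv 1) (x 0) (y 0) (x 1) (y 1) r0 (by rw [bv0]; norm_num)
        (by rw [bv0, bv3]; norm_num) (by rw [bv0, bv1]; norm_num) ?_ ?_ ?_ t C ht0 ht1 hCT hA hU
      · rw [bv0, bv1, hx0, hx1]; exact h0.1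
      · rw [bv0, bv1, hy0, hy1]; exact h0.2.1
      · rw [bv0, bv3, hx0, hy0, A0v, hTh]; exact h0.2.2
  · refine ⟨hr.2.1.1, hr.2.1.2, ?_, ?_, ?_⟩
    · show y 1 ≤ x 1
      rw [hx1, hy1]; exact hyx.2.1
    · show (x 1 - y 1) ^ 2 ≤ (hh * pv 1) ^ 2 * (1 - r1 ^ 2)
      rw [hx1, hy1, pv1, hhh]; exact hsq.2.1
    · intro t C ht0 ht1 hC0 hCT hA hj
      have hU := hj 2
      have hL := hj 0
      show |x 1 + t * (y 1 - x 1) - C| ≤ r1 * bv 1
      change (x 1 + t * (y 1 - x 1) - C) / bv 1 ≤ (x 2 + t * (y 2 - x 2) - C) / bv 2 at hU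
      change (x 1 + t * (y 1 - x 1) - C) / bv 1 ≤ (x 0 + t * (y 0 - x 0) - C) / bv 0 at hL
      change (A0 - C) / bv 3 ≤ (x 1 + t * (y 1 - x 1) - C) / bv 1 at hA
      rcases h1.2.2 with hA1 | hC1
      · refine line_of (bv 1) (bv 3) (bv 2) (x 1) (y 1) (x 2) (y 2) r1 (by rw [bv1]; norm_num)
          (by rw [bv1, bv3]; norm_num) (by rw [bv1, bv2]; norm_num) ?_ ?_ ?_ t C ht0 ht1 hCT hA hU
        · rw [bv1, bv2, hx1, hx2]; exact h1.1
        · rw [bv1, bv2, hy1, hy2]; exact h1.2.1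
        · left; rw [bv1, bv3, hx1, hy1, A0v]; exact hA1
      · refine line_of' (bv 1) (bv 0) (bv 2) (x 1) (y 1) (x 0) (y 0) (x 2) (y 2) r1
          (by rw [bv0]; norm_num) (by rw [bv0, bv1]; norm_num) (by rw [bv1, bv2]; norm_num)
          ?_ ?_ ?_ ?_ t C ht0 ht1 hL hU
        · rw [bv1, bv2, hx1, hx2]; exact h1.1
        · rw [bv1, bv2, hy1, hy2]; exact h1.2.1
        · rw [bv1, bv0, hx1, hx0]; exact hC1.1
        · rw [bv1, bv0, hy1, hy0]; exact hC1.2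
  · refine ⟨hr.2.2.1, hr.2.2.2, ?_, ?_, ?_⟩
    · show y 2 ≤ x 2
      rw [hx2, hy2]; exact hyx.2.2
    · show (x 2 - y 2) ^ 2 ≤ (hh * pv 2) ^ 2 * (1 - r2 ^ 2)
      rw [hx2, hy2, pv2, hhh]; exact hsq.2.2
    · intro t C ht0 ht1 hC0 hCT hA hj
      have hU := hj 3
      show |x 2 + t * (y 2 - x 2) - C| ≤ r2 * bv 2
      change (x 2 + t * (y 2 - x 2) - C) / bv 2 ≤ (x 3 + t * (y 3 - x 3) - C) / bv 3 at hU
      change (A0 - C) / bv 3 ≤ (x 2 + t * (y 2 - x 2) - C) / bv 2 at hA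
      refine line_of (bv 2) (bv 3) (bv 3) (x 2) (y 2) (x 3) (y 3) r2 (by rw [bv2]; norm_num)
        (by rw [bv2, bv3]; norm_num) (by rw [bv2, bv3]; norm_num) ?_ ?_ ?_ t C ht0 ht1 hCT hA hU
      · rw [bv2, bv3, hx3, hx2, hTh]; exact h2.1
      · rw [bv2, bv3, hy3, hy2, hTh]; exact h2.2.1
      · right; rw [bv2, hx2, hy2, hTh]; exact h2.2.2
  · refine ⟨zero_le_one, le_refl _, ?_, ?_, ?_⟩
    · show y 3 ≤ x 3
      rw [hx3, hy3]
    · show (x 3 - y 3) ^ 2 ≤ (hh * pv 3) ^ 2 * (1 - 1 ^ 2)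
      rw [hx3, hy3]; norm_num
    · intro t C ht0 ht1 hC0 hCT hA hj
      show |x 3 + t * (y 3 - x 3) - C| ≤ 1 * bv 3
      rw [hx3, hy3, bv3, abs_le]
      rw [hTh] at hCT ⊢
      constructor <;> linarith


theorem s0 : SlabOK (tab 0) (tab 1) := by
  refine slab_of _ _ (23870 / 10000) (24059 / 10000) (23850 / 10000) (22997 / 10000) (23200 / 10000) (23207 / 10000) (1606 / 10000) (11 / 10000) (484 / 10000)
    (by show ((23870 : ℕ) : ℝ) / 10000 = _; norm_num) (by show ((24059 : ℕ) : ℝ) / 10000 = _; norm_num)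
    (by show ((23850 : ℕ) : ℝ) / 10000 = _; norm_num) (by show ((23800 : ℕ) : ℝ) / 10000 = _; norm_num [Th])
    (by show ((22997 : ℕ) : ℝ) / 10000 = _; norm_num) (by show ((23200 : ℕ) : ℝ) / 10000 = _; norm_num)
    (by show ((23207 : ℕ) : ℝ) / 10000 = _; norm_num) (by show ((23800 : ℕ) : ℝ) / 10000 = _; norm_num [Th])
    ?_ ?_ ?_ ?_ ?_ ?_ <;> norm_num

theorem s1 : SlabOK (tab 1) (tab 2) := by
  refine slab_of _ _ (22997 / 10000) (23200 / 10000) (23207 / 10000) (22161 / 10000) (22342 / 10000) (22566 / 10000) (3278 / 10000) (351 / 10000) (1007 / 10000)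
    (by show ((22997 : ℕ) : ℝ) / 10000 = _; norm_num) (by show ((23200 : ℕ) : ℝ) / 10000 = _; norm_num)
    (by show ((23207 : ℕ) : ℝ) / 10000 = _; norm_num) (by show ((23800 : ℕ) : ℝ) / 10000 = _; norm_num [Th])
    (by show ((22161 : ℕ) : ℝ) / 10000 = _; norm_num) (by show ((22342 : ℕ) : ℝ) / 10000 = _; norm_num)
    (by show ((22566 : ℕ) : ℝ) / 10000 = _; norm_num) (by show ((23800 : ℕ) : ℝ) / 10000 = _; norm_num [Th])
    ?_ ?_ ?_ ?_ ?_ ?_ <;> norm_num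

theorem s2 : SlabOK (tab 2) (tab 3) := by
  refine slab_of _ _ (22161 / 10000) (22342 / 10000) (22566 / 10000) (21386 / 10000) (21485 / 10000) (21930 / 10000) (4828 / 10000) (697 / 10000) (1526 / 10000)
    (by show ((22161 : ℕ) : ℝ) / 10000 = _; norm_num) (by show ((22342 : ℕ) : ℝ) / 10000 = _; norm_num)
    (by show ((22566 : ℕ) : ℝ) / 10000 = _; norm_num) (by show ((23800 : ℕ) : ℝ) / 10000 = _; norm_num [Th])
    (by show ((21386 : ℕ) : ℝ) / 10000 = _; norm_num) (by show ((21485 : ℕ) : ℝ) / 10000 = _; norm_num)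
    (by show ((21930 : ℕ) : ℝ) / 10000 = _; norm_num) (by show ((23800 : ℕ) : ℝ) / 10000 = _; norm_num [Th])
    ?_ ?_ ?_ ?_ ?_ ?_ <;> norm_num

theorem s3 : SlabOK (tab 3) (tab 4) := by
  refine slab_of _ _ (21386 / 10000) (21485 / 10000) (21930 / 10000) (20693 / 10000) (20631 / 10000) (21300 / 10000) (6214 / 10000) (1047 / 10000) (2040 / 10000)
    (by show ((21386 : ℕ) : ℝ) / 10000 = _; norm_num) (by show ((21485 : ℕ) : ℝ) / 10000 = _; norm_num)
    (by show ((21930 : ℕ) : ℝ) / 10000 = _; norm_num) (by show ((23800 : ℕ) : ℝ) / 10000 = _; norm_num [Th])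
    (by show ((20693 : ℕ) : ℝ) / 10000 = _; norm_num) (by show ((20631 : ℕ) : ℝ) / 10000 = _; norm_num)
    (by show ((21300 : ℕ) : ℝ) / 10000 = _; norm_num) (by show ((23800 : ℕ) : ℝ) / 10000 = _; norm_num [Th])
    ?_ ?_ ?_ ?_ ?_ ?_ <;> norm_num

theorem s4 : SlabOK (tab 4) (tab 5) := by
  refine slab_of _ _ (20693 / 10000) (20631 / 10000) (21300 / 10000) (20012 / 10000) (19781 / 10000) (20677 / 10000) (6381 / 10000) (1403 / 10000) (2548 / 10000)
    (by show ((20693 : ℕ) : ℝ) / 10000 = _; norm_num) (by show ((20631 : ℕ) : ℝ) / 10000 = _; norm_num)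
    (by show ((21300 : ℕ) : ℝ) / 10000 = _; norm_num) (by show ((23800 : ℕ) : ℝ) / 10000 = _; norm_num [Th])
    (by show ((20012 : ℕ) : ℝ) / 10000 = _; norm_num) (by show ((19781 : ℕ) : ℝ) / 10000 = _; norm_num)
    (by show ((20677 : ℕ) : ℝ) / 10000 = _; norm_num) (by show ((23800 : ℕ) : ℝ) / 10000 = _; norm_num [Th])
    ?_ ?_ ?_ ?_ ?_ ?_ <;> norm_num

theorem s5 : SlabOK (tab 5) (tab 6) := by
  refine slab_of _ _ (20012 / 10000) (19781 / 10000) (20677 / 10000) (19308 / 10000) (18936 / 10000) (20064 / 10000) (6056 / 10000) (1766 / 10000) (3048 / 10000)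
    (by show ((20012 : ℕ) : ℝ) / 10000 = _; norm_num) (by show ((19781 : ℕ) : ℝ) / 10000 = _; norm_num)
    (by show ((20677 : ℕ) : ℝ) / 10000 = _; norm_num) (by show ((23800 : ℕ) : ℝ) / 10000 = _; norm_num [Th])
    (by show ((19308 : ℕ) : ℝ) / 10000 = _; norm_num) (by show ((18936 : ℕ) : ℝ) / 10000 = _; norm_num)
    (by show ((20064 : ℕ) : ℝ) / 10000 = _; norm_num) (by show ((23800 : ℕ) : ℝ) / 10000 = _; norm_num [Th])
    ?_ ?_ ?_ ?_ ?_ ?_ <;> norm_num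

theorem s6 : SlabOK (tab 6) (tab 7) := by
  refine slab_of _ _ (19308 / 10000) (18936 / 10000) (20064 / 10000) (18583 / 10000) (18097 / 10000) (19462 / 10000) (5720 / 10000) (2137 / 10000) (3539 / 10000)
    (by show ((19308 : ℕ) : ℝ) / 10000 = _; norm_num) (by show ((18936 : ℕ) : ℝ) / 10000 = _; norm_num)
    (by show ((20064 : ℕ) : ℝ) / 10000 = _; norm_num) (by show ((23800 : ℕ) : ℝ) / 10000 = _; norm_num [Th])
    (by show ((18583 : ℕ) : ℝ) / 10000 = _; norm_num) (by show ((18097 : ℕ) : ℝ) / 10000 = _; norm_num)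
    (by show ((19462 : ℕ) : ℝ) / 10000 = _; norm_num) (by show ((23800 : ℕ) : ℝ) / 10000 = _; norm_num [Th])
    ?_ ?_ ?_ ?_ ?_ ?_ <;> norm_num

theorem s7 : SlabOK (tab 7) (tab 8) := by
  refine slab_of _ _ (18583 / 10000) (18097 / 10000) (19462 / 10000) (17837 / 10000) (17266 / 10000) (18873 / 10000) (5375 / 10000) (2515 / 10000) (4020 / 10000)
    (by show ((18583 : ℕ) : ℝ) / 10000 = _; norm_num) (by show ((18097 : ℕ) : ℝ) / 10000 = _; norm_num)
    (by show ((19462 : ℕ) : ℝ) / 10000 = _; norm_num) (by show ((23800 : ℕ) : ℝ) / 10000 = _; norm_num [Th])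
    (by show ((17837 : ℕ) : ℝ) / 10000 = _; norm_num) (by show ((17266 : ℕ) : ℝ) / 10000 = _; norm_num)
    (by show ((18873 : ℕ) : ℝ) / 10000 = _; norm_num) (by show ((23800 : ℕ) : ℝ) / 10000 = _; norm_num [Th])
    ?_ ?_ ?_ ?_ ?_ ?_ <;> norm_num

theorem s8 : SlabOK (tab 8) (tab 9) := by
  refine slab_of _ _ (17837 / 10000) (17266 / 10000) (18873 / 10000) (17072 / 10000) (16444 / 10000) (18298 / 10000) (5019 / 10000) (2902 / 10000) (4489 / 10000)
    (by show ((17837 : ℕ) : ℝ) / 10000 = _; norm_num) (by show ((17266 : ℕ) : ℝ) / 10000 = _; norm_num)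
    (by show ((18873 : ℕ) : ℝ) / 10000 = _; norm_num) (by show ((23800 : ℕ) : ℝ) / 10000 = _; norm_num [Th])
    (by show ((17072 : ℕ) : ℝ) / 10000 = _; norm_num) (by show ((16444 : ℕ) : ℝ) / 10000 = _; norm_num)
    (by show ((18298 : ℕ) : ℝ) / 10000 = _; norm_num) (by show ((23800 : ℕ) : ℝ) / 10000 = _; norm_num [Th])
    ?_ ?_ ?_ ?_ ?_ ?_ <;> norm_num

theorem s9 : SlabOK (tab 9) (tab 10) := by
  refine slab_of _ _ (17072 / 10000) (16444 / 10000) (18298 / 10000) (16289 / 10000) (15633 / 10000) (17739 / 10000) (4655 / 10000) (3296 / 10000) (4945 / 10000)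
    (by show ((17072 : ℕ) : ℝ) / 10000 = _; norm_num) (by show ((16444 : ℕ) : ℝ) / 10000 = _; norm_num)
    (by show ((18298 : ℕ) : ℝ) / 10000 = _; norm_num) (by show ((23800 : ℕ) : ℝ) / 10000 = _; norm_num [Th])
    (by show ((16289 : ℕ) : ℝ) / 10000 = _; norm_num) (by show ((15633 : ℕ) : ℝ) / 10000 = _; norm_num)
    (by show ((17739 : ℕ) : ℝ) / 10000 = _; norm_num) (by show ((23800 : ℕ) : ℝ) / 10000 = _; norm_num [Th])
    ?_ ?_ ?_ ?_ ?_ ?_ <;> norm_num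

theorem s10 : SlabOK (tab 10) (tab 11) := by
  refine slab_of _ _ (16289 / 10000) (15633 / 10000) (17739 / 10000) (15490 / 10000) (14835 / 10000) (17197 / 10000) (4281 / 10000) (3697 / 10000) (5387 / 10000)
    (by show ((16289 : ℕ) : ℝ) / 10000 = _; norm_num) (by show ((15633 : ℕ) : ℝ) / 10000 = _; norm_num)
    (by show ((17739 : ℕ) : ℝ) / 10000 = _; norm_num) (by show ((23800 : ℕ) : ℝ) / 10000 = _; norm_num [Th])
    (by show ((15490 : ℕ) : ℝ) / 10000 = _; norm_num) (by show ((14835 : ℕ) : ℝ) / 10000 = _; norm_num)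
    (by show ((17197 : ℕ) : ℝ) / 10000 = _; norm_num) (by show ((23800 : ℕ) : ℝ) / 10000 = _; norm_num [Th])
    ?_ ?_ ?_ ?_ ?_ ?_ <;> norm_num

theorem s11 : SlabOK (tab 11) (tab 12) := by
  refine slab_of _ _ (15490 / 10000) (14835 / 10000) (17197 / 10000) (14676 / 10000) (14052 / 10000) (16673 / 10000) (3900 / 10000) (4102 / 10000) (5814 / 10000)
    (by show ((15490 : ℕ) : ℝ) / 10000 = _; norm_num) (by show ((14835 : ℕ) : ℝ) / 10000 = _; norm_num)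
    (by show ((17197 : ℕ) : ℝ) / 10000 = _; norm_num) (by show ((23800 : ℕ) : ℝ) / 10000 = _; norm_num [Th])
    (by show ((14676 : ℕ) : ℝ) / 10000 = _; norm_num) (by show ((14052 : ℕ) : ℝ) / 10000 = _; norm_num)
    (by show ((16673 : ℕ) : ℝ) / 10000 = _; norm_num) (by show ((23800 : ℕ) : ℝ) / 10000 = _; norm_num [Th])
    ?_ ?_ ?_ ?_ ?_ ?_ <;> norm_num

theorem s12 : SlabOK (tab 12) (tab 13) := by
  refine slab_of _ _ (14676 / 10000) (14052 / 10000) (16673 / 10000) (13848 / 10000) (13286 / 10000) (16169 / 10000) (3512 / 10000) (4512 / 10000) (6226 / 10000)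
    (by show ((14676 : ℕ) : ℝ) / 10000 = _; norm_num) (by show ((14052 : ℕ) : ℝ) / 10000 = _; norm_num)
    (by show ((16673 : ℕ) : ℝ) / 10000 = _; norm_num) (by show ((23800 : ℕ) : ℝ) / 10000 = _; norm_num [Th])
    (by show ((13848 : ℕ) : ℝ) / 10000 = _; norm_num) (by show ((13286 : ℕ) : ℝ) / 10000 = _; norm_num)
    (by show ((16169 : ℕ) : ℝ) / 10000 = _; norm_num) (by show ((23800 : ℕ) : ℝ) / 10000 = _; norm_num [Th])
    ?_ ?_ ?_ ?_ ?_ ?_ <;> norm_num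

theorem s13 : SlabOK (tab 13) (tab 14) := by
  refine slab_of _ _ (13848 / 10000) (13286 / 10000) (16169 / 10000) (13008 / 10000) (12539 / 10000) (15687 / 10000) (3118 / 10000) (4927 / 10000) (6619 / 10000)
    (by show ((13848 : ℕ) : ℝ) / 10000 = _; norm_num) (by show ((13286 : ℕ) : ℝ) / 10000 = _; norm_num)
    (by show ((16169 : ℕ) : ℝ) / 10000 = _; norm_num) (by show ((23800 : ℕ) : ℝ) / 10000 = _; norm_num [Th])
    (by show ((13008 : ℕ) : ℝ) / 10000 = _; norm_num) (by show ((12539 : ℕ) : ℝ) / 10000 = _; norm_num)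
    (by show ((15687 : ℕ) : ℝ) / 10000 = _; norm_num) (by show ((23800 : ℕ) : ℝ) / 10000 = _; norm_num [Th])
    ?_ ?_ ?_ ?_ ?_ ?_ <;> norm_num

theorem s14 : SlabOK (tab 14) (tab 15) := by
  refine slab_of _ _ (13008 / 10000) (12539 / 10000) (15687 / 10000) (12157 / 10000) (11813 / 10000) (15227 / 10000) (2717 / 10000) (5343 / 10000) (6994 / 10000)
    (by show ((13008 : ℕ) : ℝ) / 10000 = _; norm_num) (by show ((12539 : ℕ) : ℝ) / 10000 = _; norm_num)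
    (by show ((15687 : ℕ) : ℝ) / 10000 = _; norm_num) (by show ((23800 : ℕ) : ℝ) / 10000 = _; norm_num [Th])
    (by show ((12157 : ℕ) : ℝ) / 10000 = _; norm_num) (by show ((11813 : ℕ) : ℝ) / 10000 = _; norm_num)
    (by show ((15227 : ℕ) : ℝ) / 10000 = _; norm_num) (by show ((23800 : ℕ) : ℝ) / 10000 = _; norm_num [Th])
    ?_ ?_ ?_ ?_ ?_ ?_ <;> norm_num

theorem s15 : SlabOK (tab 15) (tab 16) := by
  refine slab_of _ _ (12157 / 10000) (11813 / 10000) (15227 / 10000) (11296 / 10000) (11111 / 10000) (14791 / 10000) (2312 / 10000) (5760 / 10000) (7350 / 10000)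
    (by show ((12157 : ℕ) : ℝ) / 10000 = _; norm_num) (by show ((11813 : ℕ) : ℝ) / 10000 = _; norm_num)
    (by show ((15227 : ℕ) : ℝ) / 10000 = _; norm_num) (by show ((23800 : ℕ) : ℝ) / 10000 = _; norm_num [Th])
    (by show ((11296 : ℕ) : ℝ) / 10000 = _; norm_num) (by show ((11111 : ℕ) : ℝ) / 10000 = _; norm_num)
    (by show ((14791 : ℕ) : ℝ) / 10000 = _; norm_num) (by show ((23800 : ℕ) : ℝ) / 10000 = _; norm_num [Th])
    ?_ ?_ ?_ ?_ ?_ ?_ <;> norm_num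

theorem s16 : SlabOK (tab 16) (tab 17) := by
  refine slab_of _ _ (11296 / 10000) (11111 / 10000) (14791 / 10000) (10428 / 10000) (10435 / 10000) (14379 / 10000) (1901 / 10000) (6173 / 10000) (7686 / 10000)
    (by show ((11296 : ℕ) : ℝ) / 10000 = _; norm_num) (by show ((11111 : ℕ) : ℝ) / 10000 = _; norm_num)
    (by show ((14791 : ℕ) : ℝ) / 10000 = _; norm_num) (by show ((23800 : ℕ) : ℝ) / 10000 = _; norm_num [Th])
    (by show ((10428 : ℕ) : ℝ) / 10000 = _; norm_num) (by show ((10435 : ℕ) : ℝ) / 10000 = _; norm_num)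
    (by show ((14379 : ℕ) : ℝ) / 10000 = _; norm_num) (by show ((23800 : ℕ) : ℝ) / 10000 = _; norm_num [Th])
    ?_ ?_ ?_ ?_ ?_ ?_ <;> norm_num

theorem s17 : SlabOK (tab 17) (tab 18) := by
  refine slab_of _ _ (10428 / 10000) (10435 / 10000) (14379 / 10000) (9553 / 10000) (9788 / 10000) (13993 / 10000) (1488 / 10000) (6581 / 10000) (8001 / 10000)
    (by show ((10428 : ℕ) : ℝ) / 10000 = _; norm_num) (by show ((10435 : ℕ) : ℝ) / 10000 = _; norm_num)
    (by show ((14379 : ℕ) : ℝ) / 10000 = _; norm_num) (by show ((23800 : ℕ) : ℝ) / 10000 = _; norm_num [Th])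
    (by show ((9553 : ℕ) : ℝ) / 10000 = _; norm_num) (by show ((9788 : ℕ) : ℝ) / 10000 = _; norm_num)
    (by show ((13993 : ℕ) : ℝ) / 10000 = _; norm_num) (by show ((23800 : ℕ) : ℝ) / 10000 = _; norm_num [Th])
    ?_ ?_ ?_ ?_ ?_ ?_ <;> norm_num

theorem s18 : SlabOK (tab 18) (tab 19) := by
  refine slab_of _ _ (9553 / 10000) (9788 / 10000) (13993 / 10000) (8688 / 10000) (9173 / 10000) (13634 / 10000) (2082 / 10000) (6982 / 10000) (8294 / 10000)
    (by show ((9553 : ℕ) : ℝ) / 10000 = _; norm_num) (by show ((9788 : ℕ) : ℝ) / 10000 = _; norm_num)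
    (by show ((13993 : ℕ) : ℝ) / 10000 = _; norm_num) (by show ((23800 : ℕ) : ℝ) / 10000 = _; norm_num [Th])
    (by show ((8688 : ℕ) : ℝ) / 10000 = _; norm_num) (by show ((9173 : ℕ) : ℝ) / 10000 = _; norm_num)
    (by show ((13634 : ℕ) : ℝ) / 10000 = _; norm_num) (by show ((23800 : ℕ) : ℝ) / 10000 = _; norm_num [Th])
    ?_ ?_ ?_ ?_ ?_ ?_ <;> norm_num

theorem s19 : SlabOK (tab 19) (tab 20) := by
  refine slab_of _ _ (8688 / 10000) (9173 / 10000) (13634 / 10000) (7850 / 10000) (8593 / 10000) (13302 / 10000) (3189 / 10000) (7370 / 10000) (8564 / 10000)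
    (by show ((8688 : ℕ) : ℝ) / 10000 = _; norm_num) (by show ((9173 : ℕ) : ℝ) / 10000 = _; norm_num)
    (by show ((13634 : ℕ) : ℝ) / 10000 = _; norm_num) (by show ((23800 : ℕ) : ℝ) / 10000 = _; norm_num [Th])
    (by show ((7850 : ℕ) : ℝ) / 10000 = _; norm_num) (by show ((8593 : ℕ) : ℝ) / 10000 = _; norm_num)
    (by show ((13302 : ℕ) : ℝ) / 10000 = _; norm_num) (by show ((23800 : ℕ) : ℝ) / 10000 = _; norm_num [Th])
    ?_ ?_ ?_ ?_ ?_ ?_ <;> norm_num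

theorem s20 : SlabOK (tab 20) (tab 21) := by
  refine slab_of _ _ (7850 / 10000) (8593 / 10000) (13302 / 10000) (7051 / 10000) (8050 / 10000) (12998 / 10000) (4288 / 10000) (7744 / 10000) (8812 / 10000)
    (by show ((7850 : ℕ) : ℝ) / 10000 = _; norm_num) (by show ((8593 : ℕ) : ℝ) / 10000 = _; norm_num)
    (by show ((13302 : ℕ) : ℝ) / 10000 = _; norm_num) (by show ((23800 : ℕ) : ℝ) / 10000 = _; norm_num [Th])
    (by show ((7051 : ℕ) : ℝ) / 10000 = _; norm_num) (by show ((8050 : ℕ) : ℝ) / 10000 = _; norm_num)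
    (by show ((12998 : ℕ) : ℝ) / 10000 = _; norm_num) (by show ((23800 : ℕ) : ℝ) / 10000 = _; norm_num [Th])
    ?_ ?_ ?_ ?_ ?_ ?_ <;> norm_num

theorem s21 : SlabOK (tab 21) (tab 22) := by
  refine slab_of _ _ (7051 / 10000) (8050 / 10000) (12998 / 10000) (6303 / 10000) (7547 / 10000) (12723 / 10000) (5340 / 10000) (8101 / 10000) (9037 / 10000)
    (by show ((7051 : ℕ) : ℝ) / 10000 = _; norm_num) (by show ((8050 : ℕ) : ℝ) / 10000 = _; norm_num)
    (by show ((12998 : ℕ) : ℝ) / 10000 = _; norm_num) (by show ((23800 : ℕ) : ℝ) / 10000 = _; norm_num [Th])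
    (by show ((6303 : ℕ) : ℝ) / 10000 = _; norm_num) (by show ((7547 : ℕ) : ℝ) / 10000 = _; norm_num)
    (by show ((12723 : ℕ) : ℝ) / 10000 = _; norm_num) (by show ((23800 : ℕ) : ℝ) / 10000 = _; norm_num [Th])
    ?_ ?_ ?_ ?_ ?_ ?_ <;> norm_num

theorem s22 : SlabOK (tab 22) (tab 23) := by
  refine slab_of _ _ (6303 / 10000) (7547 / 10000) (12723 / 10000) (5617 / 10000) (7086 / 10000) (12477 / 10000) (6305 / 10000) (8437 / 10000) (9237 / 10000)
    (by show ((6303 : ℕ) : ℝ) / 10000 = _; norm_num) (by show ((7547 : ℕ) : ℝ) / 10000 = _; norm_num)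
    (by show ((12723 : ℕ) : ℝ) / 10000 = _; norm_num) (by show ((23800 : ℕ) : ℝ) / 10000 = _; norm_num [Th])
    (by show ((5617 : ℕ) : ℝ) / 10000 = _; norm_num) (by show ((7086 : ℕ) : ℝ) / 10000 = _; norm_num)
    (by show ((12477 : ℕ) : ℝ) / 10000 = _; norm_num) (by show ((23800 : ℕ) : ℝ) / 10000 = _; norm_num [Th])
    ?_ ?_ ?_ ?_ ?_ ?_ <;> norm_num

theorem s23 : SlabOK (tab 23) (tab 24) := by
  refine slab_of _ _ (5617 / 10000) (7086 / 10000) (12477 / 10000) (5000 / 10000) (6670 / 10000) (12260 / 10000) (7168 / 10000) (8749 / 10000) (9414 / 10000)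
    (by show ((5617 : ℕ) : ℝ) / 10000 = _; norm_num) (by show ((7086 : ℕ) : ℝ) / 10000 = _; norm_num)
    (by show ((12477 : ℕ) : ℝ) / 10000 = _; norm_num) (by show ((23800 : ℕ) : ℝ) / 10000 = _; norm_num [Th])
    (by show ((5000 : ℕ) : ℝ) / 10000 = _; norm_num) (by show ((6670 : ℕ) : ℝ) / 10000 = _; norm_num)
    (by show ((12260 : ℕ) : ℝ) / 10000 = _; norm_num) (by show ((23800 : ℕ) : ℝ) / 10000 = _; norm_num [Th])
    ?_ ?_ ?_ ?_ ?_ ?_ <;> norm_num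

theorem all : ∀ k < 24, SlabOK (tab k) (tab (k + 1)) := by
  intro k hk
  interval_cases k
  · exact s0
  · exact s1
  · exact s2
  · exact s3
  · exact s4
  · exact s5
  · exact s6
  · exact s7
  · exact s8
  · exact s9
  · exact s10
  · exact s11
  · exact s12
  · exact s13
  · exact s14
  · exact s15
  · exact s16
  · exact s17
  · exact s18
  · exact s19
  · exact s20
  · exact s21
  · exact s22
  · exact s23

end Pool.Agent.Work.MP_33c50c_an.K3.Num
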