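import Pool.Agent.Work.MP_33c50c_an.K3.Stmts
import Pool.Agent.Work.MP_33c50c_an.K3.Num

set_option autoImplicit false

/-!
# Item Cell: one cell, in terms of an upper bound of its sections
-/

namespace Pool.Agent.Work.MP_33c50c_an.K3

open MeasureTheory Set Filter Topology

namespace Cell

theorem tau_pos : (0 : ℝ) < tau := by
  unfold tau
  norm_num

theorem split {f : ℝ → ℝ} (hf : IntegrableOn f (Ioi 0)) :
    (∫ s in (0:ℝ)..tau, f s) + (∫ s in Ioi tau, f s) = ∫ s in Ioi (0:ℝ), f s :=
  intervalIntegral.integral_interval_add_Ioi hf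
    (hf.mono_set (Ioi_subset_Ioi tau_pos.le))

theorem tab24_3 : tab 24 3 = Th := by
  show ((23800 : ℕ) : ℝ) / 10000 = 238 / 100
  norm_num

theorem tab24_0 : tab 24 0 = 1 / 2 := by
  show ((5000 : ℕ) : ℝ) / 10000 = 1 / 2
  norm_num

theorem TT_zero : TT 0 = 0 := by
  unfold TT
  rw [zero_div]

end Cell

open Cell in
theorem prfCell : S_Reg → S_LatLt → S_Chain → S_Tail → S_Cell := by
  intro hReg hLat hChain hTail u G hu hG hGi hE
  obtain ⟨_, _, hec, _, hes, hEH⟩ := hReg u hu
  have hei : Integrable (ee u) := hec.integrable_of_hasCompactSupport hes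
  rw [hEH] at hE
  have hb3 : (0 : ℝ) < bv 3 := by rw [Num.bv3]; norm_num
  refine ⟨?_, ?_⟩
  · by_contra hlt
    have hlt' := not_le.1 hlt
    have h1 := hTail u G hu hG hGi 0 0 le_rfl (by norm_num) (by
      rw [zero_add, div_lt_one hb3]
      exact hlt')
    rw [TT_zero, zero_mul] at h1
    linarith
  · intro hA
    by_contra hlt
    have hlt' := not_le.1 hlt
    set A := ∫ s in Ioi (0:ℝ), G s with hAdef
    set B := ∫ s in (0:ℝ)..tau, G s with hBdef
    have hsG : B + (∫ s in Ioi tau, G s) = A := split hGi
    have hR0 : 0 ≤ ∫ s in Ioi tau, G s := integral_nonneg fun s => (hG.2.1 s).le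
    have hB0 : 0 ≤ B := intervalIntegral.integral_nonneg tau_pos.le fun s _ => (hG.2.1 s).le
    have hR : (∫ s in Ioi tau, G s) = A - B := by linarith
    have hrho : rho = 1925 / 10000 := rfl
    have hTh : Th = 238 / 100 := rfl
    have hABv : AB = 4247 / 1000 := rfl
    have hBT : B < Th := by
      rw [hrho] at hlt'
      linarith
    have hch := hChain u G hu hG hBT
    have hv := hLat (tab 24) (Th - B) tab24_3 (by linarith) (by linarith)
    rw [abs_lt] at hv
    have hvle : lat (tab 24) (Th - B) ≤
        max ((A0 - (Th - B)) / bv 3) ((tab 24 0 - (Th - B)) / bv 0) := by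
      unfold lat
      exact max_le_max le_rfl ((min_le_left _ _).trans (min_le_left _ _))
    have hv1 : lat (tab 24) (Th - B) + (∫ s in Ioi tau, G s) / bv 3 < 1 := by
      rw [hR]
      rcases le_max_iff.1 hvle with h | h
      · have h1 : (A0 - (Th - B)) / bv 3 + (A - B) / bv 3 < 1 := by
          rw [← add_div, div_lt_one hb3, A0]
          linarith
        linarith
      · rw [tab24_0, Num.bv0] at h
        have h1 : (A - B) / bv 3 < 2 * (Th - B) := by
          rw [div_lt_iff₀ hb3, Num.bv3]
          rw [hrho] at hlt'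
          linarith
        linarith
    have htl := hTail u G hu hG hGi tau (lat (tab 24) (Th - B)) tau_pos.le hv.1 hv1
    have hse := split hei.integrableOn
    linarith

end Pool.Agent.Work.MP_33c50c_an.K3
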