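import Mathlib
import Pool.Agent.Work.MP_33c50c_an.K3.Stmts

set_option autoImplicit false

namespace Pool.Agent.Work.MP_33c50c_an.K3

open MeasureTheory Set Filter Topology

namespace CellK

/-- a bound for the section functions of the set gives an admissible function -/
theorem adm {u : ℝ × ℝ → ℝ} {K : Set (ℝ × ℝ)} {G : ℝ → ℝ} (hK : ∀ p, u p ≠ 0 → p ∈ K)
    (hG : Continuous G) (hp : ∀ y, 0 < G y)
    (hv : ∀ y, volume {x : ℝ | (x, y) ∈ K} ≤ ENNReal.ofReal (Real.pi * G y)) : Adm u G :=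
  ⟨hG, hp, fun y _ => (measure_mono (fun x (hx : u (x, y) ≠ 0) => hK (x, y) hx)).trans (hv y)⟩

theorem tau_pos : 0 < tau := by
  unfold tau
  norm_num

theorem rho_nonneg : 0 ≤ rho := by
  unfold rho
  norm_num

theorem rho_le : rho ≤ 1 := by
  unfold rho
  norm_num

end CellK

open CellK in
theorem prfCellK : S_Cell → S_Maj → S_CellK := by
  intro hCell hMaj u K hu hK huK hE
  have hpi := Real.pi_pos
  have key : ∀ δ > 0, Real.pi * bv 3 ≤ area (K ∩ hp 1 0) + δ ∧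
      (area (K ∩ hp 1 0) + δ < Real.pi * AB →
        Real.pi * Th ≤ rho * (area (K ∩ hp 1 0) + δ) +
          (1 - rho) * (area (K ∩ sp 1 0 tau) + δ)) := by
    intro δ hδ
    obtain ⟨G, hG, hGp, hGi, hGv, h1, h2⟩ := hMaj K hK δ hδ tau tau_pos
    obtain ⟨h3, h4⟩ := hCell u G hu (adm huK hG hGp hGv) hGi.integrableOn hE
    refine ⟨(mul_le_mul_of_nonneg_left h3 hpi.le).trans h1, fun h5 => ?_⟩
    have h6 : (∫ s in Ioi (0:ℝ), G s) < AB := by
      have h7 : Real.pi * (∫ s in Ioi (0:ℝ), G s) < Real.pi * AB := h1.trans_lt h5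
      exact lt_of_mul_lt_mul_left h7 hpi.le
    have h8 := mul_le_mul_of_nonneg_left (h4 h6) hpi.le
    have h9 := mul_le_mul_of_nonneg_left h1 rho_nonneg
    have h10 := mul_le_mul_of_nonneg_left h2 (sub_nonneg.2 rho_le)
    calc Real.pi * Th ≤ Real.pi * (rho * (∫ s in Ioi (0:ℝ), G s) +
          (1 - rho) * ∫ s in (0:ℝ)..tau, G s) := h8
      _ = rho * (Real.pi * ∫ s in Ioi (0:ℝ), G s) +
          (1 - rho) * (Real.pi * ∫ s in (0:ℝ)..tau, G s) := by ring
      _ ≤ _ := add_le_add h9 h10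
  refine ⟨le_of_forall_pos_le_add fun δ hδ => (key δ hδ).1, fun hA => ?_⟩
  refine le_of_forall_pos_le_add fun δ hδ => ?_
  set δ' := min δ ((Real.pi * AB - area (K ∩ hp 1 0)) / 2) with hδ'
  have hpos : 0 < (Real.pi * AB - area (K ∩ hp 1 0)) / 2 := by linarith
  have h1 : 0 < δ' := lt_min hδ hpos
  have h2 : δ' ≤ δ := min_le_left _ _
  have h3 : δ' ≤ (Real.pi * AB - area (K ∩ hp 1 0)) / 2 := min_le_right _ _
  have h4 := (key δ' h1).2 (by linarith)
  calc Real.pi * Th ≤ rho * (area (K ∩ hp 1 0) + δ') +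
        (1 - rho) * (area (K ∩ sp 1 0 tau) + δ') := h4
    _ = rho * area (K ∩ hp 1 0) + (1 - rho) * area (K ∩ sp 1 0 tau) + δ' := by ring
    _ ≤ _ := by linarith

end Pool.Agent.Work.MP_33c50c_an.K3
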