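import Pool.Agent.Work.MP_33c50c_an.K3.Stmts

/-!
# CellS: one cell above or below a line
-/

set_option autoImplicit false

namespace Pool.Agent.Work.MP_33c50c_an.K3

open MeasureTheory Set Filter Topology

/-- One cell above or below a line. -/
theorem prfCellS : S_CellK → S_Sym → S_CellS := by
  intro hK hS u K κ s hκ hu hKc hs hE
  obtain ⟨h1, h2, h3, h4, h5⟩ := hS u K κ s tau hκ hu hKc
  have h6 := hK _ _ h1 h3 (fun p hp => hs (p.1, s + κ * p.2) hp) (h2.trans_lt hE)
  rw [h4, h5] at h6
  exact h6

end Pool.Agent.Work.MP_33c50c_an.K3
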