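import Pool.Agent.Work.MP_33c50c_an.K3.Stmts
import Pool.Agent.Work.MP_33c50c_an.K3.Num

namespace Pool.Agent.Work.MP_33c50c_an.K3

open MeasureTheory Set Filter Topology

namespace Chain

lemma mm_nonneg (u : ℝ × ℝ → ℝ) (y : ℝ) : 0 ≤ mm u y := integral_nonneg (fun _ => sq_nonneg _)

lemma TT_nonneg {x : ℝ} (hx : 0 ≤ x) : 0 ≤ TT x := div_nonneg hx (Real.sqrt_nonneg _)

lemma lat0 : 0 ≤ lat (tab 0) Th := by
  have h0 : 0 ≤ (tab 0 0 - Th) / bv 0 := by
    refine div_nonneg ?_ (by rw [Num.bv0]; norm_num)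
    rw [show tab 0 0 = ((23870 : ℕ) : ℝ) / 10000 from rfl]; norm_num [Th]
  have h1 : 0 ≤ (tab 0 1 - Th) / bv 1 := by
    refine div_nonneg ?_ (by rw [Num.bv1]; norm_num)
    rw [show tab 0 1 = ((24059 : ℕ) : ℝ) / 10000 from rfl]; norm_num [Th]
  have h2 : 0 ≤ (tab 0 2 - Th) / bv 2 := by
    refine div_nonneg ?_ (by rw [Num.bv2]; norm_num)
    rw [show tab 0 2 = ((23850 : ℕ) : ℝ) / 10000 from rfl]; norm_num [Th]
  have h3 : 0 ≤ (tab 0 3 - Th) / bv 3 := by
    refine div_nonneg ?_ (by rw [Num.bv3]; norm_num)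
    rw [show tab 0 3 = ((23800 : ℕ) : ℝ) / 10000 from rfl]; norm_num [Th]
  exact le_trans (le_min (le_min h0 h1) (le_min h2 h3)) (le_max_right _ _)

end Chain

open Chain in
theorem prfChain : S_Reg → S_LatLt → S_Slab → S_Chain := by
  intro hReg _ hSlab u G hu hG hlt
  have hh0 : (0 : ℝ) < hh := by norm_num [hh]
  have htau : tau = (24 : ℕ) * hh := by norm_num [tau, hh]
  obtain ⟨-, -, hee, -, -, -⟩ := hReg u hu
  have hintG : ∀ a b : ℝ, IntervalIntegrable G volume a b := fun a b =>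
    hG.1.intervalIntegrable a b
  have hinte : ∀ a b : ℝ, IntervalIntegrable (ee u) volume a b := fun a b =>
    hee.intervalIntegrable a b
  have hG0 : ∀ a b : ℝ, a ≤ b → 0 ≤ ∫ z in a..b, G z := fun a b hab =>
    intervalIntegral.integral_nonneg hab (fun z _ => (hG.2.1 z).le)
  have main : ∀ k : ℕ, k ≤ 24 → 0 ≤ (∫ s in (0:ℝ)..(k * hh), ee u s) +
      TT (lat (tab k) (Th - ∫ s in (0:ℝ)..(k * hh), G s)) * mm u (k * hh) := by
    intro k
    induction k with
    | zero =>
      intro _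
      simp only [Nat.cast_zero, zero_mul, intervalIntegral.integral_same, zero_add, sub_zero]
      exact mul_nonneg (TT_nonneg lat0) (mm_nonneg u 0)
    | succ k ih =>
      intro hk
      have ih' := ih (by omega)
      have hk24 : ((k : ℝ) + 1) ≤ 24 := by exact_mod_cast hk
      have hkh : ((k + 1 : ℕ) : ℝ) * hh = (k : ℝ) * hh + hh := by push_cast; ring
      have h1 := intervalIntegral.integral_add_adjacent_intervals (hintG 0 ((k : ℝ) * hh))
        (hintG ((k : ℝ) * hh) ((k : ℝ) * hh + hh))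
      have h2 := intervalIntegral.integral_add_adjacent_intervals (hinte 0 ((k : ℝ) * hh))
        (hinte ((k : ℝ) * hh) ((k : ℝ) * hh + hh))
      have h3 := intervalIntegral.integral_add_adjacent_intervals
        (hintG 0 ((k : ℝ) * hh + hh)) (hintG ((k : ℝ) * hh + hh) tau)
      have h4 := hG0 ((k : ℝ) * hh + hh) tau (by rw [htau]; push_cast; nlinarith)
      have hk0 : 0 ≤ (k : ℝ) * hh := by positivity
      have h5 := hG0 0 ((k : ℝ) * hh) hk0
      have h6 := hSlab u G hu hG (tab k) (tab (k + 1)) (Num.all k (by omega)) ((k : ℝ) * hh)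
        (Th - ∫ s in (0:ℝ)..(k * hh), G s) hk0 (by linarith) (by linarith)
      have h7 : Th - (∫ s in (0:ℝ)..(k * hh), G s) - (∫ s in ((k : ℝ) * hh)..((k : ℝ) * hh + hh),
          G s) = Th - ∫ s in (0:ℝ)..((k : ℝ) * hh + hh), G s := by linarith
      rw [h7] at h6
      rw [hkh]
      linarith
  have h := main 24 le_rfl
  rw [← htau] at h
  exact h

end Pool.Agent.Work.MP_33c50c_an.K3
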