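import Pool.Agent.Work.MP_33c50c_an.K3.Stmts

set_option autoImplicit false

namespace Pool.Agent.Work.MP_33c50c_an.K3

namespace Chi

open MeasureTheory intervalIntegral

/-- the bump -/
noncomputable def q (w t : ℝ) : ℝ := max 0 (6 * (t - w) * (2 * w - t) / w ^ 3)

/-- its integral -/
noncomputable def M (w x : ℝ) : ℝ := ∫ t in (0:ℝ)..x, q w t

theorem q_cont (w : ℝ) : Continuous (q w) := by
  unfold q; fun_prop

theorem q_nonneg (w t : ℝ) : 0 ≤ q w t := le_max_left _ _

theorem q_le {w : ℝ} (hw : 0 < w) (t : ℝ) : q w t ≤ 2 / w := by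
  unfold q
  apply max_le (by positivity)
  rw [div_le_div_iff₀ (by positivity) hw]
  nlinarith [sq_nonneg (2 * t - 3 * w), sq_nonneg w, mul_pos hw hw, mul_pos (mul_pos hw hw) hw,
    mul_nonneg hw.le (sq_nonneg (2 * t - 3 * w))]

theorem q_zero1 {w : ℝ} (hw : 0 < w) {t : ℝ} (ht : t ≤ w) : q w t = 0 := by
  unfold q
  apply max_eq_left
  apply div_nonpos_of_nonpos_of_nonneg _ (by positivity)
  have h1 : 6 * (t - w) ≤ 0 := by linarith
  exact mul_nonpos_of_nonpos_of_nonneg h1 (by linarith)

theorem q_zero2 {w : ℝ} (hw : 0 < w) {t : ℝ} (ht : 2 * w ≤ t) : q w t = 0 := by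
  unfold q
  apply max_eq_left
  apply div_nonpos_of_nonpos_of_nonneg _ (by positivity)
  have h1 : 0 ≤ 6 * (t - w) := by linarith
  exact mul_nonpos_of_nonneg_of_nonpos h1 (by linarith)

theorem q_mid {w : ℝ} (hw : 0 < w) {t : ℝ} (h1 : w ≤ t) (h2 : t ≤ 2 * w) :
    q w t = 6 * (t - w) * (2 * w - t) / w ^ 3 := by
  unfold q
  apply max_eq_right
  apply div_nonneg _ (by positivity)
  exact mul_nonneg (by linarith) (by linarith)

theorem M_deriv (w x : ℝ) : HasDerivAt (M w) (q w x) x :=
  integral_hasDerivAt_right ((q_cont w).intervalIntegrable _ _)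
    ((q_cont w).stronglyMeasurableAtFilter _ _) (q_cont w).continuousAt

theorem M_zero {w : ℝ} (hw : 0 < w) {x : ℝ} (hx : x ≤ w) : M w x = 0 := by
  unfold M
  rw [integral_congr (g := fun _ => (0:ℝ))]
  · simp
  · intro t ht
    apply q_zero1 hw
    rw [Set.uIcc, Set.mem_Icc] at ht
    exact ht.2.trans (max_le hw.le hx)

theorem M_add (w x y : ℝ) : M w y = M w x + ∫ t in x..y, q w t := by
  unfold M
  rw [integral_add_adjacent_intervals ((q_cont w).intervalIntegrable _ _)
    ((q_cont w).intervalIntegrable _ _)]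

theorem M_one {w : ℝ} (hw : 0 < w) {x : ℝ} (hx : 2 * w ≤ x) : M w x = 1 := by
  rw [M_add w (2 * w) x, M_add w w (2 * w), M_zero hw le_rfl]
  have h1 : ∫ t in (2 * w)..x, q w t = 0 := by
    rw [integral_congr (g := fun _ => (0:ℝ))]
    · simp
    · intro t ht
      apply q_zero2 hw
      rw [Set.uIcc_of_le hx] at ht
      exact ht.1
  have h2 : ∫ t in w..(2 * w), q w t = 1 := by
    have e : ∀ t ∈ Set.uIcc w (2 * w), HasDerivAt
        (fun t => (3 * (t - w) ^ 2 * w - 2 * (t - w) ^ 3) / w ^ 3) (q w t) t := by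
      intro t ht
      rw [Set.uIcc_of_le (by linarith)] at ht
      rw [q_mid hw ht.1 ht.2]
      have d1 : HasDerivAt (fun t : ℝ => t - w) 1 t := (hasDerivAt_id t).sub_const w
      have d2 := (((d1.pow 2).const_mul 3).mul_const w).sub ((d1.pow 3).const_mul 2)
      have d3 := d2.div_const (w ^ 3)
      refine HasDerivAt.congr_deriv d3 ?_
      norm_num
      ring
    rw [integral_eq_sub_of_hasDerivAt e ((q_cont w).intervalIntegrable _ _)]
    field_simp
    ring
  rw [h1, h2]; ring

theorem M_mono {w : ℝ} : Monotone (M w) := by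
  intro x y hxy
  rw [M_add w x y]
  have := integral_nonneg (μ := volume) hxy (fun t _ => q_nonneg w t)
  linarith

theorem M_nonneg {w : ℝ} (hw : 0 < w) (x : ℝ) : 0 ≤ M w x := by
  rcases le_or_gt x w with h | h
  · rw [M_zero hw h]
  · rw [← M_zero hw le_rfl]; exact M_mono h.le

theorem M_le {w : ℝ} (hw : 0 < w) (x : ℝ) : M w x ≤ 1 := by
  rcases le_or_gt (2 * w) x with h | h
  · rw [M_one hw h]
  · rw [← M_one hw le_rfl]; exact M_mono h.le

end Chi

open Chi in
theorem prfChi : S_Chi := by
  have hw : 0 < wd := by unfold wd; norm_num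
  have hw2 : wd = 1 / 2000 := rfl
  have hpi := Real.pi_gt_three
  have hd : ∀ x, HasDerivAt (fun x => M wd x + M wd (2 * Real.pi - x) - 1)
      (q wd x - q wd (2 * Real.pi - x)) x := by
    intro x
    have h1 := M_deriv wd x
    have h2 : HasDerivAt (fun x => 2 * Real.pi - x) (-1) x := by
      simpa using (hasDerivAt_id x).const_sub (2 * Real.pi)
    have h3 := (M_deriv wd (2 * Real.pi - x)).comp x h2
    have h4 := (h1.add h3).sub_const 1
    refine HasDerivAt.congr_deriv h4 ?_
    ring
  have hd' : deriv (fun x => M wd x + M wd (2 * Real.pi - x) - 1) =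
      fun x => q wd x - q wd (2 * Real.pi - x) := by
    funext x; exact (hd x).deriv
  refine ⟨fun x => M wd x + M wd (2 * Real.pi - x) - 1, ?_, ?_, ?_, ?_, ?_, ?_⟩
  · rw [contDiff_one_iff_deriv]
    refine ⟨fun x => (hd x).differentiableAt, ?_⟩
    rw [hd']
    have := q_cont wd
    fun_prop
  · intro x
    have h1 := M_nonneg hw x
    have h2 := M_le hw x
    have h3 := M_nonneg hw (2 * Real.pi - x)
    have h4 := M_le hw (2 * Real.pi - x)
    constructor
    · rcases le_or_gt (2 * wd) x with h | h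
      · have := M_one hw h
        show 0 ≤ M wd x + M wd (2 * Real.pi - x) - 1
        linarith
      · have := M_one hw (x := 2 * Real.pi - x) (by linarith)
        show 0 ≤ M wd x + M wd (2 * Real.pi - x) - 1
        linarith
    · show M wd x + M wd (2 * Real.pi - x) - 1 ≤ 1
      linarith
  · intro x hx
    show M wd x + M wd (2 * Real.pi - x) - 1 = 0
    rw [M_zero hw hx, M_one hw (by linarith)]; ring
  · intro x hx
    show M wd x + M wd (2 * Real.pi - x) - 1 = 0
    rw [M_zero hw (x := 2 * Real.pi - x) (by linarith), M_one hw (by linarith)]; ring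
  · intro x hx hx2
    show M wd x + M wd (2 * Real.pi - x) - 1 = 1
    rw [M_one hw hx, M_one hw (by linarith)]; ring
  · intro x
    rw [hd']
    have h1 := q_nonneg wd x
    have h2 := q_nonneg wd (2 * Real.pi - x)
    have h3 := q_le hw x
    have h4 := q_le hw (2 * Real.pi - x)
    rw [abs_le]
    constructor
    · linarith
    · linarith

end Pool.Agent.Work.MP_33c50c_an.K3
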