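import Pool.Agent.Work.MP_33c50c_an.K3.Stmts

set_option autoImplicit false

/-!
# Item Conn: some line is good
-/

namespace Pool.Agent.Work.MP_33c50c_an.K3

open Set

namespace Conn

theorem not_zero : ¬ NegM 0 := by
  rintro ⟨a, b, h⟩
  have := h 0
  simp [qf] at this

end Conn

theorem prfConn : S_Sig → S_Open → S_Conn := by
  intro hSig hOpen P N D S hD hPN hPc hNc hPs hNs hP0 hN0
  have hor : ∀ s, NegM (P s) ∨ NegM (N s) := fun s =>
    hSig (P s) (N s) (hPs s) (hNs s) (by rw [hPN]; exact hD)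
  have h1 : NegM (N S) := (hor S).resolve_left (by
    rw [hP0 S le_rfl]; exact Conn.not_zero)
  have h2 : NegM (P (-S)) := (hor (-S)).resolve_right (by
    rw [hN0 (-S) le_rfl]; exact Conn.not_zero)
  obtain ⟨s, _, h3, h4⟩ := (isPreconnected_univ : IsPreconnected (univ : Set ℝ))
    {s | NegM (P s)} {s | NegM (N s)} (hOpen P hPc) (hOpen N hNc) (fun s _ => hor s)
    ⟨-S, mem_univ _, h2⟩ ⟨S, mem_univ _, h1⟩
  exact ⟨s, h3, h4⟩

end Pool.Agent.Work.MP_33c50c_an.K3
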