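import Pool.Agent.Work.MP_33c50c_an.K3.Stmts

/-!
# Two crossing strips
-/

set_option autoImplicit false

namespace Pool.Agent.Work.MP_33c50c_an.K3

open MeasureTheory Set

theorem prfCross : S_Cross := by
  intro Ω s s' T hΩ hfin hT
  have m2 : MeasurableSet {p : ℝ × ℝ | |p.2 - s| < T} :=
    measurableSet_lt (by fun_prop) measurable_const
  have m1 : MeasurableSet {p : ℝ × ℝ | |p.1 - s'| < T} :=
    measurableSet_lt (by fun_prop) measurable_const
  have key := measure_union_add_inter (μ := volume) (Ω ∩ {p : ℝ × ℝ | |p.2 - s| < T})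
    (hΩ.inter m1)
  have h1 : volume (Ω ∩ {p : ℝ × ℝ | |p.2 - s| < T} ∪ Ω ∩ {p : ℝ × ℝ | |p.1 - s'| < T}) ≤
      volume Ω := measure_mono (union_subset inter_subset_left inter_subset_left)
  have h2 : volume (Ω ∩ {p : ℝ × ℝ | |p.2 - s| < T} ∩ (Ω ∩ {p : ℝ × ℝ | |p.1 - s'| < T})) ≤
      ENNReal.ofReal (4 * T ^ 2) := by
    have hsub : Ω ∩ {p : ℝ × ℝ | |p.2 - s| < T} ∩ (Ω ∩ {p : ℝ × ℝ | |p.1 - s'| < T}) ⊆
        Ioo (s' - T) (s' + T) ×ˢ Ioo (s - T) (s + T) := by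
      rintro ⟨x, y⟩ ⟨⟨_, hy⟩, ⟨_, hx⟩⟩
      have hx' := abs_lt.1 (show |x - s'| < T from hx)
      have hy' := abs_lt.1 (show |y - s| < T from hy)
      exact ⟨⟨by simp only; linarith, by simp only; linarith⟩,
        ⟨by simp only; linarith, by simp only; linarith⟩⟩
    refine (measure_mono hsub).trans ?_
    rw [Measure.volume_eq_prod, Measure.prod_prod, Real.volume_Ioo, Real.volume_Ioo,
      ← ENNReal.ofReal_mul (by linarith)]
    exact le_of_eq (by congr 1; ring)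
  have f1 : volume (Ω ∩ {p : ℝ × ℝ | |p.2 - s| < T}) ≠ ⊤ :=
    ((measure_mono inter_subset_left).trans_lt (lt_top_iff_ne_top.2 hfin)).ne
  have f2 : volume (Ω ∩ {p : ℝ × ℝ | |p.1 - s'| < T}) ≠ ⊤ :=
    ((measure_mono inter_subset_left).trans_lt (lt_top_iff_ne_top.2 hfin)).ne
  have h3 : volume (Ω ∩ {p : ℝ × ℝ | |p.2 - s| < T}) + volume (Ω ∩ {p : ℝ × ℝ | |p.1 - s'| < T}) ≤
      volume Ω + ENNReal.ofReal (4 * T ^ 2) := by
    rw [← key]
    exact add_le_add h1 h2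
  have h4 := ENNReal.toReal_mono (ENNReal.add_ne_top.2 ⟨hfin, ENNReal.ofReal_ne_top⟩) h3
  rw [ENNReal.toReal_add f1 f2, ENNReal.toReal_add hfin ENNReal.ofReal_ne_top,
    ENNReal.toReal_ofReal (by positivity)] at h4
  exact h4

end Pool.Agent.Work.MP_33c50c_an.K3
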