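import Pool.Agent.Work.MP_33c50c_an.K3.Stmts
import Pool.Agent.Work.MP_33c50c_an.Cyl2

set_option autoImplicit false

namespace Pool.Agent.Work.MP_33c50c_an.K3

open MeasureTheory Set Filter Topology
open scoped ENNReal ContDiff

namespace CylS

theorem mass_zero' : mass (0 : Cyl → ℝ) = 0 := by
  unfold mass
  simp

theorem mass_pos' {Ω : Set Cyl} {u : Cyl → ℝ} (hu : IsTest Ω u) (hne : u ≠ 0) : 0 < mass u := by
  obtain ⟨x, hx⟩ := Function.ne_iff.mp hne
  have hc := cont_f u (test_lft hu)
  apply Continuous.integral_pos_of_hasCompactSupport_nonneg_nonzero (x := x) (hc.pow 2)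
  · apply HasCompactSupport.of_support_subset_isCompact hu.2.1
    intro p hp
    apply subset_tsupport
    intro h
    apply hp
    show u p ^ 2 = 0
    rw [h]; simp
  · intro p; exact sq_nonneg (u p)
  · exact pow_ne_zero 2 hx

theorem sec_cont {Ω : Set Cyl} {u : Cyl → ℝ} (hu : IsTest Ω u) (x : ℝ) :
    Continuous fun y : ℝ => u (pt x y) := by
  have h1 : Continuous fun y : ℝ => pt x y :=
    pt_continuous.comp (by fun_prop : Continuous fun y : ℝ => ((x, y) : ℝ × ℝ))
  exact (cont_f u (test_lft hu)).comp h1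

theorem sec_cpt {Ω : Set Cyl} {u : Cyl → ℝ} (hu : IsTest Ω u) (x : ℝ) :
    HasCompactSupport fun y : ℝ => u (pt x y) := by
  apply HasCompactSupport.of_support_subset_isCompact (hu.2.1.image continuous_snd)
  intro y hy
  exact ⟨pt x y, subset_tsupport _ hy, rfl⟩

theorem sec_int {Ω : Set Cyl} {u : Cyl → ℝ} (hu : IsTest Ω u) (x : ℝ) :
    Integrable fun y : ℝ => u (pt x y) ^ 2 := by
  apply ((sec_cont hu x).pow 2).integrable_of_hasCompactSupport
  refine HasCompactSupport.of_support_subset_isCompact (sec_cpt hu x) ?_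
  intro y hy
  apply subset_tsupport
  intro h
  apply hy
  show u (pt x y) ^ 2 = 0
  have h' : u (pt x y) = 0 := h
  rw [h']; simp

theorem mul_int {Ω : Set Cyl} {u v : Cyl → ℝ} (hu : IsTest Ω u) (hv : IsTest Ω v) :
    Integrable fun p : Cyl => u p * v p :=
  ((cont_f u (test_lft hu)).mul (cont_f v (test_lft hv))).integrable_of_hasCompactSupport
    (hv.2.1.mul_left (f := u))

theorem cs3 (c x : Fin 3 → ℝ) : (∑ i, c i * x i) ^ 2 ≤ (∑ i, c i ^ 2) * ∑ i, x i ^ 2 :=
  Finset.sum_mul_sq_le_sq_mul_sq Finset.univ c x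

theorem win_mono (f g : ℝ → ℝ) (hf : Continuous f) (hg : Continuous g) (h : ∀ x, f x ≤ g x)
    (a : ℝ) : win f a ≤ win g a := by
  unfold win
  have hw : (0:ℝ) ≤ 2 * wd := by unfold wd; norm_num
  have hf' : Continuous fun x => f (a + x) := by fun_prop
  have hg' : Continuous fun x => g (a + x) := by fun_prop
  apply add_le_add
  · exact intervalIntegral.integral_mono hw (hf'.intervalIntegrable _ _)
      (hg'.intervalIntegrable _ _) fun x => h _
  · exact intervalIntegral.integral_mono (by linarith) (hf'.intervalIntegrable _ _)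
      (hg'.intervalIntegrable _ _) fun x => h _

theorem win_mul (f : ℝ → ℝ) (N a : ℝ) : win (fun x => N * f x) a = N * win f a := by
  unfold win
  rw [intervalIntegral.integral_const_mul, intervalIntegral.integral_const_mul]
  ring

end CylS

open CylS in
theorem prfCylS : S_Plane → S_Chi → S_Orth → S_Ro → S_Win → S_CTst → S_CVol → S_CMas → S_CEn →
    ∀ Ω : Set Cyl, IsOpen Ω → volume Ω ≤ ENNReal.ofReal (1 / 10 ^ 9) →
      ENNReal.ofReal (1201 / 100 * Real.pi) / volume Ω ≤ eigenvalue Ω 3 := by
  intro hPlane hChi hOrth hRo hWin hTst hVol hMas hEn Ω hΩ hsmall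
  have hpi := Real.pi_pos
  by_contra hcon
  rw [not_le] at hcon
  unfold eigenvalue at hcon
  rw [iInf_lt_iff] at hcon
  obtain ⟨L, hcon⟩ := hcon
  rw [iInf_lt_iff] at hcon
  obtain ⟨⟨hL, hLk⟩, hcon⟩ := hcon
  obtain ⟨w, hwL, hwo⟩ := hOrth Ω L hL hLk
  have hwt : ∀ i, IsTest Ω (w i) := fun i => hL _ (hwL i)
  -- Ω is nonempty
  have hne : Ω.Nonempty := by
    by_contra h
    rw [not_nonempty_iff_eq_empty] at h
    have h0 : w 0 = 0 := by
      ext p
      by_contra hp
      have h1 : p ∈ tsupport (w 0) := subset_tsupport _ hp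
      have h2 := (hwt 0).2.2 h1
      rw [h] at h2
      exact h2
    have h1 := hwo 0 0
    rw [h0] at h1
    simp at h1
  have hfin : volume Ω ≠ ⊤ := ne_top_of_le_ne_top ENNReal.ofReal_ne_top hsmall
  have hvpos : 0 < volume Ω := hΩ.measure_pos volume hne
  set V := (volume Ω).toReal with hV
  have hVpos : 0 < V := ENNReal.toReal_pos hvpos.ne' hfin
  have hVeq : volume Ω = ENNReal.ofReal V := (ENNReal.ofReal_toReal hfin).symm
  have hVle : V ≤ 1 / 10 ^ 9 := by
    have := ENNReal.toReal_mono ENNReal.ofReal_ne_top hsmall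
    rwa [ENNReal.toReal_ofReal (by positivity)] at this
  set lam0 := 1201 / 100 * Real.pi / V with hlam0
  have hlam0pos : 0 < lam0 := by positivity
  have hlam0big : 12 * 3.14 * 10 ^ 9 ≤ lam0 := by
    rw [hlam0, le_div_iff₀ hVpos]
    have h1 : (12 * 3.14 * 10 ^ 9) * V ≤ (12 * 3.14 * 10 ^ 9) * (1 / 10 ^ 9) :=
      mul_le_mul_of_nonneg_left hVle (by norm_num)
    have h2 : (3.14 : ℝ) < Real.pi := Real.pi_gt_d2
    linarith
  rw [hVeq, ← ENNReal.ofReal_div_of_pos hVpos] at hcon
  have hR : ∀ u ∈ L, u ≠ 0 → energy u < lam0 * mass u := by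
    intro u hu h0
    have hm := mass_pos' (hL u hu) h0
    have h1 : ENNReal.ofReal (energy u / mass u) ≤
        ⨆ (u : Cyl → ℝ) (_ : u ∈ L ∧ u ≠ 0), ENNReal.ofReal (energy u / mass u) :=
      le_iSup₂ (f := fun (u : Cyl → ℝ) (_ : u ∈ L ∧ u ≠ 0) => ENNReal.ofReal (energy u / mass u))
        u ⟨hu, h0⟩
    have h2 := h1.trans_lt hcon
    rw [ENNReal.ofReal_lt_ofReal_iff hlam0pos, div_lt_iff₀ hm] at h2
    exact h2
  have hmass1 : ∀ i, mass (w i) = 1 := by
    intro i
    have := hwo i i
    rw [if_pos rfl] at this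
    unfold mass
    rw [← this]
    congr 1
    ext p
    ring
  -- the window
  set f : ℝ → ℝ := fun x => ∑ i, ro (w i) x with hf
  have hfc : Continuous f := continuous_finsetSum _ fun i _ => (hRo Ω (w i) (hwt i)).1
  have hf0 : ∀ x, 0 ≤ f x := fun x => Finset.sum_nonneg fun i _ => (hRo Ω (w i) (hwt i)).2.1 x
  have hfp : ∀ x, f (x + 2 * Real.pi) = f x := fun x =>
    Finset.sum_congr rfl fun i _ => (hRo Ω (w i) (hwt i)).2.2.1 x
  have hfint : ∫ x in (0:ℝ)..(2 * Real.pi), f x = 3 := by
    rw [hf, intervalIntegral.integral_finsetSum]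
    · have : ∀ i, ∫ x in (0:ℝ)..(2 * Real.pi), ro (w i) x = 1 := fun i => by
        rw [(hRo Ω (w i) (hwt i)).2.2.2, hmass1]
      simp [this]
    · intro i _
      exact (hRo Ω (w i) (hwt i)).1.intervalIntegrable _ _
  obtain ⟨a, ha⟩ := hWin f hfc hf0 hfp
  rw [hfint] at ha
  have he0 : win f a ≤ 956 / 10 ^ 6 := by
    refine ha.trans ?_
    unfold wd
    have h2 : (3.14 : ℝ) < Real.pi := Real.pi_gt_d2
    rw [div_mul_eq_mul_div, div_le_iff₀ hpi]
    nlinarith
  obtain ⟨χ, hχ⟩ := hChi
  set lam := 1204 / 100 * Real.pi / V with hlam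
  have hlampos : 0 < lam := by positivity
  have hlamlam : lam = 1204 / 1201 * lam0 := by
    rw [hlam, hlam0]; ring
  have hV' := hVol Ω a hΩ
  refine hPlane (fun i => cutl χ a (w i)) (cutS a Ω) lam hV'.1 hlampos ?_ ?_ ?_
  · have h1 : 1204 / 100 * Real.pi / lam = V := by
      rw [hlam]; field_simp
    rw [h1, ← hVeq]
    exact hV'.2
  · intro i
    exact hTst Ω (w i) χ a hΩ (hwt i) hχ
  · intro c hc
    set u : Cyl → ℝ := ∑ i, c i • w i with hu
    have huL : u ∈ L := Submodule.sum_mem _ fun i _ => Submodule.smul_mem _ _ (hwL i)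
    have hut : IsTest Ω u := hL u huL
    have hup : ∀ p, u p = ∑ i, c i * w i p := by
      intro p
      rw [hu, Finset.sum_apply]
      rfl
    have hlin : lin (fun i => cutl χ a (w i)) c = cutl χ a u := by
      funext q
      unfold lin cutl
      rw [hup, Finset.mul_sum]
      refine Finset.sum_congr rfl fun i _ => ?_
      ring
    set N := ∑ i, c i ^ 2 with hN
    have hNpos : 0 < N := by
      obtain ⟨i, hi⟩ := Function.ne_iff.1 hc
      refine Finset.sum_pos' (fun j _ => sq_nonneg _) ⟨i, Finset.mem_univ _, ?_⟩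
      have hi' : c i ≠ 0 := hi
      positivity
    have hmass : mass u = N := by
      unfold mass
      have h1 : ∀ p, u p ^ 2 = ∑ i, ∑ j, c i * c j * (w i p * w j p) := by
        intro p
        rw [hup, sq, Finset.sum_mul_sum]
        refine Finset.sum_congr rfl fun i _ => Finset.sum_congr rfl fun j _ => ?_
        ring
      simp_rw [h1]
      rw [integral_finsetSum]
      · have h2 : ∀ i, ∫ p : Cyl, ∑ j, c i * c j * (w i p * w j p) = c i ^ 2 := by
          intro i
          rw [integral_finsetSum]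
          · have h3 : ∀ j, ∫ p : Cyl, c i * c j * (w i p * w j p) =
                if i = j then c i * c j else 0 := by
              intro j
              rw [integral_const_mul, hwo i j]
              split_ifs <;> ring
            simp_rw [h3]
            rw [Finset.sum_ite_eq]
            simp [sq]
          · intro j _
            exact (mul_int (hwt i) (hwt j)).const_mul _
        simp_rw [h2]
        rfl
      · intro i _
        apply integrable_finsetSum
        intro j _
        exact (mul_int (hwt i) (hwt j)).const_mul _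
    have hu0 : u ≠ 0 := by
      intro h
      rw [h, mass_zero'] at hmass
      linarith
    have hro : ∀ x, ro u x ≤ N * f x := by
      intro x
      have h1 : ∀ y, u (pt x y) ^ 2 ≤ N * ∑ i, w i (pt x y) ^ 2 := by
        intro y
        rw [hup]
        exact cs3 c fun i => w i (pt x y)
      have h2 : Integrable fun y : ℝ => ∑ i, w i (pt x y) ^ 2 :=
        integrable_finsetSum _ fun i _ => sec_int (hwt i) x
      have h3 : ∫ y, N * ∑ i, w i (pt x y) ^ 2 = N * f x := by
        rw [integral_const_mul, integral_finsetSum]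
        · rfl
        · intro i _
          exact sec_int (hwt i) x
      rw [← h3]
      exact integral_mono (sec_int hut x) (h2.const_mul N) h1
    have hwin : win (ro u) a ≤ N * (956 / 10 ^ 6) := by
      have h1 : win (ro u) a ≤ win (fun x => N * f x) a :=
        win_mono _ _ (hRo Ω u hut).1 (by fun_prop) hro a
      rw [win_mul] at h1
      exact h1.trans (mul_le_mul_of_nonneg_left he0 hNpos.le)
    have hE := hEn Ω u χ a hut hχ
    have hM := hMas Ω u χ a hut hχ
    have hen := hR u huL hu0
    rw [hmass] at hen hM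
    have hwd : (2 / wd) ^ 2 = 16000000 := by unfold wd; norm_num
    rw [hwd] at hE
    show gE (lin (fun i => cutl χ a (w i)) c) < lam * gM (lin (fun i => cutl χ a (w i)) c)
    rw [hlin, hlamlam]
    have hM2 : N * (1 - 956 / 10 ^ 6) ≤ gM (cutl χ a u) := by linarith
    have hM3 : 1204 / 1201 * lam0 * (N * (1 - 956 / 10 ^ 6)) ≤
        1204 / 1201 * lam0 * gM (cutl χ a u) :=
      mul_le_mul_of_nonneg_left hM2 (by positivity)
    have h5 : (12 * 3.14 * 10 ^ 9) * N ≤ lam0 * N := mul_le_mul_of_nonneg_right hlam0big hNpos.le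
    have h6 : gE (cutl χ a u) < 1001 / 1000 * (lam0 * N) +
        1001 * 16000000 * (N * (956 / 10 ^ 6)) := by
      have := mul_le_mul_of_nonneg_left hwin (show (0:ℝ) ≤ 1001 * 16000000 by norm_num)
      linarith
    refine h6.trans_le (le_trans ?_ hM3)
    nlinarith

end Pool.Agent.Work.MP_33c50c_an.K3
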