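import Pool.Agent.Work.MP_33c50c_an.K3.Stmts

set_option autoImplicit false

namespace Pool.Agent.Work.MP_33c50c_an.K3

open MeasureTheory Set Filter Topology

namespace Dini

theorem cc_pos {x : ℝ} (hx : |x| < 1) : 0 < 1 - x ^ 2 := by
  rw [abs_lt] at hx
  nlinarith

theorem hasDerivAt_TT {x : ℝ} (hx : |x| < 1) : HasDerivAt TT (1 / cc x ^ 3) x := by
  have h0 : 0 < 1 - x ^ 2 := cc_pos hx
  have h1 : HasDerivAt (fun x : ℝ => 1 - x ^ 2) (-(2 * x)) x := by
    have := ((hasDerivAt_id x).pow 2).const_sub 1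
    simpa using this
  have h2 := h1.sqrt h0.ne'
  have hs : 0 < √(1 - x ^ 2) := Real.sqrt_pos.2 h0
  have h3 := (hasDerivAt_id x).div h2 hs.ne'
  have h4 : (id / fun y : ℝ => √(1 - y ^ 2)) = TT := by
    ext y
    rfl
  rw [h4] at h3
  refine h3.congr_deriv ?_
  unfold cc
  have hsq : √(1 - x ^ 2) ^ 2 = 1 - x ^ 2 := Real.sq_sqrt h0.le
  simp only [id]
  rw [div_eq_div_iff (by positivity) (by positivity)]
  set w := √(1 - x ^ 2) with hw
  field_simp
  have : x ^ 2 = 1 - w ^ 2 := by linarith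
  nlinarith [this]

theorem TT_mono {x y : ℝ} (hx : |x| < 1) (hy : |y| < 1) (hxy : x ≤ y) : TT x ≤ TT y := by
  have hm : MonotoneOn TT (Ioo (-1) 1) := by
    apply monotoneOn_of_deriv_nonneg (convex_Ioo _ _)
    · intro z hz
      exact (hasDerivAt_TT (abs_lt.2 hz)).continuousAt.continuousWithinAt
    · intro z hz
      rw [interior_Ioo] at hz
      exact (hasDerivAt_TT (abs_lt.2 hz)).differentiableAt.differentiableWithinAt
    · intro z hz
      rw [interior_Ioo] at hz
      rw [(hasDerivAt_TT (abs_lt.2 hz)).deriv]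
      unfold cc
      positivity
  exact hm (abs_lt.1 hx) (abs_lt.1 hy) hxy

end Dini

open Dini in
theorem prfDini : S_Reg → S_Sec → S_Mono → S_Dini := by
  intro hReg hSec hMono u G σ p q hu hG hp hpq hσc hσ1 hσD
  obtain ⟨hmm, -, hee, -, -, -⟩ := hReg u hu
  have hI : ∀ s, HasDerivAt (fun s => ∫ z in p..s, ee u z) (ee u s) s := fun s =>
    (hee.integral_hasStrictDerivAt p s).hasDerivAt
  set Ψ : ℝ → ℝ := fun s => (∫ z in p..s, ee u z) + TT (σ s) * mm u s with hΨ
  have hcont : ContinuousOn Ψ (Icc p q) := by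
    apply ContinuousOn.add
    · exact fun s _ => (hI s).continuousAt.continuousWithinAt
    · apply ContinuousOn.mul
      · intro s hs
        exact (hasDerivAt_TT (hσ1 s hs)).continuousAt.comp_continuousWithinAt (hσc s hs)
      · exact fun s _ => (hmm s).continuousAt.continuousWithinAt
  have hDL : ∀ s ∈ Ico p q, DL Ψ s 0 := by
    intro s hs ε hε
    have hs0 : 0 ≤ s := hp.trans hs.1
    have hσs : |σ s| < 1 := hσ1 s ⟨hs.1, hs.2.le⟩
    set c := cc (σ s) with hc
    have hc0 : 0 < c := Real.sqrt_pos.2 (cc_pos hσs)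
    have hc2 : c ^ 2 = 1 - σ s ^ 2 := Real.sq_sqrt (cc_pos hσs).le
    have hGs : 0 < G s := hG.2.1 s
    set d := c - c ^ 3 / G s ^ 2 with hd
    have hm0 : 0 ≤ mm u s := by
      unfold mm
      exact integral_nonneg fun x => sq_nonneg _
    have hmm0 : ∀ y, 0 ≤ mm u y := by
      intro y
      unfold mm
      exact integral_nonneg fun x => sq_nonneg _
    have hTT : TT (σ s) ^ 2 + 1 = 1 / c ^ 2 := by
      have : TT (σ s) = σ s / c := rfl
      rw [this, div_pow]
      field_simp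
      linarith
    have hsec := hSec u G hu hG (TT (σ s)) s hs0
    -- choice of η
    obtain ⟨η, hη, hηm⟩ : ∃ η : ℝ, 0 < η ∧ η * (mm u s / c ^ 3) ≤ ε / 2 := by
      refine ⟨(ε / 2) / (mm u s / c ^ 3 + 1), by positivity, ?_⟩
      rw [div_mul_eq_mul_div, div_le_iff₀ (by positivity)]
      have : 0 ≤ mm u s / c ^ 3 := by positivity
      nlinarith
    -- comparison function
    set Φ : ℝ → ℝ := fun s' => (∫ z in p..s', ee u z) + TT (σ s + (d - η) * (s' - s)) * mm u s'
      with hΦ
    have hlin : HasDerivAt (fun s' : ℝ => σ s + (d - η) * (s' - s)) (d - η) s := by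
      have := (((hasDerivAt_id s).sub_const s).const_mul (d - η)).const_add (σ s)
      simpa using this
    have hval : σ s + (d - η) * (s - s) = σ s := by ring
    have hTTd : HasDerivAt (fun s' : ℝ => TT (σ s + (d - η) * (s' - s))) (1 / c ^ 3 * (d - η)) s := by
      have h1 : HasDerivAt TT (1 / c ^ 3) (σ s + (d - η) * (s - s)) := by
        rw [hval]
        exact hasDerivAt_TT hσs
      exact h1.comp s hlin
    have hΦd : HasDerivAt Φ (ee u s + (1 / c ^ 3 * (d - η) * mm u s + TT (σ s) * dm u s)) s := by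
      have h1 := (hI s).add (hTTd.mul (hmm s))
      rw [hval] at h1
      exact h1
    have hΦs : Φ s = Ψ s := by
      simp only [hΦ, hΨ, hval]
    have hslope : -(ε / 2) ≤ ee u s + (1 / c ^ 3 * (d - η) * mm u s + TT (σ s) * dm u s) := by
      have h1 : 1 / c ^ 3 * d = TT (σ s) ^ 2 + 1 - 1 / G s ^ 2 := by
        rw [hTT, hd]
        field_simp
      have h2 : 1 / c ^ 3 * (d - η) * mm u s =
          (TT (σ s) ^ 2 + 1 - 1 / G s ^ 2) * mm u s - η * (mm u s / c ^ 3) := by
        rw [← h1]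
        ring
      rw [h2]
      linarith
    -- lower bound for Φ near s
    have h1 : ∀ᶠ s' in 𝓝[>] s, Φ s + (0 - ε) * (s' - s) ≤ Φ s' := by
      have h2 : Tendsto (slope Φ s) (𝓝[>] s)
          (𝓝 (ee u s + (1 / c ^ 3 * (d - η) * mm u s + TT (σ s) * dm u s))) :=
        (hasDerivAt_iff_tendsto_slope.1 hΦd).mono_left
          (nhdsWithin_mono _ fun z hz => (ne_of_gt hz))
      have h3 : ∀ᶠ s' in 𝓝[>] s, -ε < slope Φ s s' :=
        h2.eventually (lt_mem_nhds (by linarith))
      filter_upwards [h3, self_mem_nhdsWithin] with s' h4 h5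
      have h6 : 0 < s' - s := sub_pos.2 h5
      rw [slope_def_field, lt_div_iff₀ h6] at h4
      linarith
    have h2 : ∀ᶠ s' in 𝓝[>] s, σ s + (d - η) * (s' - s) ≤ σ s' := hσD s hs η hη
    have h3 : ∀ᶠ s' in 𝓝[>] s, |σ s + (d - η) * (s' - s)| < 1 := by
      have h4 : ContinuousAt (fun s' : ℝ => |σ s + (d - η) * (s' - s)|) s :=
        hlin.continuousAt.abs
      have h5 : |σ s + (d - η) * (s - s)| < 1 := by rw [hval]; exact hσs
      exact (h4.eventually (gt_mem_nhds h5)).filter_mono nhdsWithin_le_nhds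
    have h4 : ∀ᶠ s' in 𝓝[>] s, s' ∈ Icc p q := by
      have : Ioc s q ∈ 𝓝[>] s := Ioc_mem_nhdsGT hs.2
      filter_upwards [this] with s' hs'
      exact ⟨hs.1.trans hs'.1.le, hs'.2⟩
    filter_upwards [h1, h2, h3, h4] with s' g1 g2 g3 g4
    rw [hΦs] at g1
    refine g1.trans ?_
    have g5 := TT_mono g3 (hσ1 s' g4) g2
    have g6 := mul_le_mul_of_nonneg_right g5 (hmm0 s')
    simp only [hΦ, hΨ]
    linarith
  have hfin := hMono Ψ p q hpq hcont hDL
  simp only [hΨ, intervalIntegral.integral_same, zero_add] at hfin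
  exact hfin

end Pool.Agent.Work.MP_33c50c_an.K3
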