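import Pool.Agent.Work.MP_33c50c_an.K3.Stmts

set_option autoImplicit false

namespace Pool.Agent.Work.MP_33c50c_an.K3

open MeasureTheory Set Filter Topology

namespace Dir

theorem cont_dx {a : ℝ × ℝ → ℝ} (ha : ContDiff ℝ 1 a) : Continuous (dx a) :=
  (ha.continuous_fderiv one_ne_zero).clm_apply continuous_const

theorem cont_dy {a : ℝ × ℝ → ℝ} (ha : ContDiff ℝ 1 a) : Continuous (dy a) :=
  (ha.continuous_fderiv one_ne_zero).clm_apply continuous_const

theorem fderiv_zero_of {a : ℝ × ℝ → ℝ} {p : ℝ × ℝ} (hp : p ∉ tsupport a) : fderiv ℝ a p = 0 := by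
  by_contra h
  exact hp (support_fderiv_subset ℝ (Function.mem_support.2 h))

theorem fd_comp {a b : ℝ × ℝ → ℝ} {β : ℝ → ℝ} (ha : ContDiff ℝ 1 a) (hb : ContDiff ℝ 1 b)
    (hβ : ContDiff ℝ 1 β) (q p : ℝ × ℝ) :
    fderiv ℝ (fun p => β (q.1 * a p + q.2 * b p)) p =
      deriv β (q.1 * a p + q.2 * b p) • (q.1 • fderiv ℝ a p + q.2 • fderiv ℝ b p) := by
  have h1 : HasFDerivAt a (fderiv ℝ a p) p := (ha.differentiable one_ne_zero p).hasFDerivAt
  have h2 : HasFDerivAt b (fderiv ℝ b p) p := (hb.differentiable one_ne_zero p).hasFDerivAt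
  have h3 : HasFDerivAt (fun p => q.1 * a p + q.2 * b p)
      (q.1 • fderiv ℝ a p + q.2 • fderiv ℝ b p) p :=
    (h1.const_mul q.1).add (h2.const_mul q.2)
  have h4 : HasDerivAt β (deriv β (q.1 * a p + q.2 * b p)) (q.1 * a p + q.2 * b p) :=
    (hβ.differentiable one_ne_zero _).hasDerivAt
  exact (h4.comp_hasFDerivAt p h3).fderiv

theorem den_comp {a b : ℝ × ℝ → ℝ} {β : ℝ → ℝ} (ha : ContDiff ℝ 1 a) (hb : ContDiff ℝ 1 b)
    (hβ : ContDiff ℝ 1 β) (q p : ℝ × ℝ) :
    den (fun p => β (q.1 * a p + q.2 * b p)) p =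
      (deriv β (q.1 * a p + q.2 * b p) * (q.1 * dx a p + q.2 * dx b p)) ^ 2 +
      (deriv β (q.1 * a p + q.2 * b p) * (q.1 * dy a p + q.2 * dy b p)) ^ 2 -
      β (q.1 * a p + q.2 * b p) ^ 2 := by
  have h := fd_comp ha hb hβ q p
  unfold den dx dy
  rw [h]
  simp only [ContinuousLinearMap.smul_apply, ContinuousLinearMap.add_apply, smul_eq_mul]

theorem cont_EH {a b : ℝ × ℝ → ℝ} {β : ℝ → ℝ} (ha : Tst a) (hb : Tst b)
    (hβ : ContDiff ℝ 1 β) (h0 : β 0 = 0) (κ s : ℝ) :
    Continuous (fun q : ℝ × ℝ => EH κ s (fun p => β (q.1 * a p + q.2 * b p))) := by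
  have hK : IsCompact (tsupport a ∪ tsupport b) := ha.2.isCompact.union hb.2.isCompact
  have hc1 := cont_dx ha.1
  have hc2 := cont_dy ha.1
  have hc3 := cont_dx hb.1
  have hc4 := cont_dy hb.1
  have hca := ha.1.continuous
  have hcb := hb.1.continuous
  have hcβ := hβ.continuous
  have hcd : Continuous (deriv β) := hβ.continuous_deriv le_rfl
  have hF : Continuous (Function.uncurry fun q p : ℝ × ℝ =>
      den (fun p => β (q.1 * a p + q.2 * b p)) p) := by
    have e : (Function.uncurry fun q p : ℝ × ℝ => den (fun p => β (q.1 * a p + q.2 * b p)) p) =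
        fun z : (ℝ × ℝ) × (ℝ × ℝ) =>
          (deriv β (z.1.1 * a z.2 + z.1.2 * b z.2) * (z.1.1 * dx a z.2 + z.1.2 * dx b z.2)) ^ 2 +
          (deriv β (z.1.1 * a z.2 + z.1.2 * b z.2) * (z.1.1 * dy a z.2 + z.1.2 * dy b z.2)) ^ 2 -
          β (z.1.1 * a z.2 + z.1.2 * b z.2) ^ 2 := by
      funext z
      exact den_comp ha.1 hb.1 hβ z.1 z.2
    rw [e]
    have k1 : Continuous (fun z : (ℝ × ℝ) × (ℝ × ℝ) => z.1.1 * a z.2 + z.1.2 * b z.2) := by
      fun_prop
    have k2 := hcd.comp k1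
    have k3 := hcβ.comp k1
    have k4 : Continuous (fun z : (ℝ × ℝ) × (ℝ × ℝ) => z.1.1 * dx a z.2 + z.1.2 * dx b z.2) := by
      fun_prop
    have k5 : Continuous (fun z : (ℝ × ℝ) × (ℝ × ℝ) => z.1.1 * dy a z.2 + z.1.2 * dy b z.2) := by
      fun_prop
    exact (((k2.mul k4).pow 2).add ((k2.mul k5).pow 2)).sub (k3.pow 2)
  have h1 := continuous_parametric_integral_of_continuous (μ := volume.restrict (hp κ s)) hF hK
  have e2 : (fun q : ℝ × ℝ => EH κ s (fun p => β (q.1 * a p + q.2 * b p))) =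
      fun q : ℝ × ℝ => ∫ p in tsupport a ∪ tsupport b,
        den (fun p => β (q.1 * a p + q.2 * b p)) p ∂(volume.restrict (hp κ s)) := by
    funext q
    unfold EH
    refine (setIntegral_eq_integral_of_forall_compl_eq_zero (s := tsupport a ∪ tsupport b)
      (μ := volume.restrict (hp κ s)) ?_).symm
    intro p hp
    rw [mem_union, not_or] at hp
    rw [den_comp ha.1 hb.1 hβ]
    have ea : a p = 0 := image_eq_zero_of_notMem_tsupport hp.1
    have eb : b p = 0 := image_eq_zero_of_notMem_tsupport hp.2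
    have e1 : dx a p = 0 := by unfold dx; rw [fderiv_zero_of hp.1]; rfl
    have e2 : dy a p = 0 := by unfold dy; rw [fderiv_zero_of hp.1]; rfl
    have e3 : dx b p = 0 := by unfold dx; rw [fderiv_zero_of hp.2]; rfl
    have e4 : dy b p = 0 := by unfold dy; rw [fderiv_zero_of hp.2]; rfl
    rw [ea, eb, e1, e2, e3, e4]
    simp [h0]
  rw [e2]
  exact h1

theorem tst_comb {a b : ℝ × ℝ → ℝ} (ha : Tst a) (hb : Tst b) (c d : ℝ) :
    Tst (fun p => c * a p + d * b p) := by
  refine ⟨(contDiff_const.mul ha.1).add (contDiff_const.mul hb.1), ?_⟩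
  have h1 : HasCompactSupport (fun p => c * a p) := ha.2.mul_left
  have h2 : HasCompactSupport (fun p => d * b p) := hb.2.mul_left
  exact h1.add h2

theorem int_abs {a : ℝ × ℝ → ℝ} (ha : Tst a) : Integrable (fun p => |a p|) := by
  have h := ha.1.continuous.integrable_of_hasCompactSupport (μ := (volume : Measure (ℝ × ℝ))) ha.2
  exact h.abs

end Dir

open Dir

theorem prfDir : S_Beta → S_Trunc → S_Dir := by
  intro hBeta hTrunc a b κ s ha hb hneg
  have hcE0 := cont_EH ha hb (β := fun t => t) contDiff_id rfl κ s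
  have hcE : Continuous (fun θ : ℝ => EH κ s (fun p => Real.cos θ * a p + Real.sin θ * b p)) := by
    have hg : Continuous (fun θ : ℝ => ((Real.cos θ, Real.sin θ) : ℝ × ℝ)) :=
      Real.continuous_cos.prodMk Real.continuous_sin
    have h1 := hcE0.comp hg
    have e : (fun θ : ℝ => EH κ s (fun p => Real.cos θ * a p + Real.sin θ * b p)) =
        (fun q : ℝ × ℝ => EH κ s (fun p => (q.1 * a p + q.2 * b p))) ∘
          fun θ : ℝ => ((Real.cos θ, Real.sin θ) : ℝ × ℝ) := by
      funext θ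
      simp only [Function.comp]
    rw [e]
    exact h1
  -- a uniform bound
  obtain ⟨θ₀, hθ₀, hmax⟩ := (isCompact_Icc (a := (0 : ℝ)) (b := Real.pi)).exists_isMaxOn
    ⟨0, left_mem_Icc.2 Real.pi_pos.le⟩ hcE.continuousOn
  set η : ℝ := -EH κ s (fun p => Real.cos θ₀ * a p + Real.sin θ₀ * b p) with hη
  have hηpos : 0 < η := by
    rw [hη]
    exact neg_pos.2 (hneg θ₀)
  have hηle : ∀ θ ∈ Icc (0 : ℝ) Real.pi,
      EH κ s (fun p => Real.cos θ * a p + Real.sin θ * b p) ≤ -η := by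
    intro θ hθ
    rw [hη, neg_neg]
    exact hmax hθ
  set J : ℝ := (∫ p, |a p|) + ∫ p, |b p| with hJ
  have hJ0 : 0 ≤ J := add_nonneg (integral_nonneg fun _ => abs_nonneg _)
    (integral_nonneg fun _ => abs_nonneg _)
  set ε : ℝ := η / (3 * (J + 1)) with hε
  have hεpos : 0 < ε := by positivity
  have hεJ : 3 * ε * J < η := by
    have h1 : 3 * ε * (J + 1) = η := by
      rw [hε]
      field_simp
    nlinarith
  obtain ⟨β, hβ⟩ := hBeta ε hεpos
  have hβ0 : β 0 = 0 := hβ.2.1 0 hεpos.le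
  have hcJ := cont_EH ha hb hβ.1 hβ0 κ s
  set w : ℝ → ℝ × ℝ → ℝ := fun θ p => Real.cos θ * a p + Real.sin θ * b p with hw
  have hc1 : Continuous (fun θ : ℝ => EH κ s (fun p => β (w θ p))) := by
    have hg : Continuous (fun θ : ℝ => ((Real.cos θ, Real.sin θ) : ℝ × ℝ)) :=
      Real.continuous_cos.prodMk Real.continuous_sin
    have h1 := hcJ.comp hg
    have e : (fun θ : ℝ => EH κ s (fun p => β (w θ p))) =
        (fun q : ℝ × ℝ => EH κ s (fun p => β (q.1 * a p + q.2 * b p))) ∘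
          fun θ : ℝ => ((Real.cos θ, Real.sin θ) : ℝ × ℝ) := by
      funext θ
      simp only [Function.comp, hw]
    rw [e]
    exact h1
  have hc2 : Continuous (fun θ : ℝ => EH κ s (fun p => β (-w θ p))) := by
    have hg : Continuous (fun θ : ℝ => ((-Real.cos θ, -Real.sin θ) : ℝ × ℝ)) :=
      Real.continuous_cos.neg.prodMk Real.continuous_sin.neg
    have h1 := hcJ.comp hg
    have e : (fun θ : ℝ => EH κ s (fun p => β (-w θ p))) =
        (fun q : ℝ × ℝ => EH κ s (fun p => β (q.1 * a p + q.2 * b p))) ∘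
          fun θ : ℝ => ((-Real.cos θ, -Real.sin θ) : ℝ × ℝ) := by
      funext θ
      simp only [Function.comp, hw]
      congr 1
      funext p
      congr 1
      ring
    rw [e]
    exact h1
  set f : ℝ → ℝ := fun θ => EH κ s (fun p => β (w θ p)) - EH κ s (fun p => β (-w θ p)) with hf
  have hfc : Continuous f := hc1.sub hc2
  have hfpi : f Real.pi = -f 0 := by
    have e1 : ∀ p, w Real.pi p = -w 0 p := by
      intro p
      simp [hw]
    simp only [hf, e1, neg_neg]
    ring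
  have hivt := intermediate_value_uIcc (a := (0 : ℝ)) (b := Real.pi) hfc.continuousOn
  have h0mem : (0 : ℝ) ∈ uIcc (f 0) (f Real.pi) := by
    rw [hfpi, mem_uIcc]
    rcases le_total (f 0) 0 with h | h
    · left; exact ⟨h, neg_nonneg.2 h⟩
    · right; exact ⟨neg_nonpos.2 h, h⟩
  obtain ⟨θ, hθ, hfθ⟩ := hivt h0mem
  rw [uIcc_of_le Real.pi_pos.le] at hθ
  have hwT : Tst (w θ) := tst_comb ha hb _ _
  obtain ⟨hT1, hT2, hsum⟩ := hTrunc (w θ) ε β hεpos hβ hwT
  have hE := hsum κ s
  have hEw := hηle θ hθ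
  have hint : ∫ p, |w θ p| ≤ J := by
    rw [hJ, ← integral_add (int_abs ha) (int_abs hb)]
    refine integral_mono (int_abs hwT) ((int_abs ha).add (int_abs hb)) fun p => ?_
    simp only [hw]
    refine (abs_add_le _ _).trans ?_
    rw [abs_mul, abs_mul]
    have h1 := Real.abs_cos_le_one θ
    have h2 := Real.abs_sin_le_one θ
    have h3 := abs_nonneg (a p)
    have h4 := abs_nonneg (b p)
    nlinarith
  have hneg2 : EH κ s (fun p => β (w θ p)) + EH κ s (fun p => β (-w θ p)) < 0 := by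
    have h1 : 3 * ε * ∫ p, |w θ p| ≤ 3 * ε * J := mul_le_mul_of_nonneg_left hint (by positivity)
    have h2 : EH κ s (w θ) ≤ -η := hEw
    linarith
  have heq : EH κ s (fun p => β (w θ p)) = EH κ s (fun p => β (-w θ p)) := by
    simp only [hf] at hfθ
    linarith
  have hwc : Continuous (w θ) := hwT.1.continuous
  have hsub : ∀ p, w θ p ≠ 0 → p ∈ tsupport a ∪ tsupport b := by
    intro p hp
    by_contra hcon
    rw [mem_union, not_or] at hcon
    apply hp
    simp only [hw]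
    rw [image_eq_zero_of_notMem_tsupport hcon.1, image_eq_zero_of_notMem_tsupport hcon.2]
    ring
  have hK : IsCompact (tsupport a ∪ tsupport b) := ha.2.isCompact.union hb.2.isCompact
  have hsub1 : {p | ε ≤ w θ p} ⊆ tsupport a ∪ tsupport b := fun p hp =>
    hsub p (hεpos.trans_le hp).ne'
  have hsub2 : {p | ε ≤ -w θ p} ⊆ tsupport a ∪ tsupport b := fun p hp => by
    apply hsub p
    intro h
    have h1 : ε ≤ -w θ p := hp
    rw [h] at h1
    linarith
  refine ⟨fun p => β (w θ p), fun p => β (-w θ p), {p | ε ≤ w θ p}, {p | ε ≤ -w θ p}, hT1, hT2,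
    hK.of_isClosed_subset (isClosed_le continuous_const hwc) hsub1,
    hK.of_isClosed_subset (isClosed_le continuous_const hwc.neg) hsub2, ?_, union_subset hsub1 hsub2,
    ?_, ?_, ?_, ?_⟩
  · rw [Set.disjoint_left]
    intro p hp1 hp2
    have h1 : ε ≤ w θ p := hp1
    have h2 : ε ≤ -w θ p := hp2
    linarith
  · intro p hp
    by_contra hcon
    exact hp (hβ.2.1 _ (not_le.1 hcon).le)
  · intro p hp
    by_contra hcon
    exact hp (hβ.2.1 _ (not_le.1 hcon).le)
  · linarith
  · linarith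

end Pool.Agent.Work.MP_33c50c_an.K3
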