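import Mathlib
import Pool.Agent.Work.MP_33c50c_an.K3.Stmts

namespace Pool.Agent.Work.MP_33c50c_an.K3

open MeasureTheory Set Filter Topology

namespace Euc

/-- the plane as a Euclidean space -/
noncomputable def E : (ℝ × ℝ) ≃L[ℝ] EuclideanSpace ℝ (Fin 2) :=
  (ContinuousLinearEquiv.finTwoArrow ℝ ℝ).symm.trans (EuclideanSpace.equiv (Fin 2) ℝ).symm

lemma E_mp : MeasurePreserving (E : ℝ × ℝ → EuclideanSpace ℝ (Fin 2)) volume volume := by
  have h1 : MeasurePreserving (MeasurableEquiv.finTwoArrow (α := ℝ)).symm volume volume :=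
    (volume_preserving_finTwoArrow ℝ).symm
  have h2 : MeasurePreserving (@WithLp.toLp 2 (Fin 2 → ℝ)) volume volume :=
    PiLp.volume_preserving_toLp (Fin 2)
  exact h2.comp h1

lemma E_emb : MeasurableEmbedding (E : ℝ × ℝ → EuclideanSpace ℝ (Fin 2)) :=
  E.toHomeomorph.measurableEmbedding

lemma E_apply (x y : ℝ) : E (x, y) = WithLp.toLp 2 ![x, y] := rfl

lemma E_one : E (1, 0) = EuclideanSpace.single 0 (1:ℝ) := by
  rw [E_apply]
  ext i
  fin_cases i <;> simp

lemma E_two : E (0, 1) = EuclideanSpace.single 1 (1:ℝ) := by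
  rw [E_apply]
  ext i
  fin_cases i <;> simp

lemma norm_dual (L : EuclideanSpace ℝ (Fin 2) →L[ℝ] ℝ) :
    ‖L‖ ^ 2 = L (EuclideanSpace.single 0 1) ^ 2 + L (EuclideanSpace.single 1 1) ^ 2 := by
  obtain ⟨g, rfl⟩ := (InnerProductSpace.toDual ℝ (EuclideanSpace ℝ (Fin 2))).surjective L
  rw [LinearIsometryEquiv.norm_map, EuclideanSpace.norm_sq_eq, Fin.sum_univ_two,
    InnerProductSpace.toDual_apply_apply, InnerProductSpace.toDual_apply_apply,
    EuclideanSpace.inner_single_right, EuclideanSpace.inner_single_right]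
  simp

lemma den_comp (u : EuclideanSpace ℝ (Fin 2) → ℝ) (hu : ContDiff ℝ 1 u) (p : ℝ × ℝ) :
    dx (fun q => u (E q)) p ^ 2 + dy (fun q => u (E q)) p ^ 2 = ‖fderiv ℝ u (E p)‖ ^ 2 := by
  have h1 : fderiv ℝ (fun q => u (E q)) p = (fderiv ℝ u (E p)).comp (E : ℝ × ℝ →L[ℝ] _) := by
    have h2 : HasFDerivAt u (fderiv ℝ u (E p)) (E p) :=
      (hu.differentiable one_ne_zero (E p)).hasFDerivAt
    exact (h2.comp p E.hasFDerivAt).fderiv
  unfold dx dy
  rw [h1, norm_dual]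
  simp only [ContinuousLinearMap.comp_apply, ContinuousLinearEquiv.coe_coe, E_one, E_two]

lemma gE_comp (u : EuclideanSpace ℝ (Fin 2) → ℝ) (hu : ContDiff ℝ 1 u) :
    gE (fun q => u (E q)) = ∫ x, ‖fderiv ℝ u x‖ ^ 2 := by
  unfold gE
  simp_rw [den_comp u hu]
  exact E_mp.integral_comp E_emb (fun x => ‖fderiv ℝ u x‖ ^ 2)

lemma gM_comp (u : EuclideanSpace ℝ (Fin 2) → ℝ) :
    gM (fun q => u (E q)) = ∫ x, u x ^ 2 := by
  unfold gM
  exact E_mp.integral_comp E_emb (fun x => u x ^ 2)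

end Euc

/-- Polya's inequality for the third eigenvalue, in the Euclidean plane, with an explicit gain. -/
theorem prfEuc : S_Plane → ∀ Ω : Set (EuclideanSpace ℝ (Fin 2)), IsOpen Ω → volume Ω ≠ ⊤ →
    ∀ V : Submodule ℝ (EuclideanSpace ℝ (Fin 2) → ℝ),
      (∀ u ∈ V, ContDiff ℝ 1 u ∧ HasCompactSupport u ∧ tsupport u ⊆ Ω) →
      Module.finrank ℝ V = 3 → ∃ u ∈ V, u ≠ 0 ∧
        1204 / 100 * Real.pi * (∫ x, u x ^ 2) ≤ (volume Ω).toReal * ∫ x, ‖fderiv ℝ u x‖ ^ 2 := by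
  intro hP Ω hΩ hfin V hV hdim
  by_contra hcon
  push Not at hcon
  haveI : FiniteDimensional ℝ V := Module.finite_of_finrank_pos (by omega)
  let b : Module.Basis (Fin 3) ℝ V := Module.finBasisOfFinrankEq ℝ V hdim
  have hne : ((b 0 : V) : EuclideanSpace ℝ (Fin 2) → ℝ) ≠ 0 := by
    intro h
    exact b.ne_zero 0 (Subtype.ext h)
  -- the area is positive
  have hpos : 0 < (volume Ω).toReal := by
    obtain ⟨x, hx⟩ := Function.ne_iff.mp hne
    have hxΩ : x ∈ Ω := (hV _ (b 0).2).2.2 (subset_tsupport _ (Function.mem_support.mpr hx))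
    exact ENNReal.toReal_pos (hΩ.measure_pos volume ⟨x, hxΩ⟩).ne' hfin
  set A := (volume Ω).toReal with hA
  have hlam : 0 < 1204 / 100 * Real.pi / A := by positivity
  refine hP (fun i q => (b i : EuclideanSpace ℝ (Fin 2) → ℝ) (Euc.E q)) (Euc.E ⁻¹' Ω)
    (1204 / 100 * Real.pi / A) (hΩ.preimage Euc.E.continuous) hlam ?_ ?_ ?_
  · have h1 : volume (Euc.E ⁻¹' Ω) = volume Ω :=
      Euc.E_mp.measure_preimage hΩ.measurableSet.nullMeasurableSet
    rw [h1]
    have h2 : 1204 / 100 * Real.pi / (1204 / 100 * Real.pi / A) = A := by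
      field_simp
    rw [h2, hA, ENNReal.ofReal_toReal hfin]
  · intro i
    obtain ⟨h1, h2, h3⟩ := hV _ (b i).2
    refine ⟨⟨h1.comp Euc.E.contDiff, h2.comp_homeomorph Euc.E.toHomeomorph⟩, ?_⟩
    have h4 : tsupport (fun q => (b i : EuclideanSpace ℝ (Fin 2) → ℝ) (Euc.E q)) =
        Euc.E ⁻¹' tsupport (b i : EuclideanSpace ℝ (Fin 2) → ℝ) :=
      tsupport_comp_eq_preimage _ Euc.E.toHomeomorph
    show tsupport (fun q => (b i : EuclideanSpace ℝ (Fin 2) → ℝ) (Euc.E q)) ⊆ _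
    rw [h4]
    exact preimage_mono h3
  · intro c hc
    set w : V := ∑ i, c i • b i with hw
    have hw0 : w ≠ 0 := by
      intro h0
      apply hc
      have := Fintype.linearIndependent_iff.mp b.linearIndependent c h0
      funext i; exact this i
    have hwf : (w : EuclideanSpace ℝ (Fin 2) → ℝ) ≠ 0 := fun h => hw0 (Subtype.ext h)
    have e : lin (fun i q => (b i : EuclideanSpace ℝ (Fin 2) → ℝ) (Euc.E q)) c =
        fun q => (w : EuclideanSpace ℝ (Fin 2) → ℝ) (Euc.E q) := by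
      funext q
      simp [lin, hw, Fin.sum_univ_three]
    have h := hcon w w.2 hwf
    rw [e, Euc.gE_comp _ (hV _ w.2).1, Euc.gM_comp]
    rw [div_mul_eq_mul_div, lt_div_iff₀ hpos]
    linarith

end Pool.Agent.Work.MP_33c50c_an.K3
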