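import Pool.Agent.Work.MP_33c50c_an.K3.Stmts

namespace Pool.Agent.Work.MP_33c50c_an.K3

open MeasureTheory Set Filter Topology

namespace FK1

/-- the length of the part of `V` to the left of `x` -/
noncomputable def m (V : Set ℝ) (x : ℝ) : ℝ := volume.real (V ∩ Iic x)

lemma m_sub {V : Set ℝ} (hV : MeasurableSet V) (hfin : volume V ≠ ⊤) {x y : ℝ} (h : x ≤ y) :
    m V y - m V x = volume.real (V ∩ Ioc x y) := by
  have h1 : V ∩ Iic y = (V ∩ Iic x) ∪ (V ∩ Ioc x y) := by
    rw [← inter_union_distrib_left, Iic_union_Ioc_eq_Iic h]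
  have h2 : Disjoint (V ∩ Iic x) (V ∩ Ioc x y) :=
    (Iic_disjoint_Ioc le_rfl).mono inter_subset_right inter_subset_right
  have h3 : volume.real (V ∩ Iic y) = volume.real (V ∩ Iic x) + volume.real (V ∩ Ioc x y) := by
    rw [h1, measureReal_union h2 (hV.inter measurableSet_Ioc)
      (ne_top_of_le_ne_top hfin (measure_mono inter_subset_left))
      (ne_top_of_le_ne_top hfin (measure_mono inter_subset_left))]
  rw [m, m, h3]
  ring

lemma m_sub_full {V : Set ℝ} (hV : MeasurableSet V) (hfin : volume V ≠ ⊤) {x y : ℝ} (h : x ≤ y)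
    (hs : Ioc x y ⊆ V) : m V y - m V x = y - x := by
  rw [m_sub hV hfin h, inter_eq_right.2 hs, Real.volume_real_Ioc_of_le h]

lemma m_nonneg (V : Set ℝ) (x : ℝ) : 0 ≤ m V x := measureReal_nonneg

lemma m_le {V : Set ℝ} (hfin : volume V ≠ ⊤) (x : ℝ) : m V x ≤ volume.real V :=
  measureReal_mono inter_subset_left hfin

lemma m_cont {V : Set ℝ} (hV : MeasurableSet V) (hfin : volume V ≠ ⊤) : Continuous (m V) := by
  refine (LipschitzWith.of_le_add (fun x y => ?_)).continuous
  rcases le_total x y with h | h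
  · have h1 := m_sub hV hfin h
    have h2 : 0 ≤ volume.real (V ∩ Ioc x y) := measureReal_nonneg
    have h3 : 0 ≤ dist x y := dist_nonneg
    linarith
  · have h1 := m_sub hV hfin h
    have h2 : volume.real (V ∩ Ioc y x) ≤ volume.real (Ioc y x) :=
      measureReal_mono inter_subset_right (by
        rw [Real.volume_Ioc]; exact ENNReal.ofReal_ne_top)
    rw [Real.volume_real_Ioc_of_le h] at h2
    have h3 : dist x y = x - y := by rw [Real.dist_eq, abs_of_nonneg (sub_nonneg.2 h)]
    linarith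

lemma m_deriv {V : Set ℝ} (hV : IsOpen V) (hfin : volume V ≠ ⊤) {x : ℝ} (hx : x ∈ V) :
    HasDerivAt (m V) 1 x := by
  have h1 : HasDerivAt (fun y => m V x + (y - x)) 1 x :=
    ((hasDerivAt_id x).sub_const x).const_add (m V x)
  refine h1.congr_of_eventuallyEq ?_
  obtain ⟨ε, hε, hball⟩ := Metric.isOpen_iff.1 hV x hx
  filter_upwards [Metric.ball_mem_nhds x hε] with y hy
  have hy' : |y - x| < ε := by rw [← Real.dist_eq]; exact hy
  have hy2 := abs_lt.1 hy'
  rcases le_total x y with h | h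
  · have h2 := m_sub_full hV.measurableSet hfin h (fun z hz => hball (by
      rw [Metric.mem_ball, Real.dist_eq, abs_lt]
      constructor <;> linarith [hz.1, hz.2]))
    linarith
  · have h2 := m_sub_full hV.measurableSet hfin h (fun z hz => hball (by
      rw [Metric.mem_ball, Real.dist_eq, abs_lt]
      constructor <;> linarith [hz.1, hz.2]))
    linarith

/-- the function `cot (s) / t` -/
noncomputable def ct (t s : ℝ) : ℝ := t⁻¹ * (Real.cos s / Real.sin s)

lemma ct_deriv {t s : ℝ} (hs : Real.sin s ≠ 0) {θ : ℝ → ℝ} {x : ℝ} (hθ : HasDerivAt θ t⁻¹ x)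
    (hx : θ x = s) : HasDerivAt (fun y => ct t (θ y)) (-((t⁻¹) ^ 2 + ct t s ^ 2)) x := by
  subst hx
  have h1 := ((hθ.cos).div (hθ.sin) hs).const_mul t⁻¹
  have h3 := Real.sin_sq_add_cos_sq (θ x)
  refine h1.congr_deriv ?_
  rw [ct]
  field_simp
  ring_nf

lemma main {f : ℝ → ℝ} {g t : ℝ} (hf : ContDiff ℝ 1 f) (hfc : HasCompactSupport f) (hg : 0 < g)
    (hvol : volume {x | f x ≠ 0} ≤ ENNReal.ofReal (Real.pi * g)) (ht : g < t) :
    (∫ x, f x ^ 2) ≤ t ^ 2 * ∫ x, deriv f x ^ 2 := by
  have hπ := Real.pi_pos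
  have ht0 : 0 < t := hg.trans ht
  set V : Set ℝ := {x | f x ≠ 0} with hVdef
  have hVo : IsOpen V := isOpen_ne_fun hf.continuous continuous_const
  have hVf : volume V ≠ ⊤ := ne_top_of_le_ne_top ENNReal.ofReal_ne_top hvol
  have hVL : volume.real V ≤ Real.pi * g :=
    ENNReal.toReal_le_of_le_ofReal (by positivity) hvol
  set e0 : ℝ := Real.pi * (t - g) / 2 with he0
  have he0p : 0 < e0 := by
    have : 0 < t - g := by linarith
    positivity
  set θ : ℝ → ℝ := fun x => (m V x + e0) / t with hθ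
  have hθc : Continuous θ := ((m_cont hVo.measurableSet hVf).add continuous_const).div_const t
  have hθm : ∀ x, θ x ∈ Icc (e0 / t) ((Real.pi * g + e0) / t) := by
    intro x
    have h1 := m_nonneg V x
    have h2 := m_le hVf x
    constructor
    · exact div_le_div_of_nonneg_right (by linarith) ht0.le
    · exact div_le_div_of_nonneg_right (by linarith) ht0.le
  have hsin : ∀ s ∈ Icc (e0 / t) ((Real.pi * g + e0) / t), 0 < Real.sin s := by
    intro s hs
    refine Real.sin_pos_of_pos_of_lt_pi (lt_of_lt_of_le (div_pos he0p ht0) hs.1)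
      (lt_of_le_of_lt hs.2 ?_)
    rw [div_lt_iff₀ ht0, he0]
    nlinarith
  have hctc : ContinuousOn (ct t) (Icc (e0 / t) ((Real.pi * g + e0) / t)) :=
    continuousOn_const.mul (Real.continuous_cos.continuousOn.div Real.continuous_sin.continuousOn
      (fun s hs => (hsin s hs).ne'))
  set φ : ℝ → ℝ := fun x => ct t (θ x) with hφ
  have hφc : Continuous φ := by
    rw [← continuousOn_univ]
    exact hctc.comp hθc.continuousOn (fun x _ => hθm x)
  obtain ⟨B, hB⟩ := isCompact_Icc.exists_bound_of_continuousOn hctc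
  have hφB : ∀ x, |φ x| ≤ B := fun x => hB (θ x) (hθm x)
  have hfd : ∀ x, HasDerivAt f (deriv f x) x := fun x =>
    (hf.differentiable (by norm_num)).differentiableAt.hasDerivAt
  have hf'c : Continuous (deriv f) := hf.continuous_deriv le_rfl
  -- the derivative of `φ f ^ 2`
  set F' : ℝ → ℝ := fun x => -((t⁻¹) ^ 2 + φ x ^ 2) * f x ^ 2 + φ x * (2 * f x * deriv f x)
    with hF'
  have hsq : ∀ x, HasDerivAt (fun y => f y ^ 2) (2 * f x * deriv f x) x := by
    intro x
    refine ((hfd x).pow 2).congr_deriv ?_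
    simp
  have hFd : ∀ x, HasDerivAt (fun y => φ y * f y ^ 2) (F' x) x := by
    intro x
    by_cases hx : x ∈ V
    · have h1 : HasDerivAt θ t⁻¹ x := by
        have h2 := ((m_deriv hVo hVf hx).add_const e0).div_const t
        rw [one_div] at h2
        exact h2
      have h3 := ct_deriv (hsin _ (hθm x)).ne' h1 rfl
      exact h3.mul (hsq x)
    · have hx0 : f x = 0 := by
        by_contra h
        exact hx h
      have h1 : F' x = 0 := by
        rw [hF']
        simp [hx0]
      rw [h1]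
      have h2 := hsq x
      rw [hx0, mul_zero, zero_mul] at h2
      rw [hasDerivAt_iff_isLittleO] at h2 ⊢
      simp only [hx0, smul_zero, sub_zero] at h2 ⊢
      have e1 : (fun x' => φ x' * f x' ^ 2 - φ x * 0 ^ 2) = fun x' => φ x' * f x' ^ 2 := by
        funext x'; ring
      have e2 : (fun x' => f x' ^ 2 - 0 ^ 2) = fun x' => f x' ^ 2 := by
        funext x'; ring
      rw [e1]
      rw [e2] at h2
      refine Asymptotics.IsBigO.trans_isLittleO ?_ h2
      refine Asymptotics.IsBigO.of_bound B (Eventually.of_forall fun x' => ?_)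
      rw [norm_mul]
      exact mul_le_mul_of_nonneg_right (hφB x') (norm_nonneg _)
  have hc2 : HasCompactSupport (fun x => f x ^ 2) := by
    have h := hfc.mul_left (f := f)
    refine h.mono' ?_
    refine subset_trans ?_ subset_closure
    intro x hx
    rw [Function.mem_support] at hx ⊢
    show f x * f x ≠ 0
    rwa [← sq]
  have hF'c : Continuous F' := by
    have h1 := hf.continuous
    rw [hF']
    fun_prop
  have hF's : HasCompactSupport F' := by
    refine hfc.mono' (subset_trans ?_ subset_closure)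
    intro x hx
    rw [Function.mem_support] at hx ⊢
    intro h
    apply hx
    rw [hF']
    simp [h]
  have hFi : Integrable (fun x => φ x * f x ^ 2) :=
    (hφc.mul (hf.continuous.pow 2)).integrable_of_hasCompactSupport hc2.mul_left
  have hF'i : Integrable F' := hF'c.integrable_of_hasCompactSupport hF's
  have hint : ∫ x, F' x = 0 := integral_eq_zero_of_hasDerivAt_of_integrable hFd hF'i hFi
  have hf2i : Integrable (fun x => f x ^ 2) :=
    (hf.continuous.pow 2).integrable_of_hasCompactSupport hc2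
  have hd2i : Integrable (fun x => deriv f x ^ 2) := by
    refine (hf'c.pow 2).integrable_of_hasCompactSupport ?_
    refine hfc.deriv.mono' (subset_trans ?_ subset_closure)
    intro x hx
    rw [Function.mem_support] at hx ⊢
    intro h
    apply hx
    simp [h]
  have h0 : 0 ≤ ∫ x, (deriv f x - φ x * f x) ^ 2 := integral_nonneg fun x => sq_nonneg _
  have e : ∀ x, (deriv f x - φ x * f x) ^ 2 = deriv f x ^ 2 - F' x - (t⁻¹) ^ 2 * f x ^ 2 := by
    intro x
    rw [hF']
    ring
  have e5 : (fun x => (deriv f x - φ x * f x) ^ 2) =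
      fun x => (deriv f x ^ 2 - F' x) - (t⁻¹) ^ 2 * f x ^ 2 := funext e
  have h6 : ∫ x, (deriv f x ^ 2 - F' x) - (t⁻¹) ^ 2 * f x ^ 2 =
      (∫ x, (deriv f x ^ 2 - F' x)) - ∫ x, (t⁻¹) ^ 2 * f x ^ 2 :=
    integral_sub (hd2i.sub hF'i) (hf2i.const_mul _)
  have h7 : ∫ x, (deriv f x ^ 2 - F' x) = (∫ x, deriv f x ^ 2) - ∫ x, F' x :=
    integral_sub hd2i hF'i
  rw [e5, h6, h7, hint, integral_const_mul] at h0
  have h1 : (t⁻¹) ^ 2 * ∫ x, f x ^ 2 ≤ ∫ x, deriv f x ^ 2 := by linarith
  have h2 := mul_le_mul_of_nonneg_left h1 (sq_nonneg t)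
  have h3 : t ^ 2 * ((t⁻¹) ^ 2 * ∫ x, f x ^ 2) = ∫ x, f x ^ 2 := by
    rw [← mul_assoc, ← mul_pow, mul_inv_cancel₀ ht0.ne', one_pow, one_mul]
  rw [h3] at h2
  exact h2

end FK1

/-- Faber-Krahn on the line -/
theorem prfFK1 : S_FK1 := by
  intro f g hf hfc hg hvol
  have h1 : Tendsto (fun t : ℝ => t ^ 2 * ∫ x, deriv f x ^ 2) (𝓝[>] g)
      (𝓝 (g ^ 2 * ∫ x, deriv f x ^ 2)) :=
    (((continuous_pow 2).mul continuous_const).tendsto g).mono_left nhdsWithin_le_nhds
  exact ge_of_tendsto h1 (eventually_nhdsWithin_of_forall fun t ht => FK1.main hf hfc hg hvol ht)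

end Pool.Agent.Work.MP_33c50c_an.K3
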