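import Mathlib
import Pool.Agent.Work.MP_33c50c_an.K3.Stmts

set_option autoImplicit false

namespace Pool.Agent.Work.MP_33c50c_an.K3

open MeasureTheory Set Filter Topology

namespace Four

theorem supp_lin (v : Fin 3 → ℝ × ℝ → ℝ) (c : Fin 3 → ℝ) :
    Function.support (lin v c) ⊆ ⋃ i, tsupport (v i) := by
  intro p hp
  by_contra hcon
  apply hp
  simp only [mem_iUnion, not_exists] at hcon
  show ∑ i, c i * v i p = 0
  refine Finset.sum_eq_zero fun i _ => ?_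
  rw [image_eq_zero_of_notMem_tsupport (hcon i), mul_zero]

theorem tsupp_lin (v : Fin 3 → ℝ × ℝ → ℝ) (c : Fin 3 → ℝ) :
    tsupport (lin v c) ⊆ ⋃ i, tsupport (v i) :=
  closure_minimal (supp_lin v c) (isClosed_iUnion_of_finite fun i => isClosed_tsupport _)

theorem tst_lin (v : Fin 3 → ℝ × ℝ → ℝ) (hv : ∀ i, Tst (v i)) (c : Fin 3 → ℝ) :
    Tst (lin v c) := by
  constructor
  · show ContDiff ℝ 1 (fun p => ∑ i, c i * v i p)
    exact ContDiff.sum fun i _ => contDiff_const.mul (hv i).1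
  · exact HasCompactSupport.of_support_subset_isCompact
      (isCompact_iUnion fun i => (hv i).2) (supp_lin v c)

theorem lin_comb (v : Fin 3 → ℝ × ℝ → ℝ) (a b : Fin 3 → ℝ) (θ : ℝ) :
    (fun p => Real.cos θ * lin v a p + Real.sin θ * lin v b p) =
      lin v (fun i => Real.cos θ * a i + Real.sin θ * b i) := by
  funext p
  simp only [lin, Finset.mul_sum, ← Finset.sum_add_distrib]
  refine Finset.sum_congr rfl fun i _ => ?_
  ring

theorem key (hDir : S_Dir) (v : Fin 3 → ℝ × ℝ → ℝ) (Ω : Set (ℝ × ℝ))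
    (hv : ∀ i, Tst (v i) ∧ tsupport (v i) ⊆ Ω) (κ s : ℝ) (a b : Fin 3 → ℝ)
    (h : ∀ θ : ℝ, EH κ s (lin v (fun i => Real.cos θ * a i + Real.sin θ * b i)) < 0) :
    ∃ (u₁ u₂ : ℝ × ℝ → ℝ) (K₁ K₂ : Set (ℝ × ℝ)), Tst u₁ ∧ Tst u₂ ∧ IsCompact K₁ ∧ IsCompact K₂ ∧
      Disjoint K₁ K₂ ∧ K₁ ∪ K₂ ⊆ Ω ∧ (∀ p, u₁ p ≠ 0 → p ∈ K₁) ∧ (∀ p, u₂ p ≠ 0 → p ∈ K₂) ∧
      EH κ s u₁ < 0 ∧ EH κ s u₂ < 0 := by
  obtain ⟨u₁, u₂, K₁, K₂, h1, h2, h3, h4, h5, h6, h7, h8, h9, h10⟩ :=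
    hDir (lin v a) (lin v b) κ s (tst_lin v (fun i => (hv i).1) a)
      (tst_lin v (fun i => (hv i).1) b) (fun θ => by rw [lin_comb]; exact h θ)
  have hU : (⋃ i, tsupport (v i)) ⊆ Ω := iUnion_subset fun i => (hv i).2
  exact ⟨u₁, u₂, K₁, K₂, h1, h2, h3, h4, h5, h6.trans (union_subset
    ((tsupp_lin v a).trans hU) ((tsupp_lin v b).trans hU)), h7, h8, h9, h10⟩

end Four

theorem prfFour : S_Mat → S_Conn → S_Dir → S_Four := by
  intro hMat hConn hDir v Ω hv hneg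
  obtain ⟨P, N, D, S, hP, hN, hD, hPN, cP, cN, sP, sN, zP, zN⟩ := hMat v (fun i => (hv i).1)
  have hDneg : NegD D := fun c hc => by
    rw [← hD]; linarith [hneg c hc]
  obtain ⟨s, ⟨a, b, hab⟩, ⟨a', b', hab'⟩⟩ := hConn P N D S hDneg hPN cP cN sP sN zP zN
  refine ⟨s, ?_⟩
  rintro κ (rfl | rfl)
  · exact Four.key hDir v Ω hv 1 s a b fun θ => by rw [hP]; exact hab θ
  · exact Four.key hDir v Ω hv (-1) s a' b' fun θ => by rw [hN]; exact hab' θ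

end Pool.Agent.Work.MP_33c50c_an.K3
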