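import Mathlib
import Pool.Agent.Work.MP_33c50c_an.K3.Stmts

namespace Pool.Agent.Work.MP_33c50c_an.K3

open MeasureTheory Set Filter Topology

namespace Hom

theorem fder (u : ℝ × ℝ → ℝ) (hu : Differentiable ℝ u) (c : ℝ) (p v : ℝ × ℝ) :
    fderiv ℝ (fun p => u (c • p)) p v = c * fderiv ℝ u (c • p) v := by
  have h1 : HasFDerivAt (fun p : ℝ × ℝ => c • p) (c • ContinuousLinearMap.id ℝ (ℝ × ℝ)) p :=
    (hasFDerivAt_id p).const_smul c
  have h2 : HasFDerivAt (fun p => u (c • p))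
      ((fderiv ℝ u (c • p)).comp (c • ContinuousLinearMap.id ℝ (ℝ × ℝ))) p :=
    (hu (c • p)).hasFDerivAt.comp p h1
  rw [h2.fderiv]
  simp

theorem hint (f : ℝ × ℝ → ℝ) (l : ℝ) (hl : 0 < l) :
    ∫ p : ℝ × ℝ, f (l⁻¹ • p) = l ^ 2 * ∫ p, f p := by
  have h := Measure.integral_comp_inv_smul (volume : Measure (ℝ × ℝ)) f l
  have h2 : Module.finrank ℝ (ℝ × ℝ) = 2 := by simp
  rw [h2, abs_of_pos (by positivity)] at h
  simpa using h

end Hom

theorem prfHom : S_Hom := by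
  intro u l hu hl
  obtain ⟨h1, h2⟩ := hu
  have hd : Differentiable ℝ u := h1.differentiable (by norm_num)
  have hl' : l⁻¹ ≠ 0 := (inv_pos.2 hl).ne'
  refine ⟨⟨?_, ?_⟩, ?_, ?_, ?_⟩
  · exact h1.comp (contDiff_const_smul l⁻¹)
  · exact h2.comp_homeomorph (Homeomorph.smulOfNeZero l⁻¹ hl')
  · unfold gE
    have e : ∀ p, dx (fun p => u (l⁻¹ • p)) p ^ 2 + dy (fun p => u (l⁻¹ • p)) p ^ 2 =
        l⁻¹ ^ 2 * (fun q => dx u q ^ 2 + dy u q ^ 2) (l⁻¹ • p) := by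
      intro p
      unfold dx dy
      rw [Hom.fder u hd, Hom.fder u hd]
      ring
    simp_rw [e]
    have h3 := Hom.hint (fun q => dx u q ^ 2 + dy u q ^ 2) l hl
    rw [integral_const_mul, h3, ← mul_assoc]
    have : l⁻¹ ^ 2 * l ^ 2 = 1 := by field_simp
    rw [this, one_mul]
  · unfold gM
    exact Hom.hint (fun p => u p ^ 2) l hl
  · exact tsupport_comp_eq_preimage u (Homeomorph.smulOfNeZero l⁻¹ hl')

end Pool.Agent.Work.MP_33c50c_an.K3
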