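import Pool.Agent.Work.MP_33c50c_an.K3.Stmts

set_option autoImplicit false

namespace Pool.Agent.Work.MP_33c50c_an.K3

open MeasureTheory Set Filter Topology

namespace LatDL

theorem dl_of_hasDerivAt {f : ℝ → ℝ} {s D d : ℝ} (h : HasDerivAt f D s) (hd : d ≤ D) :
    DL f s d := by
  intro ε hε
  have h1 : HasDerivWithinAt f D (Ioi s) s := h.hasDerivWithinAt
  rw [hasDerivWithinAt_iff_tendsto_slope' (by simp)] at h1
  have h2 : ∀ᶠ s' in 𝓝[>] s, d - ε < slope f s s' := h1.eventually (lt_mem_nhds (by linarith))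
  filter_upwards [h2, self_mem_nhdsWithin] with s' h3 h4
  have h5 : 0 < s' - s := sub_pos.2 h4
  rw [slope_def_field, lt_div_iff₀ h5] at h3
  linarith

theorem dl_min {f g : ℝ → ℝ} {s d : ℝ} (hf : ContinuousAt f s) (hg : ContinuousAt g s)
    (h1 : f s = min (f s) (g s) → DL f s d) (h2 : g s = min (f s) (g s) → DL g s d) :
    DL (fun z => min (f z) (g z)) s d := by
  intro ε hε
  rcases lt_trichotomy (f s) (g s) with h | h | h
  · have h3 : ∀ᶠ s' in 𝓝[>] s, f s' < g s' :=
      (hf.eventually_lt hg h).filter_mono nhdsWithin_le_nhds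
    filter_upwards [h3, h1 (min_eq_left h.le).symm ε hε] with s' h4 h5
    rw [min_eq_left h.le, min_eq_left h4.le]
    exact h5
  · filter_upwards [h1 (by rw [h, min_self]) ε hε, h2 (by rw [h, min_self]) ε hε] with s' h4 h5
    rw [h, min_self]
    rw [h] at h4
    exact le_min h4 h5
  · have h3 : ∀ᶠ s' in 𝓝[>] s, g s' < f s' :=
      (hg.eventually_lt hf h).filter_mono nhdsWithin_le_nhds
    filter_upwards [h3, h2 (min_eq_right h.le).symm ε hε] with s' h4 h5
    rw [min_eq_right h.le, min_eq_right h4.le]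
    exact h5

theorem dl_max_left {f g : ℝ → ℝ} {s d : ℝ} (h : g s ≤ f s) (hf : DL f s d) :
    DL (fun z => max (f z) (g z)) s d := by
  intro ε hε
  filter_upwards [hf ε hε] with s' h4
  rw [max_eq_left h]
  exact h4.trans (le_max_left _ _)

theorem dl_max_right {f g : ℝ → ℝ} {s d : ℝ} (h : f s ≤ g s) (hf : DL g s d) :
    DL (fun z => max (f z) (g z)) s d := by
  intro ε hε
  filter_upwards [hf ε hε] with s' h4
  rw [max_eq_right h]
  exact h4.trans (le_max_right _ _)

/-- the minimum of four numbers -/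
noncomputable def m4 (q : Fin 4 → ℝ) : ℝ := min (min (q 0) (q 1)) (min (q 2) (q 3))

theorem m4_le (q : Fin 4 → ℝ) (j : Fin 4) : m4 q ≤ q j := by
  unfold m4
  fin_cases j
  · exact (min_le_left _ _).trans (min_le_left _ _)
  · exact (min_le_left _ _).trans (min_le_right _ _)
  · exact (min_le_right _ _).trans (min_le_left _ _)
  · exact (min_le_right _ _).trans (min_le_right _ _)

theorem le_m4 {q : Fin 4 → ℝ} {v : ℝ} (h : ∀ j, v ≤ q j) : v ≤ m4 q :=
  le_min (le_min (h 0) (h 1)) (le_min (h 2) (h 3))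

theorem val_eq (q : Fin 4 → ℝ) (b : ℝ) (i : Fin 4) (h1 : b ≤ q i) (h2 : ∀ j, q i ≤ q j) :
    max b (m4 q) = q i := by
  have h3 : m4 q = q i := le_antisymm (m4_le q i) (le_m4 h2)
  rw [h3]
  exact max_eq_right h1

theorem dl_lat {σb : ℝ → ℝ} {σ : Fin 4 → ℝ → ℝ} {s d : ℝ} (hcont : ∀ i, ContinuousAt (σ i) s)
    (hb : m4 (fun i => σ i s) ≤ σb s → DL σb s d)
    (hi : ∀ i, σb s ≤ σ i s → (∀ j, σ i s ≤ σ j s) → DL (σ i) s d) :
    DL (fun z => max (σb z) (m4 fun i => σ i z)) s d := by
  rcases le_total (m4 fun i => σ i s) (σb s) with h | h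
  · exact dl_max_left h (hb h)
  · apply dl_max_right h
    have key : ∀ i, σ i s = m4 (fun i => σ i s) → DL (σ i) s d := by
      intro i hi'
      apply hi i
      · rw [hi']; exact h
      · intro j
        rw [hi']
        exact m4_le (fun i => σ i s) j
    have h01 : ContinuousAt (fun z => min (σ 0 z) (σ 1 z)) s := (hcont 0).min (hcont 1)
    have h23 : ContinuousAt (fun z => min (σ 2 z) (σ 3 z)) s := (hcont 2).min (hcont 3)
    refine dl_min (f := fun z => min (σ 0 z) (σ 1 z)) (g := fun z => min (σ 2 z) (σ 3 z)) h01 h23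
      ?_ ?_
    · intro h1
      refine dl_min (hcont 0) (hcont 1) (fun h2 => key 0 (h2.trans h1)) fun h2 =>
        key 1 (h2.trans h1)
    · intro h1
      refine dl_min (hcont 2) (hcont 3) (fun h2 => key 2 (h2.trans h1)) fun h2 =>
        key 3 (h2.trans h1)

theorem tv_pos (i : Fin 4) : 0 < tv i := by
  fin_cases i <;> norm_num [tv]

theorem pv_nonneg (i : Fin 4) : 0 ≤ pv i := by
  fin_cases i <;> norm_num [pv, tv]

theorem bv_pos (i : Fin 4) : 0 < bv i := by
  have := tv_pos i
  unfold bv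
  positivity

theorem hh_pos : (0 : ℝ) < hh := by
  norm_num [hh]

end LatDL

open LatDL

theorem prfLatDL : S_Line → S_LatLt → S_LatDL := by
  intro hLine hLt G x y p C s hG hGpos hS hC hs hCs
  obtain ⟨hx3, hy3, r, hr⟩ := hS
  have hint : 0 ≤ ∫ z in p..s, G z :=
    intervalIntegral.integral_nonneg hs.1 fun z _ => (hGpos z).le
  have hCs2 : C - (∫ z in p..s, G z) ≤ Th := by linarith
  have hder : HasDerivAt (fun s => C - ∫ z in p..s, G z) (-G s) s := by
    have h := (hG.integral_hasStrictDerivAt p s).hasDerivAt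
    exact h.const_sub C
  have hdb : HasDerivAt (fun s => (A0 - (C - ∫ z in p..s, G z)) / bv 3) (G s / bv 3) s := by
    have h := (hder.const_sub A0).div_const (bv 3)
    rw [neg_neg] at h
    exact h
  have hdi : ∀ i, HasDerivAt
      (fun s => (x i + (s - p) / hh * (y i - x i) - (C - ∫ z in p..s, G z)) / bv i)
      ((G s - (x i - y i) / hh) / bv i) s := by
    intro i
    have h := (((((hasDerivAt_id s).sub_const p).div_const hh).mul_const (y i - x i)).const_add
      (x i)).sub hder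
    have h2 := h.div_const (bv i)
    have e : (1 / hh * (y i - x i) - -G s) / bv i = (G s - (x i - y i) / hh) / bv i := by
      congr 1
      ring
    rw [e] at h2
    exact h2
  have ht0 : 0 ≤ (s - p) / hh := div_nonneg (sub_nonneg.2 hs.1) hh_pos.le
  have ht1 : (s - p) / hh ≤ 1 := by
    rw [div_le_one hh_pos]
    have := hs.2
    linarith
  have habs := hLt (fun i => x i + (s - p) / hh * (y i - x i)) (C - ∫ z in p..s, G z)
    (by simp only [hx3, hy3]; ring) hCs hCs2
  have hlat : ∀ (a : Fin 4 → ℝ) (c : ℝ), lat a c = max ((A0 - c) / bv 3)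
    (m4 fun i => (a i - c) / bv i) := fun a c => rfl
  have hfun : (fun s => lat (fun i => x i + (s - p) / hh * (y i - x i)) (C - ∫ z in p..s, G z)) =
      fun s => max ((A0 - (C - ∫ z in p..s, G z)) / bv 3)
        (m4 fun i => (x i + (s - p) / hh * (y i - x i) - (C - ∫ z in p..s, G z)) / bv i) := rfl
  rw [hfun]
  refine dl_lat (σb := fun s => (A0 - (C - ∫ z in p..s, G z)) / bv 3)
    (σ := fun i s => (x i + (s - p) / hh * (y i - x i) - (C - ∫ z in p..s, G z)) / bv i)
    (fun i => (hdi i).continuousAt) ?_ ?_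
  · intro _
    apply dl_of_hasDerivAt hdb
    have h := hLine (lat (fun i => x i + (s - p) / hh * (y i - x i)) (C - ∫ z in p..s, G z))
      (866 / 1000) 0 (G s) 1 habs.le le_rfl (by norm_num) (by norm_num) le_rfl (by norm_num)
      (hGpos s)
    rw [sub_zero] at h
    have e : bv 3 = 4 * (866 / 1000) ^ 3 := by
      simp [bv, tv]
    rw [e]
    exact h
  · intro i h1 h2
    apply dl_of_hasDerivAt (hdi i)
    obtain ⟨hr0, hr1, hyx, hsq, hlast⟩ := hr i
    have h3 := hlast ((s - p) / hh) (C - ∫ z in p..s, G z) ht0 ht1 hCs hCs2 h1 h2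
    have h4 : lat (fun i => x i + (s - p) / hh * (y i - x i)) (C - ∫ z in p..s, G z) =
        (x i + (s - p) / hh * (y i - x i) - (C - ∫ z in p..s, G z)) / bv i := by
      rw [hlat]
      exact val_eq (fun i => (x i + (s - p) / hh * (y i - x i) - (C - ∫ z in p..s, G z)) / bv i)
        _ i h1 h2
    rw [h4]
    have h5 : |(x i + (s - p) / hh * (y i - x i) - (C - ∫ z in p..s, G z)) / bv i| ≤ r i := by
      rw [abs_div, abs_of_pos (bv_pos i), div_le_iff₀ (bv_pos i)]
      exact h3
    have h6 : ((x i - y i) / hh) ^ 2 ≤ (3 * tv i - 4 * tv i ^ 3) ^ 2 * (1 - r i ^ 2) := by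
      rw [div_pow, div_le_iff₀ (pow_pos hh_pos 2)]
      have e : (3 * tv i - 4 * tv i ^ 3) ^ 2 * (1 - r i ^ 2) * hh ^ 2 =
          (hh * pv i) ^ 2 * (1 - r i ^ 2) := by
        unfold pv
        ring
      rw [e]
      exact hsq
    exact hLine _ (tv i) ((x i - y i) / hh) (G s) (r i) h5 hr1 (tv_pos i) (pv_nonneg i)
      (div_nonneg (sub_nonneg.2 hyx) hh_pos.le) h6 (hGpos s)

end Pool.Agent.Work.MP_33c50c_an.K3
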