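import Pool.Agent.Work.MP_33c50c_an.K3.Stmts

set_option autoImplicit false

/-!
# Item LatLt: the size of the barrier
-/

namespace Pool.Agent.Work.MP_33c50c_an.K3

namespace LatLt

theorem bv3 : bv 3 = 4 * (866 / 1000) ^ 3 := by
  simp [bv, tv]

theorem A0_eq : A0 = 4 * (866 / 1000) ^ 3 - (4247 / 1000 - 238 / 100) := by
  rw [A0, bv3, AB, Th]

end LatLt

theorem prfLatLt : S_LatLt := by
  intro a C ha hC hCT
  have hT : Th = 238 / 100 := rfl
  have hb : (0 : ℝ) < bv 3 := by rw [LatLt.bv3]; norm_num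
  rw [hT] at hCT
  rw [abs_lt]
  constructor
  · have h1 : (-1 : ℝ) < (A0 - C) / bv 3 := by
      rw [lt_div_iff₀ hb, LatLt.A0_eq, LatLt.bv3]
      norm_num
      linarith
    exact lt_of_lt_of_le h1 (le_max_left _ _)
  · refine max_lt ?_ ?_
    · rw [div_lt_one hb, LatLt.A0_eq, LatLt.bv3]
      norm_num
      linarith
    · refine lt_of_le_of_lt ((min_le_right _ _).trans (min_le_right _ _)) ?_
      rw [div_lt_one hb, ha, hT, LatLt.bv3]
      norm_num
      linarith

end Pool.Agent.Work.MP_33c50c_an.K3
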