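import Pool.Agent.Work.MP_33c50c_an.K3.Stmts

namespace Pool.Agent.Work.MP_33c50c_an.K3

open MeasureTheory Set Filter Topology

theorem prfLine : S_Line := by
  intro σ t μ g r hσ hr ht hΦ hμ hμ2 hg
  have hr0 : 0 ≤ r := (abs_nonneg σ).trans hσ
  have hσr : σ ^ 2 ≤ r ^ 2 := sq_le_sq' (by linarith [(abs_le.1 hσ).1]) (abs_le.1 hσ).2
  have hr2 : r ^ 2 ≤ 1 := by nlinarith
  have hc0 : 0 ≤ cc σ := Real.sqrt_nonneg _
  have hc2 : cc σ ^ 2 = 1 - σ ^ 2 := Real.sq_sqrt (by linarith)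
  generalize cc σ = c at hc0 hc2 ⊢
  have hμc : μ ≤ (3 * t - 4 * t ^ 3) * c := by
    refine le_of_sq_le_sq ?_ (mul_nonneg hΦ hc0)
    rw [mul_pow, hc2]
    refine hμ2.trans (mul_le_mul_of_nonneg_left (by linarith) (sq_nonneg _))
  have ht3 : 0 < 4 * t ^ 3 := by positivity
  rw [le_div_iff₀ ht3]
  have hw : 0 ≤ t * c := mul_nonneg ht.le hc0
  have key : 3 * (t * c) - g ≤ 4 * (t * c) ^ 3 / g ^ 2 := by
    rw [le_div_iff₀ (by positivity)]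
    have h1 : 0 ≤ (g - 2 * (t * c)) ^ 2 * (g + t * c) := by positivity
    nlinarith
  have h2 : (c - c ^ 3 / g ^ 2) * (4 * t ^ 3) = 4 * t ^ 3 * c - 4 * (t * c) ^ 3 / g ^ 2 := by
    field_simp
  rw [h2]
  linarith

end Pool.Agent.Work.MP_33c50c_an.K3
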