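import Pool.Agent.Work.MP_33c50c_an.K3.Stmts

/-!
# A continuous upper bound of the sections of a compact set
-/

namespace Pool.Agent.Work.MP_33c50c_an.K3

open MeasureTheory Set Filter Topology

namespace Maj

/-- the integral over a horizontal strip -/
theorem strip {φ : ℝ × ℝ → ℝ} (hφ : Integrable φ) (B : Set ℝ) :
    ∫ y in B, ∫ x, φ (x, y) = ∫ p in (univ : Set ℝ) ×ˢ B, φ p := by
  rw [Measure.volume_eq_prod, ← Measure.prod_restrict, Measure.restrict_univ]
  have h : Integrable φ ((volume : Measure ℝ).prod ((volume : Measure ℝ).restrict B)) := by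
    have h1 : Integrable φ ((volume.prod volume).restrict ((univ : Set ℝ) ×ˢ B)) :=
      Integrable.restrict hφ
    rwa [← Measure.prod_restrict, Measure.restrict_univ] at h1
  rw [integral_prod_symm φ h]

/-- the integral of a function between `0` and `1` with support in `U` -/
theorem upper {φ : ℝ × ℝ → ℝ} {K U S : Set (ℝ × ℝ)} {δ : ℝ} (hδ : 0 ≤ δ)
    (h1 : ∀ p, φ p ≤ 1) (h0 : ∀ p, 0 ≤ φ p) (hU : ∀ p, p ∉ U → φ p = 0)
    (hUo : MeasurableSet U) (hUf : volume U < ⊤) (hKf : volume K < ⊤)
    (hUK : volume (U \ K) ≤ ENNReal.ofReal δ) :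
    ∫ p in S, φ p ≤ area (K ∩ S) + δ := by
  have e1 : ∫ p in S, φ p ≤ ∫ p in S, U.indicator (fun _ => (1:ℝ)) p := by
    refine integral_mono_of_nonneg (Filter.Eventually.of_forall h0) ?_
      (Filter.Eventually.of_forall fun p => ?_)
    · exact ((integrable_indicator_iff hUo).2 (integrableOn_const hUf.ne)).restrict
    · by_cases hp : p ∈ U
      · rw [indicator_of_mem hp]
        exact h1 p
      · rw [indicator_of_notMem hp, hU p hp]
  have e2 : ∫ p in S, U.indicator (fun _ => (1:ℝ)) p = (volume (U ∩ S)).toReal := by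
    rw [integral_indicator hUo, setIntegral_const, smul_eq_mul, mul_one, Measure.real,
      Measure.restrict_apply hUo]
  have e3 : volume (U ∩ S) ≤ volume (K ∩ S) + ENNReal.ofReal δ := by
    have : U ∩ S ⊆ (K ∩ S) ∪ (U \ K) := by
      rintro p ⟨hp, hpS⟩
      by_cases hpK : p ∈ K
      · exact Or.inl ⟨hpK, hpS⟩
      · exact Or.inr ⟨hp, hpK⟩
    exact (measure_mono this).trans ((measure_union_le _ _).trans (by gcongr))
  rw [e2] at e1
  refine e1.trans ?_
  have hK : volume (K ∩ S) ≠ ⊤ := ((measure_mono inter_subset_left).trans_lt hKf).ne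
  have e5 := ENNReal.toReal_mono (by
    exact ENNReal.add_ne_top.2 ⟨hK, ENNReal.ofReal_ne_top⟩) e3
  rw [ENNReal.toReal_add hK ENNReal.ofReal_ne_top, ENNReal.toReal_ofReal hδ] at e5
  exact e5

theorem gauss_int : Integrable fun y : ℝ => Real.exp (-1 * y ^ 2) :=
  integrable_exp_neg_mul_sq one_pos

theorem gauss_le (S : Set ℝ) : ∫ y in S, Real.exp (-1 * y ^ 2) ≤ 2 := by
  have h1 : ∫ y in S, Real.exp (-1 * y ^ 2) ≤ ∫ y, Real.exp (-1 * y ^ 2) :=
    setIntegral_le_integral gauss_int (Filter.Eventually.of_forall fun y => (Real.exp_pos _).le)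
  have h2 : ∫ y : ℝ, Real.exp (-1 * y ^ 2) = Real.sqrt (Real.pi / 1) := integral_gaussian 1
  have h3 : Real.sqrt (Real.pi / 1) ≤ 2 := by
    rw [Real.sqrt_le_left (by norm_num)]
    have := Real.pi_le_four
    linarith
  linarith

end Maj

open Maj in
theorem prfMaj : S_Maj := by
  intro K hK δ hδ T hT
  have hpi := Real.pi_pos
  have hKf : volume K < ⊤ := hK.measure_lt_top
  obtain ⟨U, hKU, hUo, hUf, hUK⟩ := hK.measurableSet.exists_isOpen_sdiff_lt hKf.ne
    (ε := ENNReal.ofReal (δ / 2)) (by simpa using hδ)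
  obtain ⟨φ, hφ1, hφc, hφU, hφ01⟩ := exists_continuousMap_one_of_isCompact_subset_isOpen hK hUo hKU
  have hφcont : Continuous φ := φ.continuous
  have hφi : Integrable (φ : ℝ × ℝ → ℝ) := hφcont.integrable_of_hasCompactSupport hφc
  have hφz : ∀ p, p ∉ U → φ p = 0 := fun p hp =>
    image_eq_zero_of_notMem_tsupport fun h => hp (hφU h)
  -- the sections
  set A : Set ℝ := Prod.fst '' tsupport (φ : ℝ × ℝ → ℝ) with hA
  have hAc : IsCompact A := hφc.image continuous_fst
  have hφA : ∀ x y, x ∉ A → φ (x, y) = 0 := fun x y hx =>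
    image_eq_zero_of_notMem_tsupport fun h => hx ⟨(x, y), h, rfl⟩
  set g : ℝ → ℝ := fun y => ∫ x, φ (x, y) with hg
  have hgA : ∀ y, ∫ x in A, φ (x, y) = g y := by
    intro y
    exact setIntegral_eq_integral_of_forall_compl_eq_zero fun x hx => hφA x y hx
  have hgc : Continuous g := by
    have h1 := continuous_parametric_integral_of_continuous (μ := (volume : Measure ℝ))
      (f := fun (y x : ℝ) => φ (x, y)) (by
        show Continuous fun p : ℝ × ℝ => φ (p.2, p.1)
        exact hφcont.comp (continuous_snd.prodMk continuous_fst)) hAc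
    have h2 : g = fun y => ∫ x in A, φ (x, y) := funext fun y => (hgA y).symm
    rw [h2]
    exact h1
  have hg0 : ∀ y, 0 ≤ g y := fun y => integral_nonneg fun x => (hφ01 _).1
  have hgi : Integrable g := by
    have h1 : Integrable (φ : ℝ × ℝ → ℝ) ((volume : Measure ℝ).prod volume) := hφi
    exact h1.integral_prod_right
  set η : ℝ := δ / (4 * Real.pi) with hη
  have hη0 : 0 < η := by positivity
  have hset : ∀ S : Set ℝ, Real.pi * ∫ y in S, (g y / Real.pi + η * Real.exp (-1 * y ^ 2)) ≤
      area (K ∩ ((univ : Set ℝ) ×ˢ S)) + δ := by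
    intro S
    have h1 : ∫ y in S, (g y / Real.pi + η * Real.exp (-1 * y ^ 2)) =
        (∫ y in S, g y) / Real.pi + η * ∫ y in S, Real.exp (-1 * y ^ 2) := by
      rw [integral_add (hgi.restrict.div_const _) (gauss_int.restrict.const_mul _),
        integral_div, integral_const_mul]
    have h2 : ∫ y in S, g y ≤ area (K ∩ ((univ : Set ℝ) ×ˢ S)) + δ / 2 := by
      rw [hg, strip hφi S]
      exact upper (by positivity) (fun p => (hφ01 p).2) (fun p => (hφ01 p).1) hφz
        hUo.measurableSet hUf hKf hUK.le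
    have h3 := gauss_le S
    rw [h1, mul_add, mul_div_cancel₀ _ hpi.ne']
    have h4 : Real.pi * (η * ∫ y in S, Real.exp (-1 * y ^ 2)) ≤ δ / 2 := by
      have h5 : Real.pi * (η * ∫ y in S, Real.exp (-1 * y ^ 2)) =
          δ / 4 * ∫ y in S, Real.exp (-1 * y ^ 2) := by
        rw [hη]
        field_simp
      rw [h5]
      nlinarith
    linarith
  refine ⟨fun y => g y / Real.pi + η * Real.exp (-1 * y ^ 2), ?_, ?_, ?_, ?_, ?_, ?_⟩
  · fun_prop
  · intro y
    have := hg0 y
    have h2 := Real.exp_pos (-1 * y ^ 2)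
    positivity
  · exact (hgi.div_const _).add (gauss_int.const_mul _)
  · intro y
    have hm : MeasurableSet {x : ℝ | (x, y) ∈ K} :=
      (measurable_id.prodMk measurable_const) hK.measurableSet
    have hiy : Integrable fun x => φ (x, y) := by
      have h1 : Continuous fun x => φ (x, y) := hφcont.comp (continuous_id.prodMk continuous_const)
      refine h1.integrable_of_hasCompactSupport ?_
      exact HasCompactSupport.of_support_subset_isCompact hAc fun x hx => by
        by_contra hcon
        exact hx (hφA x y hcon)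
    calc volume {x : ℝ | (x, y) ∈ K}
        = ∫⁻ x, {x : ℝ | (x, y) ∈ K}.indicator 1 x := (lintegral_indicator_one hm).symm
      _ ≤ ∫⁻ x, ENNReal.ofReal (φ (x, y)) := by
        refine lintegral_mono fun x => ?_
        by_cases hx : x ∈ {x : ℝ | (x, y) ∈ K}
        · rw [indicator_of_mem hx]
          have : φ (x, y) = 1 := hφ1 hx
          rw [this]
          simp
        · rw [indicator_of_notMem hx]
          exact bot_le
      _ = ENNReal.ofReal (g y) :=
        (ofReal_integral_eq_lintegral_ofReal hiy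
          (Filter.Eventually.of_forall fun x => (hφ01 _).1)).symm
      _ ≤ ENNReal.ofReal (Real.pi * (g y / Real.pi + η * Real.exp (-1 * y ^ 2))) := by
        apply ENNReal.ofReal_le_ofReal
        rw [mul_add, mul_div_cancel₀ _ hpi.ne']
        have := Real.exp_pos (-1 * y ^ 2)
        have : 0 ≤ Real.pi * (η * Real.exp (-1 * y ^ 2)) := by positivity
        linarith
  · have h1 : hp 1 0 = (univ : Set ℝ) ×ˢ Ioi (0:ℝ) := by
      ext p
      simp [hp]
    rw [h1]
    exact hset _
  · have h1 : sp 1 0 T = (univ : Set ℝ) ×ˢ Ioo (0:ℝ) T := by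
      ext p
      simp [sp]
    rw [h1, intervalIntegral.integral_of_le hT.le, integral_Ioc_eq_integral_Ioo]
    exact hset _

end Pool.Agent.Work.MP_33c50c_an.K3
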