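import Pool.Agent.Work.MP_33c50c_an.K3.Stmts

namespace Pool.Agent.Work.MP_33c50c_an.K3

open MeasureTheory Set Filter Topology

namespace Mat

/-- the polarised density -/
noncomputable def FF (a b : ℝ × ℝ → ℝ) (p : ℝ × ℝ) : ℝ :=
  dx a p * dx b p + dy a p * dy b p - a p * b p

theorem cont_dx {a : ℝ × ℝ → ℝ} (h : Tst a) : Continuous (dx a) :=
  (h.1.continuous_fderiv one_ne_zero).clm_apply continuous_const

theorem cont_dy {a : ℝ × ℝ → ℝ} (h : Tst a) : Continuous (dy a) :=
  (h.1.continuous_fderiv one_ne_zero).clm_apply continuous_const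

theorem cont_FF {a b : ℝ × ℝ → ℝ} (ha : Tst a) (hb : Tst b) : Continuous (FF a b) :=
  (((cont_dx ha).mul (cont_dx hb)).add ((cont_dy ha).mul (cont_dy hb))).sub
    (ha.1.continuous.mul hb.1.continuous)

theorem zero_FF {a b : ℝ × ℝ → ℝ} {p : ℝ × ℝ} (hp : p ∉ tsupport a) : FF a b p = 0 := by
  have h1 : fderiv ℝ a p = 0 := by
    by_contra hne
    exact hp (support_fderiv_subset ℝ hne)
  have h2 : a p = 0 := image_eq_zero_of_notMem_tsupport hp
  simp [FF, dx, dy, h1, h2]

theorem cs_FF {a b : ℝ × ℝ → ℝ} (ha : Tst a) : HasCompactSupport (FF a b) :=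
  HasCompactSupport.intro ha.2 fun _ hp => zero_FF hp

theorem int_FF {a b : ℝ × ℝ → ℝ} (ha : Tst a) (hb : Tst b) : Integrable (FF a b) :=
  (cont_FF ha hb).integrable_of_hasCompactSupport (cs_FF ha)

theorem comm_FF (a b : ℝ × ℝ → ℝ) (p : ℝ × ℝ) : FF a b p = FF b a p := by
  simp only [FF]; ring

theorem fderiv_lin {v : Fin 3 → ℝ × ℝ → ℝ} (hv : ∀ i, Tst (v i)) (c : Fin 3 → ℝ) (p : ℝ × ℝ) :
    fderiv ℝ (lin v c) p = ∑ i, c i • fderiv ℝ (v i) p := by
  have hd : ∀ i, DifferentiableAt ℝ (v i) p := fun i =>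
    (hv i).1.differentiable one_ne_zero p
  have h : HasFDerivAt (fun q => ∑ i, c i * v i q) (∑ i, c i • fderiv ℝ (v i) p) p :=
    HasFDerivAt.fun_sum fun i _ => (hd i).hasFDerivAt.const_mul (c i)
  exact h.fderiv

theorem den_lin {v : Fin 3 → ℝ × ℝ → ℝ} (hv : ∀ i, Tst (v i)) (c : Fin 3 → ℝ) (p : ℝ × ℝ) :
    den (lin v c) p = ∑ i, ∑ j, c i * c j * FF (v i) (v j) p := by
  have h1 : dx (lin v c) p = ∑ i, c i * dx (v i) p := by
    simp [dx, fderiv_lin hv]
  have h2 : dy (lin v c) p = ∑ i, c i * dy (v i) p := by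
    simp [dy, fderiv_lin hv]
  have h3 : lin v c p = ∑ i, c i * v i p := rfl
  rw [den, h1, h2, h3]
  simp only [Fin.sum_univ_three, FF]
  ring

theorem meas_hp (κ s : ℝ) : MeasurableSet (hp κ s) :=
  (isOpen_lt continuous_const (by fun_prop)).measurableSet

theorem int_lin {v : Fin 3 → ℝ × ℝ → ℝ} (hv : ∀ i, Tst (v i)) (c : Fin 3 → ℝ)
    (μ : Measure (ℝ × ℝ)) (hμ : ∀ i j, Integrable (FF (v i) (v j)) μ) :
    ∫ p, den (lin v c) p ∂μ = ∑ i, ∑ j, c i * c j * ∫ p, FF (v i) (v j) p ∂μ := by
  simp only [den_lin hv]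
  rw [integral_finsetSum _ (fun i _ => integrable_finsetSum _ fun j _ => (hμ i j).const_mul _)]
  refine Finset.sum_congr rfl fun i _ => ?_
  rw [integral_finsetSum _ (fun j _ => (hμ i j).const_mul _)]
  refine Finset.sum_congr rfl fun j _ => ?_
  rw [integral_const_mul]

theorem null_line (s : ℝ) : ∀ᵐ p : ℝ × ℝ, p.2 ≠ s := by
  have h : volume {p : ℝ × ℝ | ¬ p.2 ≠ s} = 0 := by
    have : {p : ℝ × ℝ | ¬ p.2 ≠ s} = univ ×ˢ {s} := by
      ext p; simp
    rw [this, Measure.volume_eq_prod, Measure.prod_prod]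
    simp
  exact h

theorem split (f : ℝ × ℝ → ℝ) (hf : Integrable f) (s : ℝ) :
    (∫ p in hp 1 s, f p) + ∫ p in hp (-1) s, f p = ∫ p, f p := by
  have hd : Disjoint (hp 1 s) (hp (-1) s) := by
    rw [Set.disjoint_left]
    intro p h1 h2
    simp only [hp, Set.mem_ofPred_eq] at h1 h2
    linarith
  rw [← setIntegral_union hd (meas_hp _ _) hf.integrableOn hf.integrableOn]
  suffices key : (hp 1 s ∪ hp (-1) s : Set (ℝ × ℝ)) =ᵐ[volume] (univ : Set (ℝ × ℝ)) by
    rw [setIntegral_congr_set key, Measure.restrict_univ]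
  rw [Filter.eventuallyEq_univ]
  filter_upwards [null_line s] with p hp'
  rcases lt_or_gt_of_ne hp' with h | h
  · right; simp only [hp, Set.mem_ofPred_eq]; linarith
  · left; simp only [hp, Set.mem_ofPred_eq]; linarith

theorem cont_set (κ : ℝ) (hκ : κ ≠ 0) (f : ℝ × ℝ → ℝ) (hf : Integrable f) :
    Continuous fun s => ∫ p in hp κ s, f p := by
  have h : (fun s => ∫ p in hp κ s, f p) = fun s => ∫ p, (hp κ s).indicator f p := by
    funext s
    rw [integral_indicator (meas_hp _ _)]
  rw [h, continuous_iff_continuousAt]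
  intro s₀
  apply continuousAt_of_dominated (bound := fun p => ‖f p‖)
  · exact Eventually.of_forall fun s => hf.aestronglyMeasurable.indicator (meas_hp _ _)
  · exact Eventually.of_forall fun s => Eventually.of_forall fun p => norm_indicator_le_norm_self _ _
  · exact hf.norm
  · filter_upwards [null_line s₀] with p hp'
    have hne : κ * (p.2 - s₀) ≠ 0 := mul_ne_zero hκ (sub_ne_zero.mpr hp')
    have hc : ContinuousAt (fun s => κ * (p.2 - s)) s₀ := by fun_prop
    rcases lt_or_gt_of_ne hne with h | h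
    · have : ∀ᶠ s in 𝓝 s₀, (hp κ s).indicator f p = 0 := by
        filter_upwards [hc.eventually (gt_mem_nhds h)] with s hs
        exact indicator_of_notMem (by simp only [hp, Set.mem_ofPred_eq, not_lt]; exact hs.le) _
      exact (continuousAt_const (y := (0:ℝ))).congr (this.mono fun s hs => hs.symm)
    · have : ∀ᶠ s in 𝓝 s₀, (hp κ s).indicator f p = f p := by
        filter_upwards [hc.eventually (lt_mem_nhds h)] with s hs
        exact indicator_of_mem (by simp only [hp, Set.mem_ofPred_eq]; exact hs) _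
      exact (continuousAt_const (y := f p)).congr (this.mono fun s hs => hs.symm)

theorem bound {v : Fin 3 → ℝ × ℝ → ℝ} (hv : ∀ i, Tst (v i)) :
    ∃ S : ℝ, ∀ i p, p ∈ tsupport (v i) → |p.2| ≤ S := by
  have h : ∀ i, ∃ S : ℝ, ∀ p, p ∈ tsupport (v i) → |p.2| ≤ S := by
    intro i
    obtain ⟨S, hS⟩ := ((hv i).2 : IsCompact (tsupport (v i))).isBounded.exists_norm_le
    exact ⟨S, fun p hp' => (norm_snd_le p).trans (hS p hp')⟩
  choose S hS using h
  refine ⟨max (S 0) (max (S 1) (S 2)), fun i p hp' => (hS i p hp').trans ?_⟩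
  fin_cases i <;> simp

end Mat

open Mat in
theorem prfMat : S_Mat := by
  intro v hv
  obtain ⟨S, hS⟩ := bound hv
  have hI : ∀ i j, Integrable (FF (v i) (v j)) := fun i j => int_FF (hv i) (hv j)
  have hz : ∀ (i : Fin 3) (p : ℝ × ℝ), S < |p.2| → p ∉ tsupport (v i) := fun i p h1 h2 =>
    absurd (hS i p h2) (not_le.mpr h1)
  refine ⟨fun s => Matrix.of fun i j => ∫ p in hp 1 s, FF (v i) (v j) p,
    fun s => Matrix.of fun i j => ∫ p in hp (-1) s, FF (v i) (v j) p,
    Matrix.of fun i j => ∫ p, FF (v i) (v j) p, S, ?_, ?_, ?_, ?_, ?_, ?_, ?_, ?_, ?_, ?_⟩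
  · intro s c
    exact int_lin hv c _ fun i j => (hI i j).integrableOn
  · intro s c
    exact int_lin hv c _ fun i j => (hI i j).integrableOn
  · intro c
    have hl : Tst (lin v c) := by
      constructor
      · exact ContDiff.sum fun i _ => contDiff_const.mul (hv i).1
      · apply HasCompactSupport.intro (K := ⋃ i, tsupport (v i))
          (isCompact_iUnion fun i => (hv i).2)
        intro p hp'
        simp only [mem_iUnion, not_exists] at hp'
        exact Finset.sum_eq_zero fun i _ => by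
          rw [image_eq_zero_of_notMem_tsupport (hp' i), mul_zero]
    have h1 : Integrable fun p => dx (lin v c) p ^ 2 + dy (lin v c) p ^ 2 := by
      apply Continuous.integrable_of_hasCompactSupport
      · exact ((cont_dx hl).pow 2).add ((cont_dy hl).pow 2)
      · apply HasCompactSupport.intro hl.2
        intro p hp'
        have h1 : fderiv ℝ (lin v c) p = 0 := by
          by_contra hne
          exact hp' (support_fderiv_subset ℝ hne)
        simp [dx, dy, h1]
    have h2 : Integrable fun p => lin v c p ^ 2 := by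
      apply Continuous.integrable_of_hasCompactSupport
      · exact hl.1.continuous.pow 2
      · apply HasCompactSupport.intro hl.2
        intro p hp'
        simp [image_eq_zero_of_notMem_tsupport hp']
    rw [gE, gM, ← integral_sub h1 h2]
    exact int_lin hv c _ hI
  · intro s
    ext i j
    exact split _ (hI i j) s
  · intro i j
    exact cont_set 1 one_ne_zero _ (hI i j)
  · intro i j
    exact cont_set (-1) (by norm_num) _ (hI i j)
  · intro s i j
    exact integral_congr_ae (Eventually.of_forall fun p => comm_FF _ _ p)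
  · intro s i j
    exact integral_congr_ae (Eventually.of_forall fun p => comm_FF _ _ p)
  · intro s hs
    ext i j
    refine setIntegral_eq_zero_of_forall_eq_zero fun p hp' => zero_FF (hz i p ?_)
    simp only [hp, Set.mem_ofPred_eq] at hp'
    exact lt_of_lt_of_le (by linarith) (le_abs_self _)
  · intro s hs
    ext i j
    refine setIntegral_eq_zero_of_forall_eq_zero fun p hp' => zero_FF (hz i p ?_)
    simp only [hp, Set.mem_ofPred_eq] at hp'
    exact lt_of_lt_of_le (by linarith) (neg_le_abs _)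

end Pool.Agent.Work.MP_33c50c_an.K3
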