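import Pool.Agent.Work.MP_33c50c_an.K3.Stmts

/-!
# Functions with nonnegative lower right Dini derivative
-/

set_option autoImplicit false

open MeasureTheory Set Filter Topology

namespace Pool.Agent.Work.MP_33c50c_an.K3

theorem prfMono : S_Mono := by
  intro f p q hpq hf hD
  have key : ∀ e : ℝ, 0 < e → f p - e * (q - p) ≤ f q := by
    intro e he
    have hcl : IsClosed ({t : ℝ | f p - e * (t - p) ≤ f t} ∩ Icc p q) := by
      have h1 : IsClosed {t ∈ Icc p q | f p - e * (t - p) ≤ f t} :=
        isClosed_Icc.isClosed_le (by fun_prop) hf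
      have h2 : {t : ℝ | f p - e * (t - p) ≤ f t} ∩ Icc p q =
          {t ∈ Icc p q | f p - e * (t - p) ≤ f t} := by
        ext t
        exact ⟨fun h => ⟨h.2, h.1⟩, fun h => ⟨h.2, h.1⟩⟩
      rw [h2]
      exact h1
    have h3 := hcl.Icc_subset_of_forall_exists_gt (a := p) (b := q) (by
      show f p - e * (p - p) ≤ f p
      rw [sub_self, mul_zero, sub_zero]) (by
      intro x hx y hy
      have h4 := (hD x hx.2 e he).and (Ioc_mem_nhdsGT (show x < y from hy))
      obtain ⟨s', h5, h6⟩ := h4.exists
      refine ⟨s', ?_, h6⟩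
      have h7 : f p - e * (x - p) ≤ f x := hx.1
      show f p - e * (s' - p) ≤ f s'
      linarith)
    exact h3 (right_mem_Icc.2 hpq)
  refine le_of_forall_pos_le_add (fun δ hδ => ?_)
  have h1 := key (δ / (q - p + 1)) (by
    apply div_pos hδ
    linarith)
  have h2 : δ / (q - p + 1) * (q - p) ≤ δ := by
    have h3 : 0 < q - p + 1 := by linarith
    rw [div_mul_eq_mul_div, div_le_iff₀ h3]
    nlinarith
  linarith

end Pool.Agent.Work.MP_33c50c_an.K3
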