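import Mathlib
import Pool.Agent.Work.MP_33c50c_an.K3.Stmts

namespace Pool.Agent.Work.MP_33c50c_an.K3

open MeasureTheory Set Filter Topology

theorem prfOpen : S_Open := by
  intro P hP
  rw [isOpen_iff_mem_nhds]
  rintro s0 ⟨a, b, hab⟩
  have hc : Continuous (fun z : ℝ × ℝ =>
      qf (P z.1) (fun i => Real.cos z.2 * a i + Real.sin z.2 * b i)) := by
    unfold qf
    refine continuous_finsetSum _ (fun i _ => continuous_finsetSum _ (fun j _ => ?_))
    have := (hP i j).comp (continuous_fst (X := ℝ) (Y := ℝ))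
    have h2 : Continuous (fun z : ℝ × ℝ => P z.1 i j) := this
    fun_prop
  have h1 : ∀ᶠ s in 𝓝 s0, ∀ θ ∈ Icc (0:ℝ) (2 * Real.pi),
      qf (P s) (fun i => Real.cos θ * a i + Real.sin θ * b i) < 0 := by
    refine isCompact_Icc.eventually_forall_of_forall_eventually (fun θ _ => ?_)
    exact (hc.tendsto (s0, θ)).eventually (gt_mem_nhds (hab θ))
  filter_upwards [h1] with s hs
  refine ⟨a, b, fun θ => ?_⟩
  have hper : Function.Periodic
      (fun θ => qf (P s) (fun i => Real.cos θ * a i + Real.sin θ * b i)) (2 * Real.pi) := by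
    intro θ
    simp only [Real.cos_add_two_pi, Real.sin_add_two_pi]
  obtain ⟨y, hy, hy2⟩ := hper.exists_mem_Ico₀ Real.two_pi_pos θ
  rw [hy2]
  exact hs y ⟨hy.1, hy.2.le⟩

end Pool.Agent.Work.MP_33c50c_an.K3
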