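import Pool.Agent.Work.MP_33c50c_an.K3.Stmts
import Pool.Agent.Work.MP_33c50c_an.BLY.Main

set_option autoImplicit false

/-!
# Item Orth: an orthonormal basis
-/

namespace Pool.Agent.Work.MP_33c50c_an.K3

open MeasureTheory Set Filter Topology

namespace Orth

theorem exists_chain (L : Submodule ℝ (Cyl → ℝ)) (h3 : Module.finrank ℝ L = 3) :
    ∀ i : ℕ, ∃ K : Submodule ℝ (Cyl → ℝ), i < 3 → (K ≤ L ∧ Module.finrank ℝ K = i + 1) := by
  intro i
  by_cases hi : i < 3
  · have hle : i + 1 ≤ 3 := hi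
    have : Module.Finite ℝ L := Module.finite_of_finrank_pos (by omega)
    let b : Module.Basis (Fin 3) ℝ L := Module.finBasisOfFinrankEq ℝ L h3
    have hli : LinearIndependent ℝ (fun j : Fin 3 => ((b j : L) : Cyl → ℝ)) :=
      b.linearIndependent.map' L.subtype (Submodule.ker_subtype L)
    have hli2 : LinearIndependent ℝ
        (fun j : Fin (i + 1) => ((b (Fin.castLE hle j) : L) : Cyl → ℝ)) :=
      hli.comp (Fin.castLE hle) (Fin.castLE_injective hle)
    refine ⟨Submodule.span ℝ (Set.range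
      (fun j : Fin (i + 1) => ((b (Fin.castLE hle j) : L) : Cyl → ℝ))), fun _ => ⟨?_, ?_⟩⟩
    · rw [Submodule.span_le]
      rintro _ ⟨j, rfl⟩
      exact (b (Fin.castLE hle j)).2
    · rw [finrank_span_eq_card hli2, Fintype.card_fin]
  · exact ⟨⊥, fun h => absurd h hi⟩

end Orth

theorem prfOrth : S_Orth := by
  intro Ω L hL h3
  choose K hK using Orth.exists_chain L h3
  obtain ⟨u, hu1, hu2⟩ := BLY.select Ω K 3 (fun i hi => ⟨fun v hv => hL v ((hK i hi).1 hv),
    (hK i hi).2⟩)
  refine ⟨fun i => u i, fun i => (hK i i.2).1 (hu1 i i.2), fun i j => ?_⟩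
  rw [hu2 i i.2 j j.2]
  by_cases h : i = j
  · simp [h]
  · have : (i : ℕ) ≠ j := fun h' => h (Fin.ext h')
    simp [h, this]

end Pool.Agent.Work.MP_33c50c_an.K3
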