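import Mathlib
import Pool.Agent.Work.MP_33c50c_an.K3.Stmts

namespace Pool.Agent.Work.MP_33c50c_an.K3

open MeasureTheory Set Filter Topology

namespace Plane

lemma lin_tst (v : Fin 3 → ℝ × ℝ → ℝ) (hv : ∀ i, Tst (v i)) (c : Fin 3 → ℝ) : Tst (lin v c) := by
  refine ⟨?_, ?_⟩
  · unfold lin
    exact ContDiff.sum fun i _ => contDiff_const.mul (hv i).1
  · have h : ∀ i, HasCompactSupport (fun p => c i * v i p) := fun i => (hv i).2.mul_left
    have e : lin v c = fun p => c 0 * v 0 p + c 1 * v 1 p + c 2 * v 2 p := by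
      funext p
      simp [lin, Fin.sum_univ_three]
    rw [e]
    exact ((h 0).add (h 1)).add (h 2)

end Plane

theorem prfPlane : S_Plane1 → S_Hom → S_Plane := by
  intro hP1 hHom v Ω lam hΩ hlam hvol hv hneg
  set l := Real.sqrt lam with hl
  have hl0 : 0 < l := Real.sqrt_pos.mpr hlam
  have hl2 : l ^ 2 = lam := Real.sq_sqrt hlam.le
  have hlin : ∀ c, Tst (lin v c) := Plane.lin_tst v (fun i => (hv i).1)
  have hcont : Continuous fun p : ℝ × ℝ => l⁻¹ • p := continuous_const_smul _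
  refine hP1 (fun i p => v i (l⁻¹ • p)) ((fun p => l⁻¹ • p) ⁻¹' Ω) (hΩ.preimage hcont) ?_ ?_ ?_
  · rw [Measure.addHaar_preimage_smul volume (inv_ne_zero hl0.ne')]
    have hf : Module.finrank ℝ (ℝ × ℝ) = 2 := by simp
    rw [hf]
    have e : |(l⁻¹ ^ 2)⁻¹| = lam := by
      rw [inv_pow, inv_inv, hl2, abs_of_pos hlam]
    rw [e]
    calc ENNReal.ofReal lam * volume Ω
        ≤ ENNReal.ofReal lam * ENNReal.ofReal (1204 / 100 * Real.pi / lam) := by gcongr
      _ = ENNReal.ofReal (1204 / 100 * Real.pi) := by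
          rw [← ENNReal.ofReal_mul hlam.le]
          congr 1; field_simp
  · intro i
    obtain ⟨h1, _, _, h4⟩ := hHom (v i) l (hv i).1 hl0
    refine ⟨h1, ?_⟩
    show tsupport (fun p => v i (l⁻¹ • p)) ⊆ _
    rw [h4]
    exact preimage_mono (hv i).2
  · intro c hc
    have e : lin (fun i p => v i (l⁻¹ • p)) c = fun p => lin v c (l⁻¹ • p) := rfl
    obtain ⟨_, h2, h3, _⟩ := hHom (lin v c) l (hlin c) hl0
    rw [e, h2, h3, hl2]
    exact hneg c hc

end Pool.Agent.Work.MP_33c50c_an.K3
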