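import Mathlib
import Pool.Agent.Work.MP_33c50c_an.K3.Stmts

namespace Pool.Agent.Work.MP_33c50c_an.K3

open MeasureTheory Set Filter Topology

namespace Plane1

lemma area_swap (S : Set (ℝ × ℝ)) (hS : MeasurableSet S) :
    volume (Prod.swap ⁻¹' S : Set (ℝ × ℝ)) = volume S := by
  have h : MeasurePreserving (Prod.swap : ℝ × ℝ → ℝ × ℝ) volume volume :=
    Measure.measurePreserving_swap
  exact h.measure_preimage hS.nullMeasurableSet

lemma lin_tst (v : Fin 3 → ℝ × ℝ → ℝ) (hv : ∀ i, Tst (v i)) (c : Fin 3 → ℝ) : Tst (lin v c) := by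
  refine ⟨?_, ?_⟩
  · unfold lin
    exact ContDiff.sum fun i _ => contDiff_const.mul (hv i).1
  · have h : ∀ i, HasCompactSupport (fun p => c i * v i p) := fun i => (hv i).2.mul_left
    have e : lin v c = fun p => c 0 * v 0 p + c 1 * v 1 p + c 2 * v 2 p := by
      funext p
      simp [lin, Fin.sum_univ_three]
    rw [e]
    exact ((h 0).add (h 1)).add (h 2)

end Plane1

theorem prfPlane1 : S_Strip → S_Swap → S_Cross → S_Plane1 := by
  intro hStrip hSwap hCross v Ω hΩ hvol hv hneg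
  have hfin : volume Ω ≠ ⊤ := (hvol.trans_lt ENNReal.ofReal_lt_top).ne
  obtain ⟨s, hs⟩ := hStrip v Ω hΩ hvol hv hneg
  have hlin : ∀ c, Tst (lin v c) := Plane1.lin_tst v (fun i => (hv i).1)
  have hΩ' : IsOpen (Prod.swap ⁻¹' Ω : Set (ℝ × ℝ)) := hΩ.preimage continuous_swap
  have hvol' : volume (Prod.swap ⁻¹' Ω : Set (ℝ × ℝ)) = volume Ω :=
    Plane1.area_swap Ω hΩ.measurableSet
  obtain ⟨s', hs'⟩ := hStrip (fun i (p : ℝ × ℝ) => v i p.swap) (Prod.swap ⁻¹' Ω) hΩ' (by rw [hvol']; exact hvol)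
    (fun i => by
      obtain ⟨h1, _, _, h4⟩ := hSwap (v i) (hv i).1
      refine ⟨h1, ?_⟩
      show tsupport (fun p : ℝ × ℝ => v i p.swap) ⊆ _
      rw [h4]
      exact preimage_mono (hv i).2)
    (fun c hc => by
      have e : lin (fun i (p : ℝ × ℝ) => v i p.swap) c = fun p => lin v c p.swap := rfl
      obtain ⟨_, h2, h3, _⟩ := hSwap (lin v c) (hlin c)
      rw [e, h2, h3]
      exact hneg c hc)
  have e1 : area (Prod.swap ⁻¹' Ω) = area Ω := by unfold area; rw [hvol']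
  have e2 : area (Prod.swap ⁻¹' Ω ∩ {p | |p.2 - s'| < tau}) = area (Ω ∩ {p | |p.1 - s'| < tau}) := by
    have e3 : (Prod.swap ⁻¹' Ω ∩ {p | |p.2 - s'| < tau} : Set (ℝ × ℝ)) =
        Prod.swap ⁻¹' (Ω ∩ {p | |p.1 - s'| < tau}) := by
      ext p; rfl
    unfold area
    rw [e3, Plane1.area_swap]
    refine hΩ.measurableSet.inter (measurableSet_lt ?_ measurable_const)
    exact (measurable_fst.sub_const s').abs
  rw [e1, e2] at hs'
  have htau : (0:ℝ) < tau := by norm_num [tau]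
  have hc := hCross Ω s s' tau hΩ.measurableSet hfin htau
  have hA : area Ω ≤ 1204 / 100 * Real.pi := by
    unfold area
    exact ENNReal.toReal_le_of_le_ofReal (by positivity) hvol
  have hpi : (3.1415 : ℝ) < Real.pi := Real.pi_gt_d4
  have hr : rho = 1925 / 10000 := rfl
  have ht : tau = 2124 / 1000 := rfl
  have hTh : Th = 238 / 100 := rfl
  rw [hr, hTh] at hs hs'
  rw [ht] at hc hs hs'
  nlinarith

end Pool.Agent.Work.MP_33c50c_an.K3
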