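import Pool.Agent.Work.MP_33c50c_an.K3.Stmts

/-!
# Block K3: regularity of the section functions
-/

namespace Pool.Agent.Work.MP_33c50c_an.K3

open MeasureTheory Set Filter Topology

namespace Reg

/-- continuous functions with compact support -/
def CC (g : ℝ × ℝ → ℝ) : Prop := Continuous g ∧ HasCompactSupport g

lemma CC.box {g : ℝ × ℝ → ℝ} (hg : CC g) : ∃ R : ℝ, 0 < R ∧
    ∀ x y : ℝ, (R < |x| ∨ R < |y|) → g (x, y) = 0 := by
  obtain ⟨R, hR⟩ := hg.2.isCompact.isBounded.subset_closedBall (0 : ℝ × ℝ)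
  refine ⟨max R 1, lt_of_lt_of_le one_pos (le_max_right _ _), fun x y h => ?_⟩
  by_contra h0
  have h1 : (x, y) ∈ tsupport g := subset_tsupport g h0
  have h2 := hR h1
  rw [mem_closedBall_zero_iff, Prod.norm_def] at h2
  have h3 : |x| ≤ R := le_trans (le_max_left _ _) h2
  have h4 : |y| ≤ R := le_trans (le_max_right _ _) h2
  rcases h with h | h
  · exact absurd (lt_of_le_of_lt (le_max_left R 1) h) (not_lt.2 h3)
  · exact absurd (lt_of_le_of_lt (le_max_left R 1) h) (not_lt.2 h4)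

lemma sec_eq {g : ℝ × ℝ → ℝ} {R : ℝ} (hR : ∀ x y : ℝ, (R < |x| ∨ R < |y|) → g (x, y) = 0)
    (y : ℝ) : ∫ x, g (x, y) = ∫ x in Icc (-R) R, g (x, y) := by
  symm
  apply setIntegral_eq_integral_of_forall_compl_eq_zero
  intro x hx
  apply hR
  left
  by_contra h
  exact hx (abs_le.1 (not_lt.1 h))

lemma sec_cont {g : ℝ × ℝ → ℝ} (hg : CC g) : Continuous (fun y : ℝ => ∫ x, g (x, y)) := by
  obtain ⟨R, _, hR⟩ := hg.box
  have h1 : (fun y : ℝ => ∫ x, g (x, y)) = fun y : ℝ => ∫ x in Icc (-R) R, g (x, y) :=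
    funext (sec_eq hR)
  rw [h1]
  have h2 : Continuous (Function.uncurry fun (y x : ℝ) => g (x, y)) :=
    hg.1.comp (continuous_snd.prodMk continuous_fst)
  exact continuous_parametric_integral_of_continuous h2 isCompact_Icc

lemma sec_supp {g : ℝ × ℝ → ℝ} (hg : CC g) :
    HasCompactSupport (fun y : ℝ => ∫ x, g (x, y)) := by
  obtain ⟨R, _, hR⟩ := hg.box
  apply HasCompactSupport.intro (isCompact_Icc : IsCompact (Icc (-R) R))
  intro y hy
  have h1 : ∀ x, g (x, y) = 0 := by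
    intro x
    apply hR
    right
    by_contra h
    exact hy (abs_le.1 (not_lt.1 h))
  simp [h1]

lemma CC.u {u : ℝ × ℝ → ℝ} (hu : Tst u) : CC u := ⟨hu.1.continuous, hu.2⟩

lemma CC.fd {u : ℝ × ℝ → ℝ} (hu : Tst u) (v : ℝ × ℝ) : CC (fun p => fderiv ℝ u p v) := by
  refine ⟨(hu.1.continuous_fderiv (by norm_num)).clm_apply continuous_const, ?_⟩
  exact (hu.2.fderiv ℝ).comp_left (g := fun L : (ℝ × ℝ) →L[ℝ] ℝ => L v) (by simp)

lemma CC.dx {u : ℝ × ℝ → ℝ} (hu : Tst u) : CC (dx u) := CC.fd hu _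

lemma CC.dy {u : ℝ × ℝ → ℝ} (hu : Tst u) : CC (dy u) := CC.fd hu _

lemma CC.mul {f g : ℝ × ℝ → ℝ} (hf : CC f) (hg : CC g) : CC (fun p => f p * g p) :=
  ⟨hf.1.mul hg.1, hf.2.mul_right⟩

lemma CC.sq {f : ℝ × ℝ → ℝ} (hf : CC f) : CC (fun p => f p ^ 2) := by
  have h := hf.mul hf
  have h1 : (fun p => f p ^ 2) = fun p => f p * f p := by
    funext p; ring
  rw [h1]; exact h

lemma CC.add {f g : ℝ × ℝ → ℝ} (hf : CC f) (hg : CC g) : CC (fun p => f p + g p) :=
  ⟨hf.1.add hg.1, hf.2.add hg.2⟩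

lemma CC.neg {f : ℝ × ℝ → ℝ} (hf : CC f) : CC (fun p => - f p) :=
  ⟨hf.1.neg, hf.2.comp_left (g := fun t : ℝ => -t) (by simp)⟩

lemma CC.den {u : ℝ × ℝ → ℝ} (hu : Tst u) : CC (den u) := by
  have h := ((CC.dx hu).sq.add (CC.dy hu).sq).add (CC.u hu).sq.neg
  have h1 : K3.den u = fun p => (K3.dx u p ^ 2 + K3.dy u p ^ 2) + - u p ^ 2 := by
    funext p
    show K3.dx u p ^ 2 + K3.dy u p ^ 2 - u p ^ 2 = _
    ring
  rw [h1]; exact h

lemma CC.int {g : ℝ × ℝ → ℝ} (hg : CC g) : Integrable g := hg.1.integrable_of_hasCompactSupport hg.2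

lemma deriv_sec {u : ℝ × ℝ → ℝ} (hu : Tst u) (x y : ℝ) :
    HasDerivAt (fun y : ℝ => u (x, y)) (dy u (x, y)) y := by
  have h1 : HasFDerivAt u (fderiv ℝ u (x, y)) (x, y) :=
    ((hu.1.differentiable (by norm_num)) (x, y)).hasFDerivAt
  have h2 : HasDerivAt (fun y : ℝ => ((x, y) : ℝ × ℝ)) ((0, 1) : ℝ × ℝ) y :=
    (hasDerivAt_const y x).prodMk (hasDerivAt_id y)
  exact h1.comp_hasDerivAt y h2

end Reg

open Reg in
theorem prfReg : S_Reg := by
  intro u hu
  have hg : CC (fun p => u p ^ 2) := (CC.u hu).sq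
  have hg' : CC (fun p => 2 * u p * dy u p) := by
    have h := (CC.u hu).mul (CC.dy hu)
    refine ⟨(continuous_const.mul hu.1.continuous).mul (CC.dy hu).1, ?_⟩
    have h1 : (fun p => 2 * u p * dy u p) = fun p => (fun t : ℝ => 2 * t) (u p * dy u p) := by
      funext p; ring
    rw [h1]
    exact h.2.comp_left (g := fun t : ℝ => 2 * t) (by simp)
  refine ⟨fun y => ?_, sec_cont hg', sec_cont (CC.den hu), sec_supp hg, sec_supp (CC.den hu), ?_⟩
  · obtain ⟨R, _, hR⟩ := hg.box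
    obtain ⟨R', _, hR'⟩ := hg'.box
    obtain ⟨B, hB⟩ := hg'.1.bounded_above_of_compact_support hg'.2
    set S : ℝ := max R R' with hS
    have hRS : ∀ x y : ℝ, (S < |x| ∨ S < |y|) → u (x, y) ^ 2 = 0 := fun x y h =>
      hR x y (h.imp (lt_of_le_of_lt (le_max_left _ _)) (lt_of_le_of_lt (le_max_left _ _)))
    have hRS' : ∀ x y : ℝ, (S < |x| ∨ S < |y|) → 2 * u (x, y) * dy u (x, y) = 0 := fun x y h =>
      hR' x y (h.imp (lt_of_le_of_lt (le_max_right _ _)) (lt_of_le_of_lt (le_max_right _ _)))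
    have h1 : mm u = fun y => ∫ x in Icc (-S) S, u (x, y) ^ 2 :=
      funext (fun y => sec_eq (g := fun p => u p ^ 2) hRS y)
    have h2 : dm u y = ∫ x in Icc (-S) S, 2 * u (x, y) * dy u (x, y) :=
      sec_eq (g := fun p => 2 * u p * dy u p) hRS' y
    rw [h1, h2]
    have hmk : ∀ z : ℝ, Continuous (fun x : ℝ => ((x, z) : ℝ × ℝ)) := fun z =>
      continuous_id.prodMk continuous_const
    refine (hasDerivAt_integral_of_dominated_loc_of_deriv_le (μ := volume.restrict (Icc (-S) S))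
      (F := fun y x => u (x, y) ^ 2) (F' := fun y x => 2 * u (x, y) * dy u (x, y))
      (bound := fun _ => B) (s := univ) (x₀ := y) Filter.univ_mem ?_ ?_ ?_ ?_ ?_ ?_).2
    · exact Eventually.of_forall (fun z => (hg.1.comp (hmk z)).aestronglyMeasurable)
    · exact (hg.1.comp (hmk y)).continuousOn.integrableOn_compact isCompact_Icc
    · exact (hg'.1.comp (hmk y)).aestronglyMeasurable
    · exact Eventually.of_forall (fun x z _ => hB (x, z))
    · exact integrable_const _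
    · refine Eventually.of_forall (fun x z _ => ?_)
      have h3 := (deriv_sec hu x z).pow 2
      have h4 : 2 * u (x, z) * dy u (x, z) = (2 : ℕ) * u (x, z) ^ (2 - 1) * dy u (x, z) := by
        norm_num
      show HasDerivAt (fun y => u (x, y) ^ 2) (2 * u (x, z) * dy u (x, z)) z
      rw [h4]
      exact h3
  · unfold EH
    have h1 : hp 1 0 = (univ : Set ℝ) ×ˢ Ioi (0 : ℝ) := by
      ext p
      simp [hp]
    rw [h1]
    show ∫ p in univ ×ˢ Ioi (0 : ℝ), den u p ∂(volume.prod volume) = _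
    rw [← Measure.prod_restrict, Measure.restrict_univ]
    have h2 : Integrable (den u) (volume.prod (volume.restrict (Ioi (0 : ℝ)))) := by
      have h3 : (volume.prod (volume.restrict (Ioi (0 : ℝ))) : Measure (ℝ × ℝ)) =
          (volume.prod volume).restrict ((univ : Set ℝ) ×ˢ Ioi (0 : ℝ)) := by
        rw [← Measure.prod_restrict, Measure.restrict_univ]
      rw [h3]
      exact (CC.den hu).int.integrableOn
    rw [integral_prod_symm _ h2]
    rfl

end Pool.Agent.Work.MP_33c50c_an.K3
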