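import Mathlib
import Pool.Agent.Work.MP_33c50c_an.K3.Stmts

namespace Pool.Agent.Work.MP_33c50c_an.K3

open MeasureTheory Set Filter Topology

namespace Ro

/-- a bound for the height of the support -/
lemma bound {u : Cyl → ℝ} (hu : HasCompactSupport u) :
    ∃ R : ℝ, 0 ≤ R ∧ ∀ p : Cyl, R ≤ |p.2| → u p = 0 := by
  have hc : IsCompact (Prod.snd '' tsupport u) := hu.isCompact.image continuous_snd
  obtain ⟨R, hR⟩ := hc.isBounded.exists_norm_le
  refine ⟨max R 0 + 1, by positivity, ?_⟩
  intro p hp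
  by_contra h
  have h1 := hR p.2 ⟨p, subset_tsupport _ h, rfl⟩
  rw [Real.norm_eq_abs] at h1
  have := le_max_left R 0
  linarith

lemma ro_eq {u : Cyl → ℝ} {R : ℝ} (hR0 : 0 ≤ R) (hR : ∀ p : Cyl, R ≤ |p.2| → u p = 0) (x : ℝ) :
    ro u x = ∫ y in (-R)..R, u (pt x y) ^ 2 := by
  unfold ro
  rw [intervalIntegral.integral_of_le (by linarith)]
  symm
  apply setIntegral_eq_integral_of_forall_compl_eq_zero
  intro y hy
  have hy' : R ≤ |y| := by
    by_contra h
    apply hy
    rw [not_le, abs_lt] at h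
    exact ⟨h.1, h.2.le⟩
  rw [hR (pt x y) hy']; simp

end Ro

theorem prfRo : S_Ro := by
  intro Ω u hu
  obtain ⟨R, hR0, hR⟩ := Ro.bound hu.2.1
  have hlc : Continuous (lft u) := hu.1.continuous
  have huc : Continuous u := continuous_of_lft u hlc
  have hq : Continuous fun q : ℝ × ℝ => u (pt q.1 q.2) ^ 2 := (hlc.pow 2)
  have heq : ro u = fun x => ∫ y in (-R)..R, u (pt x y) ^ 2 := funext fun x => Ro.ro_eq hR0 hR x
  refine ⟨?_, ?_, ?_, ?_⟩
  · rw [heq]
    exact intervalIntegral.continuous_parametric_intervalIntegral_of_continuous' hq (-R) R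
  · intro x
    exact integral_nonneg fun y => sq_nonneg _
  · intro x
    unfold ro
    simp_rw [pt_per]
  · rw [heq]
    have hm := integral_cyl (fun p => u p ^ 2) (huc.pow 2)
      (by
        have := hu.2.1
        exact this.comp_left (g := fun t : ℝ => t ^ 2) (by simp)) R hR0
      (fun p hp => by show u p ^ 2 = 0; rw [hR p hp]; simp)
    show _ = ∫ p, u p ^ 2
    rw [hm]
    exact swap_cont (fun x y => u (pt x y) ^ 2) hq 0 (2 * Real.pi) (-R) R

end Pool.Agent.Work.MP_33c50c_an.K3
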