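import Pool.Agent.Work.MP_33c50c_an.K3.Stmts

set_option autoImplicit false

namespace Pool.Agent.Work.MP_33c50c_an.K3

open MeasureTheory Set Filter Topology

namespace Sec

lemma cont_dx {u : ℝ × ℝ → ℝ} (hu : Tst u) : Continuous (dx u) :=
  (hu.1.continuous_fderiv one_ne_zero).clm_apply continuous_const

lemma cont_dy {u : ℝ × ℝ → ℝ} (hu : Tst u) : Continuous (dy u) :=
  (hu.1.continuous_fderiv one_ne_zero).clm_apply continuous_const

lemma dx_zero {u : ℝ × ℝ → ℝ} {p : ℝ × ℝ} (hp : p ∉ tsupport u) : dx u p = 0 := by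
  have h : fderiv ℝ u p = 0 := by
    by_contra hh
    exact hp (support_fderiv_subset ℝ hh)
  simp [dx, h]

lemma dy_zero {u : ℝ × ℝ → ℝ} {p : ℝ × ℝ} (hp : p ∉ tsupport u) : dy u p = 0 := by
  have h : fderiv ℝ u p = 0 := by
    by_contra hh
    exact hp (support_fderiv_subset ℝ hh)
  simp [dy, h]

/-- a continuous function on a horizontal line which vanishes outside the support of `u` -/
lemma integrable_sec {u : ℝ × ℝ → ℝ} (hu : Tst u) (F : ℝ × ℝ → ℝ) (hF : Continuous F)
    (h0 : ∀ p, p ∉ tsupport u → F p = 0) (y : ℝ) :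
    Integrable fun x => F (x, y) := by
  refine (hF.comp (by fun_prop)).integrable_of_hasCompactSupport ?_
  refine HasCompactSupport.of_support_subset_isCompact (hu.2.isCompact.image continuous_fst) ?_
  intro x hx
  by_contra hh
  apply hx
  apply h0
  intro hmem
  exact hh ⟨(x, y), hmem, rfl⟩

end Sec

open Sec

theorem prfSec : S_FK1 → S_Sec := by
  intro hFK u G hu hG R y hy
  obtain ⟨-, hGpos, hGsup⟩ := hG
  have hcu : Continuous u := hu.1.continuous
  have hu0 : ∀ p, p ∉ tsupport u → u p = 0 := fun p hp => image_eq_zero_of_notMem_tsupport hp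
  -- the function on the line
  have hcf : ContDiff ℝ 1 fun x => u (x, y) := hu.1.comp (by fun_prop)
  have hsf : HasCompactSupport fun x => u (x, y) := by
    refine HasCompactSupport.of_support_subset_isCompact (hu.2.isCompact.image continuous_fst) ?_
    intro x hx
    exact ⟨(x, y), subset_tsupport _ hx, rfl⟩
  have hder : ∀ x, deriv (fun x => u (x, y)) x = dx u (x, y) := by
    intro x
    have h1 : HasDerivAt (fun x : ℝ => ((x, y) : ℝ × ℝ)) (1, 0) x :=
      (hasDerivAt_id x).prodMk (hasDerivAt_const x y)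
    have h2 : HasFDerivAt u (fderiv ℝ u (x, y)) (x, y) :=
      ((hu.1.differentiable one_ne_zero) (x, y)).hasFDerivAt
    exact (h2.comp_hasDerivAt x h1).deriv
  have hfk := hFK (fun x => u (x, y)) (G y) hcf hsf (hGpos y) (hGsup y hy)
  simp only [hder] at hfk
  -- integrals
  have iA : Integrable fun x => dx u (x, y) ^ 2 :=
    integrable_sec hu (fun p => dx u p ^ 2) ((cont_dx hu).pow 2)
      (fun p hp => by simp [dx_zero hp]) y
  have iB : Integrable fun x => dy u (x, y) ^ 2 :=
    integrable_sec hu (fun p => dy u p ^ 2) ((cont_dy hu).pow 2)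
      (fun p hp => by simp [dy_zero hp]) y
  have iM : Integrable fun x => u (x, y) ^ 2 :=
    integrable_sec hu (fun p => u p ^ 2) (hcu.pow 2) (fun p hp => by simp [hu0 p hp]) y
  have iD : Integrable fun x => 2 * u (x, y) * dy u (x, y) :=
    integrable_sec hu (fun p => 2 * u p * dy u p)
      ((continuous_const.mul hcu).mul (cont_dy hu)) (fun p hp => by simp [hu0 p hp]) y
  have hee : ee u y = (∫ x, dx u (x, y) ^ 2) + (∫ x, dy u (x, y) ^ 2) - mm u y := by
    have iAB : Integrable fun x => dx u (x, y) ^ 2 + dy u (x, y) ^ 2 := iA.add iB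
    unfold ee mm den
    rw [integral_sub iAB iM, integral_add iA iB]
  have hsq : 0 ≤ (∫ x, dy u (x, y) ^ 2) + R * dm u y + R ^ 2 * mm u y := by
    have h1 : (∫ x, dy u (x, y) ^ 2) + R * dm u y + R ^ 2 * mm u y =
        ∫ x, (dy u (x, y) + R * u (x, y)) ^ 2 := by
      have iBD : Integrable fun x => dy u (x, y) ^ 2 + R * (2 * u (x, y) * dy u (x, y)) :=
        iB.add (iD.const_mul R)
      unfold dm mm
      rw [← integral_const_mul, ← integral_const_mul, ← integral_add iB (iD.const_mul R),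
        ← integral_add iBD (iM.const_mul (R ^ 2))]
      refine integral_congr_ae (Eventually.of_forall fun x => ?_)
      simp only
      ring
    rw [h1]
    exact integral_nonneg fun x => sq_nonneg _
  have hG2 : 0 < G y ^ 2 := pow_pos (hGpos y) 2
  have hA : mm u y / G y ^ 2 ≤ ∫ x, dx u (x, y) ^ 2 := by
    rw [div_le_iff₀ hG2]
    calc mm u y ≤ G y ^ 2 * ∫ x, dx u (x, y) ^ 2 := hfk
      _ = _ := by ring
  rw [hee]
  have h3 : (∫ x, dx u (x, y) ^ 2) + (∫ x, dy u (x, y) ^ 2) - mm u y +
      (R ^ 2 + 1 - 1 / G y ^ 2) * mm u y + R * dm u y =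
      ((∫ x, dx u (x, y) ^ 2) - mm u y / G y ^ 2) +
        ((∫ x, dy u (x, y) ^ 2) + R * dm u y + R ^ 2 * mm u y) := by ring
  rw [h3]
  linarith

end Pool.Agent.Work.MP_33c50c_an.K3
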