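import Pool.Agent.Work.MP_33c50c_an.K3.Stmts

/-!
# Two symmetric matrices with negative definite sum
-/

set_option autoImplicit false

namespace Pool.Agent.Work.MP_33c50c_an.K3

open Module

namespace Sig

lemma qf_eq (M : Matrix (Fin 3) (Fin 3) ℝ) (c : Fin 3 → ℝ) :
    qf M c = Matrix.toBilin' M c c := by
  rw [Matrix.toBilin'_apply]
  unfold qf
  refine Finset.sum_congr rfl fun i _ => Finset.sum_congr rfl fun j _ => ?_
  ring

lemma qf_add (P N : Matrix (Fin 3) (Fin 3) ℝ) (c : Fin 3 → ℝ) :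
    qf (P + N) c = qf P c + qf N c := by
  unfold qf
  rw [← Finset.sum_add_distrib]
  refine Finset.sum_congr rfl fun i _ => ?_
  rw [← Finset.sum_add_distrib]
  refine Finset.sum_congr rfl fun j _ => ?_
  rw [Matrix.add_apply]
  ring

lemma symm_bilin {P : Matrix (Fin 3) (Fin 3) ℝ} (hP : SymM P) :
    LinearMap.IsSymm (Matrix.toBilin' P) := by
  constructor
  intro x y
  rw [RingHom.id_apply]
  rw [Matrix.toBilin'_apply, Matrix.toBilin'_apply, Finset.sum_comm]
  refine Finset.sum_congr rfl fun i _ => Finset.sum_congr rfl fun j _ => ?_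
  rw [hP j i]
  ring

/-- an orthogonal basis -/
lemma exists_basis {P : Matrix (Fin 3) (Fin 3) ℝ} (hP : SymM P) :
    ∃ v : Basis (Fin 3) ℝ (Fin 3 → ℝ), ∀ i j, i ≠ j → Matrix.toBilin' P (v i) (v j) = 0 := by
  have h2 : Invertible (2 : ℝ) := invertibleOfNonzero (by norm_num)
  obtain ⟨v, hv⟩ := LinearMap.BilinForm.exists_orthogonal_basis (symm_bilin hP)
  have h3 : finrank ℝ (Fin 3 → ℝ) = 3 := by simp
  refine ⟨v.reindex (finCongr h3), fun i j hij => ?_⟩
  rw [Basis.reindex_apply, Basis.reindex_apply]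
  apply hv
  intro h
  exact hij ((finCongr h3).symm.injective h)

lemma comb (v : Fin 3 → Fin 3 → ℝ) (i j : Fin 3) (θ : ℝ) :
    (fun l => Real.cos θ * v i l + Real.sin θ * v j l) = Real.cos θ • v i + Real.sin θ • v j := by
  funext l
  simp

lemma qf_comb {P : Matrix (Fin 3) (Fin 3) ℝ} {v : Fin 3 → Fin 3 → ℝ}
    (hv : ∀ i j, i ≠ j → Matrix.toBilin' P (v i) (v j) = 0) {i j : Fin 3} (hij : i ≠ j) (θ : ℝ) :
    qf P (Real.cos θ • v i + Real.sin θ • v j) =
      Real.cos θ ^ 2 * qf P (v i) + Real.sin θ ^ 2 * qf P (v j) := by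
  rw [qf_eq, qf_eq, qf_eq]
  simp only [map_add, map_smul, LinearMap.add_apply, LinearMap.smul_apply, smul_eq_mul,
    hv i j hij, hv j i hij.symm]
  ring

lemma comb_ne {v : Basis (Fin 3) ℝ (Fin 3 → ℝ)} {i j : Fin 3} (hij : i ≠ j) (θ : ℝ) :
    Real.cos θ • v i + Real.sin θ • v j ≠ 0 := by
  intro h
  have h1 := congrArg (fun x => v.repr x i) h
  have h2 := congrArg (fun x => v.repr x j) h
  simp only [map_add, map_smul, Basis.repr_self, Finsupp.add_apply, Finsupp.smul_apply,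
    Finsupp.single_eq_same, Finsupp.single_eq_of_ne hij, Finsupp.single_eq_of_ne hij.symm,
    smul_eq_mul, map_zero, Finsupp.coe_zero, Pi.zero_apply, mul_one, mul_zero, add_zero,
    zero_add] at h1 h2
  have := Real.cos_sq_add_sin_sq θ
  rw [h1, h2] at this
  norm_num at this

end Sig

theorem prfSig : S_Sig := by
  intro P N hP _ hD
  obtain ⟨v, hv⟩ := Sig.exists_basis hP
  have neg : ∀ i j : Fin 3, i ≠ j → qf P (v i) < 0 → qf P (v j) < 0 → NegM P := by
    intro i j hij hi hj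
    refine ⟨v i, v j, fun θ => ?_⟩
    rw [Sig.comb (fun i => v i), Sig.qf_comb (v := fun i => v i) hv hij]
    have h := Real.cos_sq_add_sin_sq θ
    by_cases hc : Real.cos θ = 0
    · rw [hc] at h ⊢
      have hs : Real.sin θ ^ 2 = 1 := by linarith
      rw [hs]
      linarith
    · have h1 : 0 < Real.cos θ ^ 2 := by positivity
      have h2 : 0 ≤ Real.sin θ ^ 2 := sq_nonneg _
      nlinarith
  have pos : ∀ i j : Fin 3, i ≠ j → 0 ≤ qf P (v i) → 0 ≤ qf P (v j) → NegM N := by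
    intro i j hij hi hj
    refine ⟨v i, v j, fun θ => ?_⟩
    rw [Sig.comb (fun i => v i)]
    have h1 := hD _ (Sig.comb_ne (v := v) hij θ)
    rw [Sig.qf_add, Sig.qf_comb (v := fun i => v i) hv hij] at h1
    have h2 : 0 ≤ Real.cos θ ^ 2 * qf P (v i) := mul_nonneg (sq_nonneg _) hi
    have h3 : 0 ≤ Real.sin θ ^ 2 * qf P (v j) := mul_nonneg (sq_nonneg _) hj
    linarith
  rcases lt_or_ge (qf P (v 0)) 0 with h0 | h0 <;> rcases lt_or_ge (qf P (v 1)) 0 with h1 | h1 <;>
    rcases lt_or_ge (qf P (v 2)) 0 with h2 | h2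
  · exact Or.inl (neg 0 1 (by decide) h0 h1)
  · exact Or.inl (neg 0 1 (by decide) h0 h1)
  · exact Or.inl (neg 0 2 (by decide) h0 h2)
  · exact Or.inr (pos 1 2 (by decide) h1 h2)
  · exact Or.inl (neg 1 2 (by decide) h1 h2)
  · exact Or.inr (pos 0 2 (by decide) h0 h2)
  · exact Or.inr (pos 0 1 (by decide) h0 h1)
  · exact Or.inr (pos 0 1 (by decide) h0 h1)

end Pool.Agent.Work.MP_33c50c_an.K3
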