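import Pool.Agent.Work.MP_33c50c_an.K3.Stmts

namespace Pool.Agent.Work.MP_33c50c_an.K3

open MeasureTheory Set Filter Topology

namespace Slab

lemma hh_pos : (0 : ℝ) < hh := by norm_num [hh]

lemma lat_cont (x y : Fin 4 → ℝ) (p : ℝ) {F : ℝ → ℝ} (hF : Continuous F) :
    Continuous fun s => lat (fun i => x i + (s - p) / hh * (y i - x i)) (F s) := by
  unfold lat
  have h : ∀ i, Continuous fun s => (x i + (s - p) / hh * (y i - x i) - F s) / bv i := by
    intro i
    fun_prop
  exact (((continuous_const.sub hF).div_const _)).max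
    (((h 0).min (h 1)).min ((h 2).min (h 3)))

end Slab

open Slab in
theorem prfSlab : S_Dini → S_LatLt → S_LatDL → S_Slab := by
  intro hDini hLt hDL u G hu hG x y hxy p C hp hC hCG
  have hh0 := hh_pos
  have hGc := hG.1
  have hG0 := hG.2.1
  have hint : ∀ a b : ℝ, IntervalIntegrable G volume a b := fun a b => hGc.intervalIntegrable a b
  have hF : Continuous fun s => C - ∫ z in p..s, G z :=
    continuous_const.sub (intervalIntegral.continuous_primitive hint p)
  have hpos : ∀ s ∈ Icc p (p + hh), 0 < C - ∫ z in p..s, G z := by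
    intro s hs
    have h1 : 0 ≤ ∫ z in s..(p + hh), G z :=
      intervalIntegral.integral_nonneg hs.2 (fun z _ => (hG0 z).le)
    have h2 := intervalIntegral.integral_add_adjacent_intervals (hint p s) (hint s (p + hh))
    linarith
  have hle : ∀ s ∈ Icc p (p + hh), C - (∫ z in p..s, G z) ≤ Th := by
    intro s hs
    have h1 : 0 ≤ ∫ z in p..s, G z :=
      intervalIntegral.integral_nonneg hs.1 (fun z _ => (hG0 z).le)
    linarith
  have h := hDini u G (fun s => lat (fun i => x i + (s - p) / hh * (y i - x i))
    (C - ∫ z in p..s, G z)) p (p + hh) hu hG hp (by linarith)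
    (lat_cont x y p hF).continuousOn
    (fun s hs => hLt _ _ (by rw [hxy.1, hxy.2.1, sub_self, mul_zero, add_zero])
      (hpos s hs) (hle s hs))
    (fun s hs => hDL G x y p C s hGc hG0 hxy hC hs (hpos s ⟨hs.1, hs.2.le⟩))
  have e1 : (fun i => x i + (p - p) / hh * (y i - x i)) = x := by
    funext i; rw [sub_self, zero_div, zero_mul, add_zero]
  have e2 : (fun i => x i + (p + hh - p) / hh * (y i - x i)) = y := by
    funext i; rw [add_sub_cancel_left, div_self hh0.ne', one_mul]; ring
  simp only [e1, e2, intervalIntegral.integral_same, sub_zero] at h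
  exact h

end Pool.Agent.Work.MP_33c50c_an.K3
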