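import Pool.Agent.Work.MP_33c50c_an.K3.Stmts

set_option autoImplicit false

namespace Pool.Agent.Work.MP_33c50c_an.K3

open MeasureTheory Set Filter Topology

namespace Strip

theorem sum4 (S : Fin 4 → Set (ℝ × ℝ)) (T : Set (ℝ × ℝ)) (hm : ∀ i, MeasurableSet (S i))
    (hd : Pairwise (Function.onFun Disjoint S)) (hs : ∀ i, S i ⊆ T) (hT : volume T ≠ ⊤) :
    area (S 0) + area (S 1) + area (S 2) + area (S 3) ≤ area T := by
  have h1 : volume (⋃ i, S i) = ∑ i, volume (S i) := by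
    rw [measure_iUnion hd hm, tsum_fintype]
  have h2 : volume (⋃ i, S i) ≤ volume T := measure_mono (iUnion_subset hs)
  rw [h1] at h2
  have hf : ∀ i, volume (S i) ≠ ⊤ := fun i => ne_top_of_le_ne_top hT (measure_mono (hs i))
  have h3 : (∑ i, volume (S i)).toReal = ∑ i, (volume (S i)).toReal :=
    ENNReal.toReal_sum fun i _ => hf i
  have h4 := ENNReal.toReal_mono hT h2
  rw [h3, Fin.sum_univ_four] at h4
  exact h4

theorem meas_hp (κ s : ℝ) : MeasurableSet (hp κ s) := by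
  apply IsOpen.measurableSet
  exact isOpen_lt continuous_const (by fun_prop)

theorem meas_sp (κ s T : ℝ) : MeasurableSet (sp κ s T) := by
  apply IsOpen.measurableSet
  have h1 : Continuous fun p : ℝ × ℝ => κ * (p.2 - s) := by fun_prop
  exact (isOpen_lt continuous_const h1).inter (isOpen_lt h1 continuous_const)

theorem disj_hp (s : ℝ) : Disjoint (hp 1 s) (hp (-1) s) := by
  rw [Set.disjoint_left]
  intro p h1 h2
  simp only [hp, mem_ofPred_eq] at h1 h2
  linarith

theorem sp_sub (κ s T : ℝ) : sp κ s T ⊆ hp κ s := fun _ hp => hp.1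

theorem sp_strip {κ : ℝ} (hκ : κ = 1 ∨ κ = -1) (s T : ℝ) : sp κ s T ⊆ {p | |p.2 - s| < T} := by
  rintro p ⟨h1, h2⟩
  simp only [mem_ofPred_eq, abs_lt]
  rcases hκ with rfl | rfl
  · constructor <;> linarith
  · constructor <;> linarith

end Strip

open Strip in
theorem prfStrip : S_CellS → S_Four → S_Strip := by
  intro hC hF v Ω hΩ hvol hv hneg
  obtain ⟨s, hs⟩ := hF v Ω hv hneg
  refine ⟨s, ?_⟩
  obtain ⟨u₁, u₂, K₁, K₂, t₁, t₂, k₁, k₂, kd, kΩ, s₁, s₂, e₁, e₂⟩ := hs 1 (Or.inl rfl)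
  obtain ⟨u₃, u₄, K₃, K₄, t₃, t₄, k₃, k₄, kd', kΩ', s₃, s₄, e₃, e₄⟩ := hs (-1) (Or.inr rfl)
  have c₁ := hC u₁ K₁ 1 s (Or.inl rfl) t₁ k₁ s₁ e₁
  have c₂ := hC u₂ K₂ 1 s (Or.inl rfl) t₂ k₂ s₂ e₂
  have c₃ := hC u₃ K₃ (-1) s (Or.inr rfl) t₃ k₃ s₃ e₃
  have c₄ := hC u₄ K₄ (-1) s (Or.inr rfl) t₄ k₄ s₄ e₄
  have hpi : 0 < Real.pi := Real.pi_pos
  have hfin : volume Ω ≠ ⊤ := ne_top_of_le_ne_top ENNReal.ofReal_ne_top hvol
  have hareaΩ : area Ω ≤ 1204 / 100 * Real.pi := by
    have := ENNReal.toReal_mono ENNReal.ofReal_ne_top hvol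
    rwa [ENNReal.toReal_ofReal (by positivity)] at this
  have hK₁ : K₁ ⊆ Ω := subset_union_left.trans kΩ
  have hK₂ : K₂ ⊆ Ω := subset_union_right.trans kΩ
  have hK₃ : K₃ ⊆ Ω := subset_union_left.trans kΩ'
  have hK₄ : K₄ ⊆ Ω := subset_union_right.trans kΩ'
  -- generic disjointness
  have hdis : ∀ (A B C D : Set (ℝ × ℝ)), A ⊆ hp 1 s → B ⊆ hp 1 s → C ⊆ hp (-1) s →
      D ⊆ hp (-1) s → Disjoint A B → Disjoint C D →
      Pairwise (Function.onFun Disjoint (![A, B, C, D] : Fin 4 → Set (ℝ × ℝ))) := by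
    intro A B C D hA hB hC' hD hAB hCD
    have hAC : Disjoint A C := (disj_hp s).mono hA hC'
    have hAD : Disjoint A D := (disj_hp s).mono hA hD
    have hBC : Disjoint B C := (disj_hp s).mono hB hC'
    have hBD : Disjoint B D := (disj_hp s).mono hB hD
    intro i j hij
    fin_cases i <;> fin_cases j <;>
      first
      | exact absurd rfl hij
      | exact hAB
      | exact hAC
      | exact hAD
      | exact hBC
      | exact hBD
      | exact hCD
      | exact hAB.symm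
      | exact hAC.symm
      | exact hAD.symm
      | exact hBC.symm
      | exact hBD.symm
      | exact hCD.symm
  have hA : area (K₁ ∩ hp 1 s) + area (K₂ ∩ hp 1 s) + area (K₃ ∩ hp (-1) s) +
      area (K₄ ∩ hp (-1) s) ≤ area Ω := by
    refine sum4 ![K₁ ∩ hp 1 s, K₂ ∩ hp 1 s, K₃ ∩ hp (-1) s, K₄ ∩ hp (-1) s] Ω ?_ ?_ ?_ hfin
    · intro i
      fin_cases i
      · exact k₁.measurableSet.inter (meas_hp _ _)
      · exact k₂.measurableSet.inter (meas_hp _ _)
      · exact k₃.measurableSet.inter (meas_hp _ _)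
      · exact k₄.measurableSet.inter (meas_hp _ _)
    · exact hdis _ _ _ _ inter_subset_right inter_subset_right inter_subset_right
        inter_subset_right (kd.mono inter_subset_left inter_subset_left)
        (kd'.mono inter_subset_left inter_subset_left)
    · intro i
      fin_cases i
      · exact inter_subset_left.trans hK₁
      · exact inter_subset_left.trans hK₂
      · exact inter_subset_left.trans hK₃
      · exact inter_subset_left.trans hK₄
  have hB : area (K₁ ∩ sp 1 s tau) + area (K₂ ∩ sp 1 s tau) + area (K₃ ∩ sp (-1) s tau) +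
      area (K₄ ∩ sp (-1) s tau) ≤ area (Ω ∩ {p | |p.2 - s| < tau}) := by
    refine sum4 ![K₁ ∩ sp 1 s tau, K₂ ∩ sp 1 s tau, K₃ ∩ sp (-1) s tau, K₄ ∩ sp (-1) s tau]
      (Ω ∩ {p | |p.2 - s| < tau}) ?_ ?_ ?_ (ne_top_of_le_ne_top hfin (measure_mono inter_subset_left))
    · intro i
      fin_cases i
      · exact k₁.measurableSet.inter (meas_sp _ _ _)
      · exact k₂.measurableSet.inter (meas_sp _ _ _)
      · exact k₃.measurableSet.inter (meas_sp _ _ _)
      · exact k₄.measurableSet.inter (meas_sp _ _ _)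
    · exact hdis _ _ _ _ (inter_subset_right.trans (sp_sub _ _ _))
        (inter_subset_right.trans (sp_sub _ _ _)) (inter_subset_right.trans (sp_sub _ _ _))
        (inter_subset_right.trans (sp_sub _ _ _)) (kd.mono inter_subset_left inter_subset_left)
        (kd'.mono inter_subset_left inter_subset_left)
    · intro i
      fin_cases i
      · exact inter_subset_inter hK₁ (sp_strip (Or.inl rfl) _ _)
      · exact inter_subset_inter hK₂ (sp_strip (Or.inl rfl) _ _)
      · exact inter_subset_inter hK₃ (sp_strip (Or.inr rfl) _ _)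
      · exact inter_subset_inter hK₄ (sp_strip (Or.inr rfl) _ _)
  have hb : bv 3 = 4 * (866 / 1000) ^ 3 := rfl
  have hAB : AB = 4247 / 1000 := rfl
  have hrho : rho = 1925 / 10000 := rfl
  rw [hb] at c₁ c₂ c₃ c₄
  rw [hAB] at c₁ c₂ c₃ c₄
  rw [hrho] at c₁ c₂ c₃ c₄ ⊢
  obtain ⟨l₁, m₁⟩ := c₁
  obtain ⟨l₂, m₂⟩ := c₂
  obtain ⟨l₃, m₃⟩ := c₃
  obtain ⟨l₄, m₄⟩ := c₄
  have n₁ := m₁ (by nlinarith)
  have n₂ := m₂ (by nlinarith)
  have n₃ := m₃ (by nlinarith)
  have n₄ := m₄ (by nlinarith)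
  linarith

end Pool.Agent.Work.MP_33c50c_an.K3
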