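import Mathlib
import Pool.Agent.Work.MP_33c50c_an.K3.Stmts

namespace Pool.Agent.Work.MP_33c50c_an.K3

open MeasureTheory Set Filter Topology

namespace Swap

theorem fder (u : ℝ × ℝ → ℝ) (p v : ℝ × ℝ) :
    fderiv ℝ (fun p => u p.swap) p v = fderiv ℝ u p.swap v.swap := by
  have h := (ContinuousLinearEquiv.prodComm ℝ ℝ ℝ).comp_right_fderiv (f := u) (x := p)
  have h2 : (fun p => u p.swap) = u ∘ (ContinuousLinearEquiv.prodComm ℝ ℝ ℝ) := by
    funext q; rfl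
  rw [h2, h]
  rfl

theorem hdx (u : ℝ × ℝ → ℝ) (p : ℝ × ℝ) : dx (fun p => u p.swap) p = dy u p.swap := by
  unfold dx dy
  rw [fder]
  rfl

theorem hdy (u : ℝ × ℝ → ℝ) (p : ℝ × ℝ) : dy (fun p => u p.swap) p = dx u p.swap := by
  unfold dx dy
  rw [fder]
  rfl

theorem hint (f : ℝ × ℝ → ℝ) : ∫ p : ℝ × ℝ, f p.swap = ∫ p, f p := by
  have h : MeasurePreserving (Prod.swap : ℝ × ℝ → ℝ × ℝ) volume volume :=
    Measure.measurePreserving_swap
  exact h.integral_comp (MeasurableEquiv.prodComm (α := ℝ) (β := ℝ)).measurableEmbedding f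

end Swap

theorem prfSwap : S_Swap := by
  intro u hu
  obtain ⟨h1, h2⟩ := hu
  refine ⟨⟨?_, ?_⟩, ?_, ?_, ?_⟩
  · exact h1.comp (contDiff_snd.prodMk contDiff_fst)
  · exact h2.comp_homeomorph (Homeomorph.prodComm ℝ ℝ)
  · unfold gE
    rw [← Swap.hint (fun p => dx u p ^ 2 + dy u p ^ 2)]
    congr 1
    funext p
    rw [Swap.hdx, Swap.hdy]
    ring
  · unfold gM
    exact Swap.hint (fun p => u p ^ 2)
  · exact tsupport_comp_eq_preimage u (Homeomorph.prodComm ℝ ℝ)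

end Pool.Agent.Work.MP_33c50c_an.K3
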