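import Pool.Agent.Work.MP_33c50c_an.K3.Stmts

/-!
# MP_33c50c_an, block K3, item Sym: translations and reflections
-/

namespace Pool.Agent.Work.MP_33c50c_an.K3

open MeasureTheory Set Filter Topology

namespace Sym

theorem sq_one {κ : ℝ} (h : κ = 1 ∨ κ = -1) : κ * κ = 1 := by
  rcases h with rfl | rfl <;> norm_num

/-- the affine homeomorphism -/
noncomputable def FF (κ s : ℝ) (h : κ = 1 ∨ κ = -1) : (ℝ × ℝ) ≃ₜ (ℝ × ℝ) where
  toFun p := (p.1, s + κ * p.2)
  invFun q := (q.1, κ * (q.2 - s))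
  left_inv p := by
    have := sq_one h
    ext
    · rfl
    · simp only [add_sub_cancel_left, ← mul_assoc, this, one_mul]
  right_inv q := by
    have := sq_one h
    ext
    · rfl
    · simp only [← mul_assoc, this, one_mul]
      ring
  continuous_toFun := by fun_prop
  continuous_invFun := by fun_prop

theorem FF_apply (κ s : ℝ) (h : κ = 1 ∨ κ = -1) (p : ℝ × ℝ) :
    FF κ s h p = (p.1, s + κ * p.2) := rfl

theorem mp_line (κ s : ℝ) (h : κ = 1 ∨ κ = -1) :
    MeasurePreserving (fun y : ℝ => s + κ * y) volume volume := by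
  rcases h with rfl | rfl
  · simpa using measurePreserving_add_left (volume : Measure ℝ) s
  · have := Measure.measurePreserving_sub_left (volume : Measure ℝ) s
    simpa [sub_eq_add_neg] using this

theorem mp (κ s : ℝ) (h : κ = 1 ∨ κ = -1) :
    MeasurePreserving (FF κ s h) volume volume := by
  have := (MeasurePreserving.id (volume : Measure ℝ)).prod (mp_line κ s h)
  exact this

theorem fd {u : ℝ × ℝ → ℝ} (hu : ContDiff ℝ 1 u) (κ s : ℝ) (p v : ℝ × ℝ) :
    fderiv ℝ (fun p => u (p.1, s + κ * p.2)) p v =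
      fderiv ℝ u (p.1, s + κ * p.2) (v.1, κ * v.2) := by
  have h1 : HasFDerivAt (fun p : ℝ × ℝ => (p.1, s + κ * p.2))
      ((ContinuousLinearMap.fst ℝ ℝ ℝ).prod (κ • ContinuousLinearMap.snd ℝ ℝ ℝ)) p :=
    hasFDerivAt_fst.prodMk ((hasFDerivAt_snd.const_mul κ).const_add s)
  have h2 : HasFDerivAt u (fderiv ℝ u (p.1, s + κ * p.2)) (p.1, s + κ * p.2) :=
    (hu.differentiable (by norm_num)).differentiableAt.hasFDerivAt
  have h3 := h2.comp p h1
  have h4 : HasFDerivAt (fun p : ℝ × ℝ => u (p.1, s + κ * p.2)) _ p := h3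
  rw [h4.fderiv]
  simp

theorem den_eq {u : ℝ × ℝ → ℝ} (hu : ContDiff ℝ 1 u) {κ s : ℝ} (h : κ = 1 ∨ κ = -1) (p : ℝ × ℝ) :
    den (fun p => u (p.1, s + κ * p.2)) p = den u (p.1, s + κ * p.2) := by
  have h1 : dx (fun p => u (p.1, s + κ * p.2)) p = dx u (p.1, s + κ * p.2) := by
    simp only [dx]
    rw [fd hu]
    simp
  have h2 : dy (fun p => u (p.1, s + κ * p.2)) p = κ * dy u (p.1, s + κ * p.2) := by
    simp only [dy]
    rw [fd hu]
    have : ((0 : ℝ × ℝ).1, κ * (1 : ℝ)) = κ • ((0 : ℝ), (1 : ℝ)) := by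
      simp
    have h3 : (((0 : ℝ), (1 : ℝ)).1, κ * ((0 : ℝ), (1 : ℝ)).2) = κ • ((0 : ℝ), (1 : ℝ)) := by
      simp
    rw [h3, map_smul, smul_eq_mul]
  simp only [den, h1, h2]
  have := sq_one h
  have h4 : (κ * dy u (p.1, s + κ * p.2)) ^ 2 = dy u (p.1, s + κ * p.2) ^ 2 := by
    rw [mul_pow, sq κ, this, one_mul]
  rw [h4]

theorem pre_hp {κ s : ℝ} (h : κ = 1 ∨ κ = -1) : FF κ s h ⁻¹' hp κ s = hp 1 0 := by
  have := sq_one h
  ext p
  simp only [mem_preimage, FF_apply, hp, mem_ofPred_eq, add_sub_cancel_left, ← mul_assoc, this,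
    one_mul, sub_zero]

theorem pre_sp {κ s T : ℝ} (h : κ = 1 ∨ κ = -1) : FF κ s h ⁻¹' sp κ s T = sp 1 0 T := by
  have := sq_one h
  ext p
  simp only [mem_preimage, FF_apply, sp, mem_ofPred_eq, add_sub_cancel_left, ← mul_assoc, this,
    one_mul, sub_zero]

theorem area_eq {κ s : ℝ} (h : κ = 1 ∨ κ = -1) (K : Set (ℝ × ℝ)) {A B : Set (ℝ × ℝ)}
    (hA : FF κ s h ⁻¹' A = B) :
    area ({p : ℝ × ℝ | (p.1, s + κ * p.2) ∈ K} ∩ B) = area (K ∩ A) := by
  have h1 : {p : ℝ × ℝ | (p.1, s + κ * p.2) ∈ K} ∩ B = FF κ s h ⁻¹' (K ∩ A) := by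
    rw [preimage_inter, hA]; rfl
  rw [h1]
  simp only [area]
  rw [(mp κ s h).measure_preimage_emb (FF κ s h).measurableEmbedding]

theorem main : S_Sym := by
  intro u K κ s T h hu hK
  refine ⟨⟨?_, ?_⟩, ?_, ?_, ?_, ?_⟩
  · exact hu.1.comp (by fun_prop)
  · exact hu.2.comp_homeomorph (FF κ s h)
  · have h1 := (mp κ s h).setIntegral_preimage_emb (FF κ s h).measurableEmbedding (den u) (hp κ s)
    rw [pre_hp h] at h1
    simp only [EH]
    rw [← h1]
    refine integral_congr_ae (Eventually.of_forall fun p => ?_)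
    exact den_eq hu.1 h p
  · exact (FF κ s h).isCompact_preimage.mpr hK
  · exact area_eq h K (pre_hp h)
  · exact area_eq h K (pre_sp h)

end Sym

/-- Translations and reflections. -/
theorem prfSym : S_Sym := Sym.main

end Pool.Agent.Work.MP_33c50c_an.K3
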