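import Mathlib
import Pool.Agent.Work.MP_33c50c_an.K3.Stmts

namespace Pool.Agent.Work.MP_33c50c_an.K3

open MeasureTheory Set Filter Topology

namespace Tail

/-- a derivative gives a lower Dini derivative -/
lemma dl_of_hasDeriv (f : ℝ → ℝ) (s D d : ℝ) (hf : HasDerivAt f D s) (hd : d ≤ D) : DL f s d := by
  intro ε hε
  have h1 : HasDerivWithinAt f D (Ioi s) s := hf.hasDerivWithinAt
  have h2 : Tendsto (slope f s) (𝓝[>] s) (𝓝 D) :=
    (hasDerivWithinAt_iff_tendsto_slope' (notMem_Ioi.mpr le_rfl)).mp h1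
  have h3 : ∀ᶠ s' in 𝓝[>] s, d - ε < slope f s s' := h2.eventually (lt_mem_nhds (by linarith))
  filter_upwards [h3, self_mem_nhdsWithin] with s' h4 h5
  have h6 : 0 < s' - s := sub_pos.mpr h5
  rw [slope_def_field, lt_div_iff₀ h6] at h4
  linarith

end Tail

theorem prfTail : S_Reg → S_Dini → S_Line → S_Tail := by
  intro hReg hDini hLine u G hu hG hint p σ hp hσ1 hσ2
  obtain ⟨_, _, hee, hms, hes, _⟩ := hReg u hu
  have hb : 0 < bv 3 := by show 0 < 4 * (866 / 1000 : ℝ) ^ 3; norm_num
  have hGc : Continuous G := hG.1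
  have hGp : ∀ y, 0 < G y := hG.2.1
  have hintp : IntegrableOn G (Ioi p) := hint.mono_set (Ioi_subset_Ioi hp)
  set sf : ℝ → ℝ := fun s => σ + (∫ z in p..s, G z) / bv 3 with hsf
  have hsc : Continuous sf :=
    continuous_const.add ((intervalIntegral.continuous_primitive
      (fun a b => hGc.intervalIntegrable a b) p).div_const _)
  have hlo : ∀ s, p ≤ s → 0 ≤ ∫ z in p..s, G z := fun s hs =>
    intervalIntegral.integral_nonneg hs fun z _ => (hGp z).le
  have hup : ∀ s, p ≤ s → (∫ z in p..s, G z) ≤ ∫ z in Ioi p, G z := by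
    intro s hs
    rw [intervalIntegral.integral_of_le hs]
    exact setIntegral_mono_set hintp (Eventually.of_forall fun z => (hGp z).le)
      (Eventually.of_forall (Ioc_subset_Ioi_self))
  have habs : ∀ s, p ≤ s → |sf s| < 1 := by
    intro s hs
    have h1 := hlo s hs
    have h2 := hup s hs
    rw [abs_lt]
    constructor
    · have : 0 ≤ (∫ z in p..s, G z) / bv 3 := div_nonneg h1 hb.le
      simp only [hsf]; linarith
    · have : (∫ z in p..s, G z) / bv 3 ≤ (∫ z in Ioi p, G z) / bv 3 := by gcongr
      simp only [hsf]; linarith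
  have hDL : ∀ s, p ≤ s → DL sf s (cc (sf s) - cc (sf s) ^ 3 / G s ^ 2) := by
    intro s hs
    have hder : HasDerivAt sf (G s / bv 3) s := by
      have h1 : HasDerivAt (fun s => ∫ z in p..s, G z) (G s) s :=
        intervalIntegral.integral_hasDerivAt_right (hGc.intervalIntegrable p s)
          (hGc.stronglyMeasurableAtFilter _ _) hGc.continuousAt
      simpa [hsf] using (h1.div_const (bv 3)).const_add σ
    refine Tail.dl_of_hasDeriv _ s _ _ hder ?_
    have h := hLine (sf s) (866 / 1000) 0 (G s) 1 (habs s hs).le le_rfl (by norm_num) (by norm_num)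
      le_rfl (by norm_num) (hGp s)
    rw [sub_zero] at h
    exact h
  -- a large height
  obtain ⟨R, hR1, hR2⟩ : ∃ R, p ≤ R ∧ ∀ y, R ≤ y → mm u y = 0 ∧ ee u y = 0 := by
    obtain ⟨R1, h1⟩ := hms.isCompact.isBounded.subset_closedBall 0
    obtain ⟨R2, h2⟩ := hes.isCompact.isBounded.subset_closedBall 0
    refine ⟨max p (max R1 R2 + 1), le_max_left _ _, ?_⟩
    intro y hy
    have hy1 : max R1 R2 + 1 ≤ y := (le_max_right _ _).trans hy
    have hyR1 : R1 < y := by linarith [le_max_left R1 R2]
    have hyR2 : R2 < y := by linarith [le_max_right R1 R2]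
    constructor
    · by_contra hne
      have := h1 (subset_tsupport _ (Function.mem_support.mpr hne))
      rw [mem_closedBall_zero_iff, Real.norm_eq_abs] at this
      linarith [le_abs_self y]
    · by_contra hne
      have := h2 (subset_tsupport _ (Function.mem_support.mpr hne))
      rw [mem_closedBall_zero_iff, Real.norm_eq_abs] at this
      linarith [le_abs_self y]
  have h := hDini u G sf p R hu hG hp hR1 hsc.continuousOn (fun s hs => habs s hs.1)
    (fun s hs => hDL s hs.1)
  have e1 : sf p = σ := by simp [hsf]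
  have e2 : (∫ s in p..R, ee u s) = ∫ s in Ioi p, ee u s := by
    rw [intervalIntegral.integral_of_le hR1]
    refine (setIntegral_eq_of_subset_of_forall_sdiff_eq_zero measurableSet_Ioi Ioc_subset_Ioi_self ?_).symm
    intro y hy
    have : R < y := by
      by_contra hlt
      exact hy.2 ⟨hy.1, not_lt.mp hlt⟩
    exact (hR2 y this.le).2
  rw [e1, (hR2 R le_rfl).1, mul_zero, add_zero, e2] at h
  exact h

end Pool.Agent.Work.MP_33c50c_an.K3
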