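import Pool.Agent.Work.MP_33c50c_an.K3.Stmts

/-!
# Block K3, item Trunc: the positive and the negative part
-/

set_option autoImplicit false

namespace Pool.Agent.Work.MP_33c50c_an.K3

open MeasureTheory Set Filter Topology

namespace Trunc

lemma den_zero {v : ℝ × ℝ → ℝ} {p : ℝ × ℝ} (hp : p ∉ tsupport v) : den v p = 0 := by
  have h1 : v p = 0 := image_eq_zero_of_notMem_tsupport hp
  have h2 : fderiv ℝ v p = 0 := by
    by_contra h
    exact hp (support_fderiv_subset ℝ (Function.mem_support.2 h))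
  simp [den, dx, dy, h1, h2]

lemma den_int {v : ℝ × ℝ → ℝ} (hv : Tst v) : Integrable (den v) := by
  have h1 : Continuous (fderiv ℝ v) := hv.1.continuous_fderiv one_ne_zero
  have h2 : Continuous (den v) := by
    unfold den dx dy
    exact (((h1.clm_apply continuous_const).pow 2).add
      ((h1.clm_apply continuous_const).pow 2)).sub (hv.1.continuous.pow 2)
  exact h2.integrable_of_hasCompactSupport
    (HasCompactSupport.intro hv.2.isCompact (fun p hp => den_zero hp))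

lemma tst_neg {w : ℝ × ℝ → ℝ} (hw : Tst w) : Tst (fun p => -w p) :=
  ⟨hw.1.neg, hw.2.comp_left (g := fun t => -t) neg_zero⟩

lemma tst_comp {w : ℝ × ℝ → ℝ} {ε : ℝ} {β : ℝ → ℝ} (hε : 0 < ε) (hβ : Bet ε β) (hw : Tst w) :
    Tst (fun p => β (w p)) :=
  ⟨hβ.1.comp hw.1, hw.2.comp_left (hβ.2.1 0 hε.le)⟩

lemma den_comp {w : ℝ × ℝ → ℝ} {β : ℝ → ℝ} (hβ : ContDiff ℝ 1 β) (hw : Tst w) (p : ℝ × ℝ) :
    den (fun p => β (w p)) p =
      deriv β (w p) ^ 2 * (dx w p ^ 2 + dy w p ^ 2) - β (w p) ^ 2 := by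
  have h1 : HasDerivAt β (deriv β (w p)) (w p) :=
    (hβ.differentiable one_ne_zero (w p)).hasDerivAt
  have h2 : HasFDerivAt w (fderiv ℝ w p) p := (hw.1.differentiable one_ne_zero p).hasFDerivAt
  have h3 : fderiv ℝ (fun p => β (w p)) p = deriv β (w p) • fderiv ℝ w p :=
    (h1.comp_hasFDerivAt p h2).fderiv
  simp only [den, dx, dy, h3, _root_.smul_apply, smul_eq_mul]
  ring

lemma den_neg {w : ℝ × ℝ → ℝ} (p : ℝ × ℝ) :
    dx (fun p => -w p) p = -dx w p ∧ dy (fun p => -w p) p = -dy w p := by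
  have h : fderiv ℝ (fun p => -w p) p = -fderiv ℝ w p := fderiv_fun_neg
  simp [dx, dy, h]

lemma deriv_zero {ε : ℝ} {β : ℝ → ℝ} (hβ : Bet ε β) {t : ℝ} (ht : t < ε) : deriv β t = 0 := by
  have h : β =ᶠ[𝓝 t] fun _ => 0 := by
    filter_upwards [Iio_mem_nhds ht] with s hs
    exact hβ.2.1 s (le_of_lt hs)
  rw [h.deriv_eq, deriv_const]

/-- the pointwise inequality for nonnegative values -/
lemma key {ε : ℝ} {β : ℝ → ℝ} (hε : 0 < ε) (hβ : Bet ε β) {a S : ℝ} (ha : 0 ≤ a) (hS : 0 ≤ S) :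
    (deriv β a ^ 2 * S - β a ^ 2) + (deriv β (-a) ^ 2 * S - β (-a) ^ 2) ≤
      S - a ^ 2 + 3 * ε * a := by
  rw [deriv_zero hβ (by linarith : -a < ε), hβ.2.1 (-a) (by linarith)]
  obtain ⟨h1, h2⟩ := hβ.2.2.1 a
  have h3 := hβ.2.2.2 a ha
  have h4 : deriv β a ^ 2 ≤ 1 := by nlinarith
  have h5 : deriv β a ^ 2 * S ≤ 1 * S := mul_le_mul_of_nonneg_right h4 hS
  have h6 : a ^ 2 - 3 * ε * a ≤ β a ^ 2 := by
    by_cases h : 3 * ε / 2 ≤ a
    · have h7 : (a - 3 * ε / 2) ^ 2 ≤ β a ^ 2 := by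
        exact pow_le_pow_left₀ (by linarith) h3 2
      nlinarith [sq_nonneg ε]
    · push Not at h
      nlinarith [sq_nonneg (β a)]
  linarith

lemma pw {w : ℝ × ℝ → ℝ} {ε : ℝ} {β : ℝ → ℝ} (hε : 0 < ε) (hβ : Bet ε β) (hw : Tst w)
    (p : ℝ × ℝ) : den (fun p => β (w p)) p + den (fun p => β (-w p)) p ≤
      den w p + 3 * ε * |w p| := by
  rw [den_comp hβ.1 hw, den_comp (w := fun p => -w p) hβ.1 (tst_neg hw), (den_neg p).1,
    (den_neg p).2, neg_sq, neg_sq, den]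
  have hS : 0 ≤ dx w p ^ 2 + dy w p ^ 2 := by positivity
  rcases le_total 0 (w p) with h | h
  · rw [abs_of_nonneg h]
    exact key hε hβ h hS
  · rw [abs_of_nonpos h]
    have h1 := key hε hβ (neg_nonneg.2 h) hS
    rw [neg_neg, neg_sq] at h1
    linarith

end Trunc

theorem prfTrunc : S_Trunc := by
  intro w ε β hε hβ hw
  have hw' := Trunc.tst_neg hw
  have h1 := Trunc.tst_comp hε hβ hw
  have h2 : Tst (fun p => β (-w p)) := Trunc.tst_comp hε hβ hw'
  refine ⟨h1, h2, fun κ s => ?_⟩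
  have hi : Integrable (fun p => 3 * ε * |w p|) :=
    ((hw.1.continuous.integrable_of_hasCompactSupport hw.2).abs).const_mul _
  have h3 : EH κ s (fun p => β (w p)) + EH κ s (fun p => β (-w p)) ≤
      ∫ p in hp κ s, (den w p + 3 * ε * |w p|) := by
    rw [EH, EH, ← integral_add (Trunc.den_int h1).integrableOn (Trunc.den_int h2).integrableOn]
    exact setIntegral_mono ((Trunc.den_int h1).add (Trunc.den_int h2)).integrableOn
      ((Trunc.den_int hw).add hi).integrableOn (fun p => Trunc.pw hε hβ hw p)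
  have h4 : ∫ p in hp κ s, (den w p + 3 * ε * |w p|) =
      EH κ s w + ∫ p in hp κ s, 3 * ε * |w p| := by
    rw [EH, ← integral_add (Trunc.den_int hw).integrableOn hi.integrableOn]
  have h5 : ∫ p in hp κ s, 3 * ε * |w p| ≤ ∫ p, 3 * ε * |w p| :=
    setIntegral_le_integral hi (Eventually.of_forall (fun p => by positivity))
  have h6 : ∫ p, 3 * ε * |w p| = 3 * ε * ∫ p, |w p| := integral_const_mul _ _
  linarith

end Pool.Agent.Work.MP_33c50c_an.K3
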