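import Pool.Agent.Work.MP_33c50c_an.K3.Stmts

/-!
# A window with small mass
-/

set_option autoImplicit false

namespace Pool.Agent.Work.MP_33c50c_an.K3

open MeasureTheory Set Filter Topology

namespace Win

lemma swap {f : ℝ → ℝ} (hf : Continuous f) (a b c d : ℝ) :
    ∫ x in a..b, ∫ y in c..d, f (x + y) = ∫ y in c..d, ∫ x in a..b, f (x + y) := by
  refine intervalIntegral_intervalIntegral_swap (F := fun x y => f (x + y)) ?_
  have hc : Continuous (Function.uncurry fun x y : ℝ => f (x + y)) := by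
    have : (Function.uncurry fun x y : ℝ => f (x + y)) = fun p : ℝ × ℝ => f (p.1 + p.2) := rfl
    rw [this]; fun_prop
  refine (hc.continuousOn.integrableOn_compact
    ((isCompact_uIcc (a := a) (b := b)).prod (isCompact_uIcc (a := c) (b := d)))).mono_set ?_
  exact prod_mono uIoc_subset_uIcc uIoc_subset_uIcc

lemma per {f : ℝ → ℝ} (hp : ∀ x, f (x + 2 * Real.pi) = f x) (y : ℝ) :
    ∫ a in (0:ℝ)..(2 * Real.pi), f (a + y) = ∫ x in (0:ℝ)..(2 * Real.pi), f x := by
  rw [intervalIntegral.integral_comp_add_right]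
  have h1 := Function.Periodic.intervalIntegral_add_eq (f := f) (T := 2 * Real.pi) hp y 0
  rw [zero_add] at h1
  rw [zero_add, add_comm (2 * Real.pi) y]
  exact h1

lemma part {f : ℝ → ℝ} (hf : Continuous f) (hp : ∀ x, f (x + 2 * Real.pi) = f x) (c d : ℝ) :
    ∫ a in (0:ℝ)..(2 * Real.pi), ∫ y in c..d, f (a + y) =
      (d - c) * ∫ x in (0:ℝ)..(2 * Real.pi), f x := by
  rw [swap hf]
  simp_rw [per hp]
  rw [intervalIntegral.integral_const, smul_eq_mul]

lemma cont {f : ℝ → ℝ} (hf : Continuous f) (c d : ℝ) :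
    Continuous fun a => ∫ y in c..d, f (a + y) := by
  refine intervalIntegral.continuous_parametric_intervalIntegral_of_continuous'
    (f := fun a y => f (a + y)) ?_ c d
  have : (Function.uncurry fun x y : ℝ => f (x + y)) = fun p : ℝ × ℝ => f (p.1 + p.2) := rfl
  rw [this]; fun_prop

end Win

theorem prfWin : S_Win := by
  intro f hf _ hp
  by_contra hcon
  push Not at hcon
  have hpi := Real.pi_pos
  have hc1 := Win.cont hf 0 (2 * wd)
  have hc2 := Win.cont hf (2 * Real.pi - 2 * wd) (2 * Real.pi)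
  have hcw : Continuous (win f) := hc1.add hc2
  have htot : ∫ a in (0:ℝ)..(2 * Real.pi), win f a =
      4 * wd * ∫ x in (0:ℝ)..(2 * Real.pi), f x := by
    have : (fun a => win f a) = fun a => (∫ x in (0:ℝ)..(2 * wd), f (a + x)) +
        ∫ x in (2 * Real.pi - 2 * wd)..(2 * Real.pi), f (a + x) := rfl
    rw [this, intervalIntegral.integral_add (hc1.intervalIntegrable _ _)
      (hc2.intervalIntegrable _ _), Win.part hf hp, Win.part hf hp]
    ring
  have hpos : 0 < ∫ a in (0:ℝ)..(2 * Real.pi),
      (win f a - 2 * wd / Real.pi * ∫ x in (0:ℝ)..(2 * Real.pi), f x) :=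
    intervalIntegral.intervalIntegral_pos_of_pos
      ((hcw.sub continuous_const).intervalIntegrable _ _)
      (fun a => sub_pos.2 (hcon a)) (by positivity)
  rw [intervalIntegral.integral_sub (hcw.intervalIntegrable _ _)
    (continuous_const.intervalIntegrable _ _), htot, intervalIntegral.integral_const,
    smul_eq_mul] at hpos
  have h2 : (2 * Real.pi - 0) * (2 * wd / Real.pi * ∫ x in (0:ℝ)..(2 * Real.pi), f x) =
      4 * wd * ∫ x in (0:ℝ)..(2 * Real.pi), f x := by
    field_simp
    ring
  rw [h2] at hpos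
  linarith

end Pool.Agent.Work.MP_33c50c_an.K3
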