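import Mathlib
import Pool.Agent.Work.MP_33c50c_an.K3.Stmts
import Pool.Agent.Work.MP_33c50c_an.K3.I_Reg
import Pool.Agent.Work.MP_33c50c_an.K3.I_LatLt
import Pool.Agent.Work.MP_33c50c_an.K3.I_FK1
import Pool.Agent.Work.MP_33c50c_an.K3.I_Sec
import Pool.Agent.Work.MP_33c50c_an.K3.I_Mono
import Pool.Agent.Work.MP_33c50c_an.K3.I_Dini
import Pool.Agent.Work.MP_33c50c_an.K3.I_Line
import Pool.Agent.Work.MP_33c50c_an.K3.I_LatDL
import Pool.Agent.Work.MP_33c50c_an.K3.I_Slab
import Pool.Agent.Work.MP_33c50c_an.K3.I_Chain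
import Pool.Agent.Work.MP_33c50c_an.K3.I_Tail
import Pool.Agent.Work.MP_33c50c_an.K3.I_Cell
import Pool.Agent.Work.MP_33c50c_an.K3.I_Maj
import Pool.Agent.Work.MP_33c50c_an.K3.I_CellK
import Pool.Agent.Work.MP_33c50c_an.K3.I_Sym
import Pool.Agent.Work.MP_33c50c_an.K3.I_CellS
import Pool.Agent.Work.MP_33c50c_an.K3.I_Mat
import Pool.Agent.Work.MP_33c50c_an.K3.I_Sig
import Pool.Agent.Work.MP_33c50c_an.K3.I_Open
import Pool.Agent.Work.MP_33c50c_an.K3.I_Conn
import Pool.Agent.Work.MP_33c50c_an.K3.I_Beta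
import Pool.Agent.Work.MP_33c50c_an.K3.I_Trunc
import Pool.Agent.Work.MP_33c50c_an.K3.I_Dir
import Pool.Agent.Work.MP_33c50c_an.K3.I_Four
import Pool.Agent.Work.MP_33c50c_an.K3.I_Strip
import Pool.Agent.Work.MP_33c50c_an.K3.I_Swap
import Pool.Agent.Work.MP_33c50c_an.K3.I_Cross
import Pool.Agent.Work.MP_33c50c_an.K3.I_Plane1
import Pool.Agent.Work.MP_33c50c_an.K3.I_Hom
import Pool.Agent.Work.MP_33c50c_an.K3.I_Plane
import Pool.Agent.Work.MP_33c50c_an.K3.I_Chi
import Pool.Agent.Work.MP_33c50c_an.K3.I_Orth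
import Pool.Agent.Work.MP_33c50c_an.K3.I_Ro
import Pool.Agent.Work.MP_33c50c_an.K3.I_Win
import Pool.Agent.Work.MP_33c50c_an.K3.I_CTst
import Pool.Agent.Work.MP_33c50c_an.K3.I_CVol
import Pool.Agent.Work.MP_33c50c_an.K3.I_CMas
import Pool.Agent.Work.MP_33c50c_an.K3.I_CEn
import Pool.Agent.Work.MP_33c50c_an.K3.I_Cyl
import Pool.Agent.Work.MP_33c50c_an.K3.I_CylS

namespace Pool.Agent.Work.MP_33c50c_an.K3

theorem tReg : S_Reg := prfReg
theorem tLatLt : S_LatLt := prfLatLt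
theorem tFK1 : S_FK1 := prfFK1
theorem tSec : S_Sec := prfSec tFK1
theorem tMono : S_Mono := prfMono
theorem tDini : S_Dini := prfDini tReg tSec tMono
theorem tLine : S_Line := prfLine
theorem tLatDL : S_LatDL := prfLatDL tLine tLatLt
theorem tSlab : S_Slab := prfSlab tDini tLatLt tLatDL
theorem tChain : S_Chain := prfChain tReg tLatLt tSlab
theorem tTail : S_Tail := prfTail tReg tDini tLine
theorem tCell : S_Cell := prfCell tReg tLatLt tChain tTail
theorem tMaj : S_Maj := prfMaj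
theorem tCellK : S_CellK := prfCellK tCell tMaj
theorem tSym : S_Sym := prfSym
theorem tCellS : S_CellS := prfCellS tCellK tSym
theorem tMat : S_Mat := prfMat
theorem tSig : S_Sig := prfSig
theorem tOpen : S_Open := prfOpen
theorem tConn : S_Conn := prfConn tSig tOpen
theorem tBeta : S_Beta := prfBeta
theorem tTrunc : S_Trunc := prfTrunc
theorem tDir : S_Dir := prfDir tBeta tTrunc
theorem tFour : S_Four := prfFour tMat tConn tDir
theorem tStrip : S_Strip := prfStrip tCellS tFour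
theorem tSwap : S_Swap := prfSwap
theorem tCross : S_Cross := prfCross
theorem tPlane1 : S_Plane1 := prfPlane1 tStrip tSwap tCross
theorem tHom : S_Hom := prfHom
theorem tPlane : S_Plane := prfPlane tPlane1 tHom
theorem tChi : S_Chi := prfChi
theorem tOrth : S_Orth := prfOrth
theorem tRo : S_Ro := prfRo
theorem tWin : S_Win := prfWin
theorem tCTst : S_CTst := prfCTst
theorem tCVol : S_CVol := prfCVol
theorem tCMas : S_CMas := prfCMas tRo
theorem tCEn : S_CEn := prfCEn tRo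
theorem tCyl : S_Cyl := prfCyl tPlane tChi tOrth tRo tWin tCTst tCVol tCMas tCEn

/-- Polya's inequality for the third eigenvalue, with a gain. -/
theorem main : ∀ Ω : Set Cyl, IsOpen Ω → MeasureTheory.volume Ω ≤ ENNReal.ofReal (1 / 10 ^ 9) →
    ENNReal.ofReal (1201 / 100 * Real.pi) / MeasureTheory.volume Ω ≤ eigenvalue Ω 3 :=
  prfCylS tPlane tChi tOrth tRo tWin tCTst tCVol tCMas tCEn

end Pool.Agent.Work.MP_33c50c_an.K3
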